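import Pool.Agent.Lib.MP_d439b2_co.H3.Spec
import Pool.Agent.Lib.MP_d439b2_co.Rep.SpecG

/-!
# MP_d439b2_co, group (X), `H3 = K3:0,01,12`: thin spiders, splits, universal vertices (helper7)

PART 1 (note 2829, helper26): a graph without split, without universal vertex and without induced minor `H3` has no thin
spider with 9 legs (S_T).
PART 2: in the black box `S_HLG` of the replacement theorem one may assume that the graph has no split (S_HLS).
PART 3: for subclasses of the `H3`-free graphs one may also assume that there is no universal vertex (S_HLU).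

Every `S_...` is a statement to be proved in its own file; the docstring contains the complete proof.  `a ~ b` means
`G.Adj a b`, `a ≁ b` its negation, `|A|` is `A.ncard`; `Ms G S v` is the set of the elements of `S` not adjacent to `v`; `Ret`,
`SPo`, `Prm`, `NoU`, `Hmg`, `Uns`, `Lv` are defined in `H3/Spec.lean`.  The tasks are independent: the statements that are used are hypotheses
of the theorem.

`M0: P0, P1, P2; X, Y, Z` means: apply `H3.S_M0` with these sets; one has to check: the six sets are connected and pairwise disjoint,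
`P0, P1, P2` touch pairwise, `X` touches `P0` and misses `P1, P2`; `Y` touches `P0, P1` and misses `P2`; `Z` touches `P1, P2` and
misses `P0`; `X, Y, Z` are pairwise not adjacent.
-/

set_option autoImplicit false

namespace Pool.Agent.MPd439b2.H3T

open Pool.Agent.MPd439b2 Pool.Agent.MPd439b2.LK Pool.Agent.MPd439b2.H3 Pool.Agent.MPd439b2.Rep

/-- no induced minor `K3:0,01,12` -/
def Fr3 {V : Type} (G : SimpleGraph V) : Prop := ¬ IMS (KA 3 3 ![{0}, {0, 1}, {1, 2}]) G Set.univ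

section

variable {V : Type} (G : SimpleGraph V)

/-- a thin spider with `n` legs: the `x i` form a clique, the `c i` are pairwise not adjacent, `x i ~ c j` iff `i = j` -/
structure Spi {n : ℕ} (x c : Fin n → V) : Prop where
  xx : ∀ i j, i ≠ j → G.Adj (x i) (x j)
  cc : ∀ i j, ¬ G.Adj (c i) (c j)
  xc : ∀ i j, G.Adj (x i) (c j) ↔ i = j

/-- the vertices of the spider -/
def SpV {n : ℕ} (x c : Fin n → V) : Set V := Set.range x ∪ Set.range c

/-- the vertices complete to the spider -/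
def Fl {n : ℕ} (x c : Fin n → V) : Set V := {f | ∀ i, G.Adj f (x i) ∧ G.Adj f (c i)}

/-- a rooted piece `Q` with root `A` (general version, four-cycles are allowed) -/
structure RP (A Q : Set V) : Prop where
  conn : Conn G A
  dis : Disjoint A Q
  out : ∀ v, v ∉ Q → (∀ q ∈ Q, G.Adj v q) ∨ (∀ q ∈ Q, ¬ G.Adj v q) ∨
    ∀ q ∈ Q, (G.Adj v q ↔ q ∈ Lv G A Q)
  pp : ∀ R ⊆ Q, Conn G (A ∪ R) → ∀ w ∈ Q, ∀ y ∈ Q, ∀ z ∈ Q, w ∉ R → y ∉ R → z ∉ R → w ≠ y →
    (∃ a ∈ A ∪ R, G.Adj a w) → (∃ a ∈ A ∪ R, G.Adj a y) → (∀ a ∈ A ∪ R, ¬ G.Adj a z) →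
    G.Adj w z → G.Adj w y ∨ G.Adj y z
  mf : ∀ M ⊆ Q, (M ⊆ Lv G A Q ∨ Disjoint M (Lv G A Q)) → Hmg G Q M → M.Subsingleton

/-- the vertices of `Q` outside the first level which see a part, but not all, of the first level -/
def NN (A Q : Set V) : Set V :=
  {u | u ∈ Q ∧ u ∉ Lv G A Q ∧ (Ms G (Lv G A Q) u).Nonempty ∧ ∃ a ∈ Lv G A Q, G.Adj u a}

/-- the vertices of `Q` outside the first level which see all of the first level -/
def ZZ (A Q : Set V) : Set V := {z | z ∈ Q ∧ z ∉ Lv G A Q ∧ ∀ a ∈ Lv G A Q, G.Adj z a}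

/-- the vertices of `Q` outside the first level which see nothing of the first level -/
def WW (A Q : Set V) : Set V := {w | w ∈ Q ∧ w ∉ Lv G A Q ∧ ∀ a ∈ Lv G A Q, ¬ G.Adj w a}

/-- `S` is a subset of the first level which is compatible with the missed sets -/
def Gd (A Q S : Set V) : Prop := S ⊆ Lv G A Q ∧ ∀ u ∈ NN G A Q,
  Ms G (Lv G A Q) u ⊆ S ∨ Disjoint (Ms G (Lv G A Q) u) S ∨ S ⊆ Ms G (Lv G A Q) u

/-- the cut at `S` -/
def XX (A Q S : Set V) : Set V :=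
  {v | v ∈ S ∨ (v ∈ NN G A Q ∧ Ms G (Lv G A Q) v ⊆ S) ∨
    (v ∈ ZZ G A Q ∧ ∃ u ∈ NN G A Q, Ms G (Lv G A Q) u ⊆ S ∧ ¬ G.Adj v u)}

/-- the piece at the node `T` -/
def QT (A Q T : Set V) : Set V :=
  {v | (v ∈ NN G A Q ∧ Ms G (Lv G A Q) v = T) ∨
    (v ∈ ZZ G A Q ∧ (∃ u ∈ NN G A Q, Ms G (Lv G A Q) u = T ∧ G.Adj v u) ∧
      ∃ u ∈ NN G A Q, Ms G (Lv G A Q) u = T ∧ ¬ G.Adj v u)}

/-- the last piece -/
def QI (A Q : Set V) : Set V := {v | v ∈ WW G A Q ∨ (v ∈ ZZ G A Q ∧ ∀ u ∈ NN G A Q, G.Adj v u)}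

/-- the elements of `S` in no missed set strictly inside `S` -/
def B0 (A Q S : Set V) : Set V :=
  {b | b ∈ S ∧ ∀ u ∈ NN G A Q, Ms G (Lv G A Q) u ⊂ S → b ∉ Ms G (Lv G A Q) u}

/-- the elements of `ZZ` which are complete to the nodes strictly inside `S` and anticomplete to the node `S` -/
def Z0 (A Q S : Set V) : Set V :=
  {z | z ∈ ZZ G A Q ∧ (∀ u ∈ NN G A Q, Ms G (Lv G A Q) u ⊂ S → G.Adj z u) ∧
    (∀ u ∈ NN G A Q, Ms G (Lv G A Q) u = S → ¬ G.Adj z u) ∧ ∃ u ∈ NN G A Q, Ms G (Lv G A Q) u = S}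

end

/-- hereditary classes -/
def Her (P : Cls) : Prop := ∀ (V : Type) [Finite V] (G : SimpleGraph V) (C : Set V), P V G →
  P C (G.induce C)

/-! ## PART 1: thin spiders -/

/-- **D0.** The vertices of a spider are different.

Proof. `x i = x j`, `i ≠ j`: `x i ~ x j` is impossible.  `c i = c j`: `x i ~ c i = c j`, so `i = j`.  `x i = c j`: let `k ≠ i, j` (`n ≥ 3`); `x k ~ x i = c j`, so
`k = j`: contradiction. -/
def S_D0 : Prop := ∀ (V : Type) (G : SimpleGraph V) (n : ℕ) (x c : Fin n → V), 3 ≤ n → Spi G x c →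
  (∀ i j, x i = x j → i = j) ∧ (∀ i j, c i = c j → i = j) ∧ ∀ i j, x i ≠ c j

/-- **B.** The model B.  (Uses `H3.S_M0`, `S_D0`.)

Proof. Otherwise M0: `P0 = {x i, x m}`, `P1 = Z`, `P2 = {x j}`; `X = {c m}`, `Y = {c i}`, `Z = {c j}`.  (`c m ~ x m`, `c m ≁ x j`, `c m` misses `Z`; `c i ~ x i`, touches `Z`,
`c i ≁ x j`; `c j` touches `Z`, `c j ~ x j`, `c j ≁ x i, x m`.) -/
def S_B : Prop := ∀ (V : Type) (G : SimpleGraph V) (n : ℕ) (x c : Fin n → V), 3 ≤ n → Fr3 G →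
  Spi G x c → ∀ (i j m : Fin n) (Z : Set V), i ≠ j → i ≠ m → j ≠ m → Conn G Z →
  (∀ k, k = i ∨ k = j ∨ k = m → x k ∉ Z ∧ c k ∉ Z) → Tch G Z {x i} → Tch G Z {x j} →
  Tch G Z {c i} → Tch G Z {c j} → Tch G Z {c m}

/-- **C.** The model C.  (Uses `H3.S_M0`, `S_D0`.)

Proof. Write `x_t`, `c_t` for `x (g t)`, `c (g t)`.  `u` is not in the spider (`x i` sees only one `c`, `c i` none).  Suppose `u ≁ x_4`.  M0: `P0 = {c_0, u}`,
`P1 = {x_0, x_1}`, `P2 = {x_2, c_2}`; `X = {c_3}`, `Y = {c_1}`, `Z = {x_4}`.  (`c_0 ~ u`; `c_0 ~ x_0`; `u ~ c_2`; `c_3 ~ u`, `c_3` misses `x_0, x_1, x_2, c_2`; `c_1 ~ u, x_1`,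
`c_1` misses `x_2, c_2`; `x_4 ~ x_0, x_2`, `x_4 ≁ c_0, u`, `x_4 ≁ c_1, c_3`.) -/
def S_C : Prop := ∀ (V : Type) (G : SimpleGraph V) (n : ℕ) (x c : Fin n → V), 3 ≤ n → Fr3 G →
  Spi G x c → ∀ (g : Fin 5 → Fin n) (u : V), Function.Injective g →
  (∀ t : Fin 5, t ≠ 4 → G.Adj u (c (g t))) → G.Adj u (x (g 4))

/-- **Vx.** A vertex which sees three of the `c i` is complete to the spider.  (Uses `S_D0`, `S_B`, `S_C`.)

Proof. `u` sees `c a, c b, c d` (three different indices); `u` is not in the spider.  (1) `u ~ c m` for every other `m`: B for `a, b, m` and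
`Z = {u, c d, x d}` (connected, contains `x d ~ x a, x b`, touches `c a`, `c b`): `Z` touches `c m`; `c d, x d ≁ c m`, so `u ~ c m`.  (2) Let `j` be an index; choose
four other indices (`n ≥ 5`) and apply C: `u ~ x j`. -/
def S_Vx : Prop := ∀ (V : Type) (G : SimpleGraph V) (n : ℕ) (x c : Fin n → V), 5 ≤ n → Fr3 G →
  Spi G x c → ∀ u, 3 ≤ {i | G.Adj u (c i)}.ncard → u ∈ Fl G x c

/-- **Zc.** Connected sets see at most two of the `c i`.  (Uses `S_D0`, `S_B`, `S_Vx`.)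

Proof. Suppose that there is a connected `Z' ⊆ Z` touching at least three of the `c i`; take one with `|Z'|` minimal.  A single vertex sees at most two (Vx, `Z` is disjoint
from `Fl`), so `|Z'| ≥ 2` and there is `v ∈ Z'` with `Z' \ {v}` connected (`conn_iff` of `Basic.lean` and
`SimpleGraph.Connected.exists_connected_induce_compl_singleton_of_finite_nontrivial`, or take `v ∈ Z'` such that the component of a fixed `u ∈ Z'` in `G[Z' \ {v}]` has the
maximal size).  `Z' \ {v}` touches at most two and `v` sees at most two, so `Z'` touches at least three and at most four `c i`: it touches `c a, c b, c d` and misses some `c m` (`n ≥ 5`).  B for `a, b, m` and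
`Z' ∪ {c d, x d}` (connected): contradiction. -/
def S_Zc : Prop := ∀ (V : Type) [Finite V] (G : SimpleGraph V) (n : ℕ) (x c : Fin n → V), 5 ≤ n →
  Fr3 G → Spi G x c → ∀ Z : Set V, Conn G Z → Disjoint Z (SpV x c) → Disjoint Z (Fl G x c) →
  {i | Tch G Z {c i}}.ncard ≤ 2

/-- **F.** The vertices complete to the spider are complete to everything around it.  (Uses `H3.S_M0`, `S_D0`, `S_Vx`, `S_Zc`.)

Proof. Let `f ∈ Fl`, `D₀ = {d ∈ D | f ~ d}`; it contains the spider, which is connected.  Let `E` be the component of `G[D₀]` which contains the spider (`exists_comp`, `Conn.union`).  If `E = D` we are done.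
Otherwise there are `e ∈ E` and `v ∈ D \ E` with `e ~ v` (`D` is connected); `v ∉ D₀` (otherwise `v ∈ E`), so `v ≁ f`; `v ∉ Fl`, `v` is not in the spider.  `f ∉ D`.
CASE 1: `v` is not adjacent to the spider.  Then `e` is not in the spider; let `T` be the component of `e` in `G[E \ SpV]`.  `E` is connected and contains the spider, so `T` touches `x i` or `c i` for some `i`.  By Zc `T` touches at
most two of the `c`; choose `j ≠ i` with `T` missing `c j`, and `m ≠ i, j`.  M0: `P0 = T ∪ {x i, c i, x m}`, `P1 = {f}`, `P2 = {x j}`; `X = {v}`, `Y = {c m}`, `Z = {c j}`.  (`P0` is connected, `f ~ x m`, `x m ~ x j`, `f ~ x j`; `v ~ e ∈ T`, `v ≁ f, x j`;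
`c m ~ x m, f`, `c m ≁ x j`; `c j ~ f, x j`, `c j` misses `P0`; `v ≁ c m, c j`.)
CASE 2: `v` is adjacent to `x i` or `c i`.  Let `J = {j | v ≁ c j}`; `|J| ≥ n - 2 ≥ 4` by Vx.
(2a) There are different `a, b ∈ J` with `v ~ x a, x b`.  Let `d ∈ J` be a third element.  M0: `P0 = {f}`, `P1 = {x a}`, `P2 = {x b}`; `X = {c d}`, `Y = {c a}`, `Z = {v}`.
(2b) Otherwise at most one `j ∈ J` has `v ~ x j`; `|J \ {i}| ≥ 3`, so there are different `j, m ∈ J \ {i}` with `v ≁ x j`.  M0: `P0 = {x i, c i, x m}`, `P1 = {f}`, `P2 = {x j}`; `X = {v}`, `Y = {c m}`, `Z = {c j}`. -/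
def S_F : Prop := ∀ (V : Type) [Finite V] (G : SimpleGraph V) (n : ℕ) (x c : Fin n → V), 6 ≤ n →
  Fr3 G → Spi G x c → ∀ D : Set V, Conn G D → SpV x c ⊆ D → Disjoint D (Fl G x c) →
  ∀ f ∈ Fl G x c, ∀ v ∈ D, G.Adj f v

/-- **F0.** Without homogeneous sets there is no vertex complete to the spider.  (Uses `S_F`.)

Proof. Let `D` be the component of `x 0` in `G[(Fl)ᶜ]` (`exists_comp`; the vertices of the spider are not in `Fl`: `x i ≁ x i`, `c i ≁ c i`); the spider is connected, so it is contained in `D`.  `D` is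
homogeneous: a vertex outside `D` is in `Fl` (complete by F) or not (anticomplete, component).  `D` has at least two elements (`x 0 ~ x 1`), so `D = univ` (`Prm`), and `Fl` is empty. -/
def S_F0 : Prop := ∀ (V : Type) [Finite V] (G : SimpleGraph V) (n : ℕ) (x c : Fin n → V), 6 ≤ n →
  Fr3 G → Spi G x c → Prm G → Fl G x c = ∅

/-- **R.** Without splits every leg has a connected set which leads to another leg.  (Uses `S_D0`.)

Proof. Let `K` be the component of `c i` in `G[{x i}ᶜ]` (`c i ≠ x i`).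
(1) Suppose that `K` contains no vertex of the spider except for `c i`.  `A = K ∪ {x i}`, `A₁ = {x i}`, `B₁ = {b ∉ A | x i ~ b}` is a split of `G` (no edges between `K` and `Aᶜ`); `|A| ≥ 2`, and `Aᶜ` contains two other `x j` (`n ≥ 3`): contradiction to `SPo`.
(2) So `K` meets `S' = SpV \ {x i, c i}`.  Let `Q` be the component of `c i` in `G[K \ S']`; `K` is connected, so `Q` has a neighbour in `K ∩ S'`: `q ∈ Q`, `q ~ s ∈ S'`; `q ≠ c i` (`c i` has no neighbour in `S'`).  Let `R` be the component of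
`q` in `G[Q \ {c i}]`; `Q` is connected, so `R` touches `c i`.  `R` is disjoint from the spider and touches `s`, which is `x j` or `c j` with `j ≠ i`. -/
def S_R : Prop := ∀ (V : Type) [Finite V] (G : SimpleGraph V) (n : ℕ) (x c : Fin n → V), 3 ≤ n →
  Spi G x c → SPo G Set.univ → ∀ i, ∃ R : Set V, Conn G R ∧ Disjoint R (SpV x c) ∧
    Tch G R {c i} ∧ ∃ j, j ≠ i ∧ Tch G R {x j, c j}

/-- **E.** The model E.  (Uses `H3.S_M0`, `S_D0`.)

Proof. Write `x_t`, `c_t` for `x (g t)`, `c (g t)`.  Let `Y` be `R ∪ {c_0}`, together with `c_1` if `R` touches `c_1`, and let `Z` be `S ∪ {c_2}`, together with `c_3` if `S` touches `c_3`.  M0: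
`P0 = {x_0, x_4}`, `P1 = {x_1, x_2}`, `P2 = {x_3}`; `X = {c_4}`, `Y`, `Z`.  (`Y` touches `x_0` (by `c_0`) and `x_1` (`R` touches `x_1`, or `c_1 ∈ Y`) and misses `x_3`; `Z` touches `x_2` and `x_3` and misses `x_0, x_4`; `c_4 ~ x_4`; `c_4` misses `R`, `S`; `Y` misses `Z`: `R` misses `S`, `R` misses
`c_2, c_3`, `S` misses `c_0, c_1`.) -/
def S_E : Prop := ∀ (V : Type) (G : SimpleGraph V) (n : ℕ) (x c : Fin n → V), 3 ≤ n → Fr3 G →
  Spi G x c → ∀ (g : Fin 5 → Fin n) (R S : Set V), Function.Injective g → Conn G R → Conn G S →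
  Disjoint R (SpV x c) → Disjoint S (SpV x c) → Disjoint R S → ¬ Tch G R S →
  Tch G R {c (g 0)} → Tch G R {x (g 1), c (g 1)} →
  (∀ k, k ≠ g 0 → k ≠ g 1 → ¬ Tch G R {x k, c k}) →
  Tch G S {c (g 2)} → Tch G S {x (g 3), c (g 3)} →
  (∀ k, k ≠ g 2 → k ≠ g 3 → ¬ Tch G S {x k, c k}) → False

/-- **Qf.** The contradiction.  (Uses `S_D0`, `S_B`, `S_Zc`, `S_E`.)

Proof. By Zc every `R i` touches at most two of the `c`.  Let `A i = {j | j ≠ i, R i touches {x j, c j}}`, not empty.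
(1) The `A i` are disjoint: let `a ∈ A i ∩ A j`, `i ≠ j`; `a ≠ i, j`.  `Z = R i ∪ R j ∪ {x a, c a}` is connected.  The sets `R i`, `R j` touch at most four of the `c`, among them `c i`, `c j`; so there is `m ≠ i, j, a` with `c m` missed by `R i`, `R j` (`n ≥ 6`).  B for `i, j, m`: `Z` touches `c m`:
contradiction.
(2) Choose `g i ∈ A i`; by (1) `g` is injective, so surjective (`Finite.injective_iff_surjective`), and `A i = {g i}` (`b ∈ A i`, `b = g j ∈ A j`: `i = j`).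
(3) Let `i` be any index and `j ∉ {i, g i}` with `g j ≠ i`, and let `m ∉ {i, g i, j, g j}` (`g j ≠ g i`; `n ≥ 5`).  `R i` and `R j` are disjoint and do not touch: otherwise `R i ∪ R j` is connected, and with `a = g i` (`a ≠ i, j`) the set `Z = R i ∪ R j ∪ {x a, c a}` is connected; as in (1) with a suitable
`m'`: contradiction.
(4) E for `![i, g i, j, g j, m]`, `R i`, `R j`. -/
def S_Qf : Prop := ∀ (V : Type) [Finite V] (G : SimpleGraph V) (n : ℕ) (x c : Fin n → V), 9 ≤ n →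
  Fr3 G → Spi G x c → Fl G x c = ∅ → ∀ R : Fin n → Set V,
  (∀ i, Conn G (R i) ∧ Disjoint (R i) (SpV x c) ∧ Tch G (R i) {c i} ∧
    ∃ j, j ≠ i ∧ Tch G (R i) {x j, c j}) → False

/-- **T.** The theorem on thin spiders.  (Uses `H3.S_Pr`, `S_F0`, `S_R`, `S_Qf`.)

Proof. `|V| ≥ 4` (`x 0, .., x 3` are different).  `Prm G` by Pr (1); `Fl = ∅` by F0; the sets `R i` by R; Qf. -/
def S_T : Prop := ∀ (V : Type) [Finite V] (G : SimpleGraph V) (n : ℕ) (x c : Fin n → V), 9 ≤ n →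
  Fr3 G → SPo G Set.univ → NoU G → ¬ Spi G x c

/-! ## PART 2: splits -/

/-- **Sp.** The retraction of a split.

Proof. If `A₁` is not empty let `a ∈ A₁`, otherwise `a ∈ A` arbitrary.  `φ v = a` for `v ∈ A`, `φ v = v` otherwise; `Φ = A₁ ∪ Aᶜ ∪ {a}`.  `adj`: let `φ z ≠ φ z'`; not both are in `A`.  Both outside: clear.  `z ∈ A`, `z' ∉ A`:
`z ~ z'` iff `z ∈ A₁` and `z' ∈ B₁`; if `A₁` is not empty this is `z ∈ Φ` (`a ∈ A₁`) and `a ~ z'`; if `A₁` is empty both sides are false.  The other case by symmetry. -/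
def S_Sp : Prop := ∀ (V : Type) [Finite V] (G : SimpleGraph V) (A A₁ B₁ : Set V), A.Nonempty →
  A₁ ⊆ A → B₁ ⊆ Aᶜ → (∀ a ∈ A, ∀ b ∉ A, (G.Adj a b ↔ a ∈ A₁ ∧ b ∈ B₁)) →
  ∃ a ∈ A, ∃ (Φ : Set V) (φ : V → V), Ret G (insert a Aᶜ) φ Φ ∧ (∀ v ∈ A, φ v = a) ∧
    ∀ v ∉ A, φ v = v

/-- **Lf.** A tangle on a piece.  (Uses `LK.S_A1`, `H3.S_Rt`, `H3.S_In`.)

Proof. Write `L Y = φ ⁻¹' (Subtype.val '' Y)` for `Y : Set C`; `L Yᶜ = (L Y)ᶜ` (`into`).  (a) `cr (G.induce C) Y ≤ cr G (L Y)`: In (2) and A1 (2) (`Subtype.val '' Y ⊆ L Y` by `fix`, and `C \ Subtype.val '' Y ⊆ (L Y)ᶜ`).  (b) `cr G (L Y) ≤ cr (G.induce C) Y`: Rt, In (2).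
`ord`: (a).  `dec`: (b), `dec` of `T`.  `cov`: the lifts of three sets which cover `C` cover `V`.  `sing`: the hypothesis (`Subtype.val '' {d} = {d.1}`). -/
def S_Lf : Prop := ∀ (V : Type) [Finite V] (G : SimpleGraph V) (C Φ : Set V) (φ : V → V) (q : ℕ)
  (T : Set (Set V)), Ret G C φ Φ → Tan G q T → (∀ d ∈ C, φ ⁻¹' {d} ∈ T) →
  Tan (G.induce C) q {Y | φ ⁻¹' (Subtype.val '' Y) ∈ T}

/-- **Mn.** A minimal graph with a tangle has no split.  (Uses `LK.S_A1`, `LK.S_A2`, `S_Sp`, `S_Lf`.)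

Proof. Let `A`, `A₁`, `B₁` be a split.  `cr G A ≤ 1 ≤ q` (A1 (5) with `T = B₁`), so `A ∈ T` or `Aᶜ ∈ T`; the situation is symmetric (`G.Adj` is symmetric, both sides have at least two elements), let `A ∈ T`.  Sp gives `a, Φ, φ`, `C = insert a Aᶜ`; `φ ⁻¹' {a} = A ∈ T`, `φ ⁻¹' {v} = {v} ∈ T`
(`sing`) for `v ∉ A`.  Lf: `G.induce C` has a tangle, it is in the class (`Her`), and `|C| = |Aᶜ| + 1 < |V|`: contradiction to the minimality. -/
def S_Mn : Prop := ∀ P : Cls, Her P → ∀ q : ℕ, 1 ≤ q → ∀ (V : Type) [Finite V]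
  (G : SimpleGraph V) (T : Set (Set V)), P V G → Tan G q T →
  (∀ (V' : Type) [Finite V'] (G' : SimpleGraph V') (T' : Set (Set V')), P V' G' → Tan G' q T' →
    Nat.card V ≤ Nat.card V') → SPo G Set.univ

/-- **HLS.** The black box without splits.  (Uses `Rep.S_RepG`, `Rep.S_TanE`, `Rep.S_TanL`, `S_Mn`.)

Proof. As `Rep.S_HLG` (file `Rep/HLG.lean`), the minimal pair has no split by Mn. -/
def S_HLS : Prop := ∀ P : Cls, Inv P → FS P → Her P →
  (∀ β : ℕ → ℕ, ∃ c₀ k : ℕ, ∀ (V : Type) [Finite V] (G : SimpleGraph V), P V G → Link β c₀ G →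
    SPo G Set.univ → Lay G k Set.univ) →
  ∃ k : ℕ, ∀ (V : Type) [Finite V] (G : SimpleGraph V), P V G → Lay G k Set.univ

/-- **HF.** The classes `Fr` are hereditary.

Proof. A model in `G.induce C` becomes a model in `G` (images under `Subtype.val`). -/
def S_HF : Prop := ∀ (I₁ I₂ : Type) (H₁ : SimpleGraph I₁) (H₂ : SimpleGraph I₂),
  Her (fun _ G => Rep.Fr H₁ H₂ G)

/-! ## PART 3: rooted pieces (general version) -/

/-- **P1.** The first level is a clique.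

Proof. Let `L = Lv G A Q`.  (0) If `a, b ∈ L`, `a ≠ b`, `a ≁ b` then `a`, `b` have the same neighbours in `Q \ L`: let `z ∈ Q \ L`, `a ~ z`; `pp` with `R = ∅`, `w = a`, `y = b` (`z` has no neighbour in `A`): `b ~ z`.
Suppose `a ≠ b`, `a ≁ b` in `L`.  `M = {v ∈ L | ∀ z ∈ Q \ L, v ~ z ↔ a ~ z}` contains `a` and `b` (0) and is homogeneous in `Q`: an element `v ∈ L \ M` is adjacent to all `m ∈ M` (0), an element of `Q \ L` sees all of `M` or nothing.  Contradiction to `mf`. -/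
def S_P1 : Prop := ∀ (V : Type) [Finite V] (G : SimpleGraph V) (A Q : Set V), RP G A Q →
  CompleteOn G (Lv G A Q)

/-- **P2.** The vertices which see a part of the first level.

Proof. Let `L = Lv G A Q`, `M_u = Ms G L u`.  For `a ∈ L` the set `A ∪ {a}` is connected; `pp` with `R = {a}` says: if `w`, `y` touch `A ∪ {a}` (for elements of `Q \ L`: `w ~ a`) and `z ∈ Q \ L`, `z ≁ a`, `w ~ z`, then `w ~ y` or `y ~ z`.
(1) `u ≁ w`, `a ∈ M_w \ M_u`, `b ∈ M_u \ M_w`: `pp` with `R = {a}`, `w := b`, `y := u`, `z := w`: `b ~ u` or `u ~ w`: contradiction.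
(2) `u ~ w`, `M_u ≠ M_w` and `c ∈ M_u ∩ M_w`.  By symmetry let `a ∈ M_w \ M_u`.  `pp` with `R = {a}`, `w := u`, `y := c`, `z := w`: `u ~ c` or `c ~ w`: contradiction.
(3) `u ∈ NN`, `w ∈ WW`, `u ~ w`: let `b ∈ M_u`, `a ∈ L`, `u ~ a`.  `pp` with `R = {a}`, `w := u`, `y := b`, `z := w`: `u ~ b` or `b ~ w`: contradiction. -/
def S_P2 : Prop := ∀ (V : Type) [Finite V] (G : SimpleGraph V) (A Q : Set V), RP G A Q →
  (∀ u ∈ NN G A Q, ∀ w ∈ NN G A Q, u ≠ w → ¬ G.Adj u w →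
    Ms G (Lv G A Q) u ⊆ Ms G (Lv G A Q) w ∨ Ms G (Lv G A Q) w ⊆ Ms G (Lv G A Q) u) ∧
  (∀ u ∈ NN G A Q, ∀ w ∈ NN G A Q, G.Adj u w →
    Ms G (Lv G A Q) u = Ms G (Lv G A Q) w ∨ Disjoint (Ms G (Lv G A Q) u) (Ms G (Lv G A Q) w)) ∧
  ∀ u ∈ NN G A Q, ∀ w ∈ WW G A Q, ¬ G.Adj u w

/-- **P3.** The vertices which see all of the first level.  (Uses `S_P2`.)

Proof. Notation as in P2; `z, z' ∈ ZZ` see all of `L`.
(1) Let `z ≠ z'` be in `ZZ`, `z ≁ z'`.  (0) They have the same neighbours in `NN ∪ WW`: let `u ∈ NN ∪ WW`, `z ~ u`; there is `b ∈ L` with `b ≁ u` (`L` is not empty); `pp` with `R = {b}`, `w := z`, `y := z'`, `z := u`: `z' ~ u`.  `M = {v ∈ ZZ | v` has the same neighbours in `NN ∪ WW` as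
`z}` is homogeneous in `Q` (`L` is complete to it, `ZZ \ M` is complete to it by (0); `Q = L ∪ NN ∪ ZZ ∪ WW`) and disjoint from `L`, it contains `z, z'`: contradiction to `mf`.
(2) `z ≁ u, v`, `M_u ∩ M_v = ∅`: `u ≠ v` (not empty), `u ~ v` (P2 (1): non-empty disjoint sets are not nested).  Let `b ∈ M_v`.  `pp` with `R = {b}`, `w := u`, `y := z`, `z := v`: `u ~ z` or `z ~ v`: contradiction.
(3) `M_v ⊂ M_u`, `z ≁ v`, `z ~ u`: `v ≁ u` (P2 (2); `M_v` is not empty).  Let `b ∈ M_u \ M_v`.  `pp` with `R = {b}`, `w := z`, `y := v`, `z := u`: `z ~ v` or `v ~ u`: contradiction.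
(4) `z ≁ u`, `z ~ w`, `w ∈ WW`: let `a ∈ L`, `u ~ a`.  `pp` with `R = {a}`, `w := z`, `y := u`, `z := w`: `z ~ u` or `u ~ w`: contradiction (P2 (3)). -/
def S_P3 : Prop := ∀ (V : Type) [Finite V] (G : SimpleGraph V) (A Q : Set V), RP G A Q →
  (Lv G A Q).Nonempty → CompleteOn G (ZZ G A Q) ∧
  (∀ z ∈ ZZ G A Q, ∀ u ∈ NN G A Q, ∀ v ∈ NN G A Q,
    Disjoint (Ms G (Lv G A Q) u) (Ms G (Lv G A Q) v) → G.Adj z u ∨ G.Adj z v) ∧
  (∀ z ∈ ZZ G A Q, ∀ u ∈ NN G A Q, ∀ v ∈ NN G A Q, Ms G (Lv G A Q) v ⊂ Ms G (Lv G A Q) u →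
    G.Adj z u → G.Adj z v) ∧
  ∀ z ∈ ZZ G A Q, ∀ u ∈ NN G A Q, ¬ G.Adj z u → ∀ w ∈ WW G A Q, ¬ G.Adj z w

/-- **P4.** The cuts.  (Uses `LK.S_A1`, `S_P1`, `S_P2`, `S_P3`.)

Proof. (1) as for `H3.S_Q0`: `cr G Q = rk G Qᶜ Q` (A1 (1)); `Qᶜ = W₁ ∪ W₂`, `W₁` = the vertices complete or anticomplete to `Q`, `W₂` = those whose neighbours in `Q` are exactly `Lv G A Q`: `rk ≤ 1 + 1` (A1 (3), (5)).
(2) `L = Lv G A Q`, `M_u = Ms G L u`, `X = XX S ⊆ Q`.  Claim: every `v ∈ X` sees in `Q \ X` exactly `K = (L \ S) ∪ {u ∈ NN | u ∉ X, M_u ∩ S = ∅} ∪ (ZZ \ X)`.  (`u ∈ NN \ X`: `M_u` is not contained in `S`, so `M_u ∩ S = ∅` or `S ⊆ M_u`.)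
`v ∈ S`: `L` is a clique (P1); `v ~ u` iff `v ∉ M_u`; complete to `ZZ`, anticomplete to `WW`.
`v ∈ NN`, `M_v ⊆ S`: complete to `L \ S`; `u ∈ NN \ X`: if `M_u ∩ S = ∅` then `v ~ u` (P2 (1)); if `S ⊆ M_u` then `M_v ⊂ M_u` and `v ≁ u` (P2 (2)); `z ∈ ZZ \ X` is adjacent to `v` (definition of `XX`); anticomplete to `WW` (P2 (3)).
`v ∈ ZZ` with `u₀ ∈ NN`, `M_{u₀} ⊆ S`, `v ≁ u₀`: complete to `L`; `u ∈ NN \ X`: `M_u ∩ S = ∅`: `v ~ u` (P3 (2)); `S ⊆ M_u`: `M_{u₀} ⊂ M_u`, `v ≁ u` (P3 (3)); `ZZ` is a clique; anticomplete to `WW` (P3 (4)).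
Outside `Q` every vertex sees all of `X`, nothing, or exactly `X ∩ L` (`out`).  So the rows of the elements of `X ∩ L` on `Xᶜ` are all equal and so are the rows of the elements of `X \ L`: `cr G X ≤ 2` (A1 (3), (5)).  (If `L` is empty then `S`, `NN` and `X` are empty, `cr G ∅ = 0`.) -/
def S_P4 : Prop := ∀ (V : Type) [Finite V] (G : SimpleGraph V) (A Q : Set V), RP G A Q →
  cr G Q ≤ 2 ∧ ∀ S, Gd G A Q S → cr G (XX G A Q S) ≤ 2

/-- **P5.** The piece at a node.  (Uses `S_P1`, `S_P2`, `S_P3`.)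

Proof. `L = Lv G A Q`, `M_u = Ms G L u`, `A' = insert b A` (connected, `b ∈ L`), `Q' = QT T ⊆ Q \ L`, `N = {u ∈ NN | M_u = T}`, `Z' = Q' ∩ ZZ`: every `z ∈ Z'` is adjacent to some and not adjacent to some element of `N`.  `Lv G A' Q' = Z'`: `b` sees all of `ZZ`, nothing of `N`, and `A` does not see `Q \ L`.
`out`: `v ∉ Q'`.  `v ∉ Q`: `out` of `Q` and `Q' ∩ L = ∅`: complete or anticomplete.  `v ∈ T`: exactly `Z'`.  `v ∈ L \ T`: complete.
`v ∈ NN`, `M_v ≠ T`: by P2 (for `v` and `u ∈ N`, not empty) `M_v ⊂ T`, `T ⊂ M_v` or `M_v ∩ T = ∅`.  `M_v ⊂ T`: `v` misses `N` (P2 (2)), `v` sees `Z'` (P3 (3): `z ~ u ∈ N` implies `z ~ v`): exactly `Z'`.  `T ⊂ M_v`: misses `N`, and misses `Z'` (P3 (3): `z ~ v` would imply `z ~ u` for all `u ∈ N`):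
anticomplete.  Disjoint: `v` sees `N` (P2 (1)) and `Z'` (P3 (2), `z` misses some `u ∈ N`): complete.
`v ∈ ZZ`, `v ∉ Z'`: complete to `Z'` (clique), and complete or anticomplete to `N`: complete or exactly `Z'`.  `v ∈ WW`: misses `N` (P2 (3)) and `Z'` (P3 (4)): anticomplete.
`pp`: for `R ⊆ Q'` use `pp` of `Q` with `insert b R` (`A' ∪ R = A ∪ insert b R`; `b ∈ L` is not in `Q'`).
`mf`: `M ⊆ Q'`, `M ⊆ Z'` or disjoint from `Z'`, homogeneous in `Q'`: then homogeneous in `Q` (by the list above a vertex of `Q \ Q'` sees in `Q'` everything, nothing or exactly `Z'`), and disjoint from `L`: `mf` of `Q`. -/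
def S_P5 : Prop := ∀ (V : Type) [Finite V] (G : SimpleGraph V) (A Q T : Set V) (b : V),
  RP G A Q → b ∈ T → (∃ u ∈ NN G A Q, Ms G (Lv G A Q) u = T) → RP G (insert b A) (QT G A Q T)

/-- **P6.** The last piece.  (Uses `S_P1`, `S_P2`, `S_P3`.)

Proof. `L = Lv G A Q`, `A' = insert a A`, `Q' = QI ⊆ Q \ L`, `Z' = {z ∈ ZZ | z` complete to `NN}`.  `Lv G A' Q' = Z'`.  `out`: `v ∉ Q'`.  `v ∉ Q`: complete or anticomplete.  `v ∈ L`: exactly `Z'`.  `v ∈ NN`: misses `WW` (P2 (3)), sees `Z'`: exactly `Z'`.  `v ∈ ZZ`, `v ∉ Z'`: sees `Z'` (clique), misses `WW` (P3 (4)):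
exactly `Z'`.  `pp`, `mf` as for P5. -/
def S_P6 : Prop := ∀ (V : Type) [Finite V] (G : SimpleGraph V) (A Q : Set V) (a : V), RP G A Q →
  a ∈ Lv G A Q → RP G (insert a A) (QI G A Q)

/-- **P7.** Twins.  (Uses `S_P1`, `S_P2`, `S_P3`.)

Proof. (1) Let `b ≠ b'` be in `B0`.  `{b, b'}` is homogeneous in `Q`: `L` is a clique, `ZZ` is complete and `WW` anticomplete to `L`; `u ∈ NN`: `M_u ⊂ S`: `b, b' ∉ M_u`; `M_u = S` or `S ⊆ M_u`: `b, b' ∈ M_u`; `M_u ∩ S = ∅`: `b, b' ∉ M_u`.  So `mf` gives a contradiction (`B0 ⊆ S ⊆ L`).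
(2) Let `z ≠ z'` be in `Z0`, `u₀ ∈ NN` with `M_{u₀} = S`, `z, z' ≁ u₀`.  `{z, z'}` is homogeneous in `Q`: complete to `L`, to `ZZ` (P3 (1)), anticomplete to `WW` (P3 (4)); `u ∈ NN`: `M_u ⊂ S`: adjacent to both; `M_u = S`: to none; `S ⊂ M_u`: to none (P3 (3)); `M_u ∩ S = ∅`: to both (P3 (2)).  `mf`.
(3) Let `v ∈ XX S`.  `v ∈ S`: `v ∈ B0`, or there is `u` with `M_u ⊂ S`, `v ∈ M_u ⊆ XX M_u`.  `v ∈ NN`, `M_v ⊆ S`: `M_v ⊂ S` and `v ∈ XX M_v`, or `M_v = S` and `v ∈ QT S`.  `v ∈ ZZ`: if `v` misses some `u` with `M_u ⊂ S` then `v ∈ XX M_u`; otherwise it misses some `u` with `M_u = S`; if it also sees such an element then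
`v ∈ QT S`, otherwise `v ∈ Z0`. -/
def S_P7 : Prop := ∀ (V : Type) [Finite V] (G : SimpleGraph V) (A Q S : Set V), RP G A Q →
  Gd G A Q S → (B0 G A Q S).Subsingleton ∧ (Z0 G A Q S).Subsingleton ∧
  ∀ v ∈ XX G A Q S, v ∈ B0 G A Q S ∨ v ∈ Z0 G A Q S ∨ v ∈ QT G A Q S ∨
    ∃ u ∈ NN G A Q, Ms G (Lv G A Q) u ⊂ S ∧ v ∈ XX G A Q (Ms G (Lv G A Q) u)

/-- **P8.** Rooted pieces in linked graphs are small.  (Uses `S_P2`, `S_P4`, `S_P5`, `S_P6`, `S_P7`.)

Proof. Suppose `|V| ≥ 4 B + 9`.  Call `X` small if `|X| ≤ B` and big if `|Xᶜ| ≤ B`; not both; cuts of rank at most `2` are small or big.  Strong induction on `|Q|`: we show that there is no `RP G A Q` with `Q` big.  `L = Lv G A Q`, `M_u = Ms G L u`.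
`L = ∅`: `mf` for `M = Q` gives `|Q| ≤ 1`, `|V| ≤ B + 1`: contradiction.  Let `a ∈ L`.  `QI` (P6, P4 (1)): if it is big we use the induction hypothesis (`a ∈ Q \ QI`).  So it is small; `Q ⊆ XX L ∪ QI`, so `|XX L| ≥ |V| - 2 B > B` and `XX L` is big (P4 (2); `Gd L` is clear).
Let `S` be a set with `Gd S`, `XX S` big, and `|S|` minimal.  `XX ∅ = ∅` (the `M_u` are not empty), so `S ≠ ∅`; let `b ∈ S`.  CLAIM: `QT S` is big (then `NN` contains `u` with `M_u = S`, P5, `b ∈ Q \ QT S`: induction hypothesis, contradiction).  By P4 (1), P5 and `|QT S| > B` (in particular `QT S ≠ ∅`, so some `u ∈ NN` has `M_u = S`) it is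
enough to show `|XX S \ QT S| ≤ 2 B + 2`, because `|XX S| ≥ |V| - B`.
Let `𝒞` be the set of the maximal elements of `{M_u | u ∈ NN, M_u ⊂ S}`.  Two sets `M_u`, `M_v` are nested or disjoint (P2), so the elements of `𝒞` are pairwise disjoint.  For `ℐ ⊆ 𝒞` the union `⋃₀ ℐ` is `Gd` (for `v ∈ NN`: `Gd S`; if `M_v ⊆ S` then `M_v = S` or `M_v` is contained in an element of `𝒞`, which is in `ℐ` or disjoint from
`⋃₀ ℐ`; if `M_v ∩ S = ∅` it is disjoint; `S ⊆ M_v`: clear).  If `M_u ⊆ ⋃₀ ℐ`, `M_u ⊂ S`, then `M_u` is contained in an element of `ℐ` (`M_u ≠ ∅`).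
Let `ℐ ⊆ 𝒞` be a maximal subfamily with `XX (⋃₀ ℐ)` small.
(i) `ℐ = 𝒞`: every `u` with `M_u ⊂ S` has `M_u ⊆ ⋃₀ 𝒞`, so `XX M_u ⊆ XX (⋃₀ 𝒞)`, and P7 (3) gives `|XX S \ QT S| ≤ B + 2`.
(ii) Otherwise let `C ∈ 𝒞 \ ℐ`, `S' = ⋃₀ ℐ ∪ C`; `XX S'` is not small, so it is big, `S' ⊆ S` and `|S'| ≥ |S|`, so `S' = S`.  `C ⊂ S` and `Gd C`, so `XX C` is not big, hence small.  By P7 (3) an element of `XX S` outside `B0 ∪ Z0 ∪ QT S` is in `XX M_u` with `M_u ⊂ S`; `M_u` is contained in an element of `ℐ ∪ {C}`, so it is in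
`XX (⋃₀ ℐ) ∪ XX C`: `|XX S \ QT S| ≤ 2 B + 2`. -/
def S_P8 : Prop := ∀ (V : Type) [Finite V] (G : SimpleGraph V) (B : ℕ),
  (∀ X : Set V, cr G X ≤ 2 → X.ncard ≤ B ∨ Xᶜ.ncard ≤ B) → ∀ A Q, RP G A Q → Qᶜ.ncard ≤ B →
  Nat.card V ≤ 4 * B + 8

/-- **U3.** A universal vertex of a piece.  (Uses `H3.S_M0`.)

Proof. `Y = φ ⁻¹' (C \ {u})`.  If all elements of `Y` are in `Φ` then `Y` is homogeneous (`v ∉ Y`: `φ v = u`; `v ∈ Φ`: complete to `Y`; `v ∉ Φ`: anticomplete), `u ∉ Y`, `|Y| ≥ 2`: contradiction to `Prm`.  So there is `y ∈ Y`, `y ∉ Φ`; `c = φ y ≠ u`.  Let `K` be the component of `y` in `G[{w | φ w = c, w ∉ Φ}]` (`exists_comp`); `c ∉ K`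
(`c ∈ Φ`), so by `Conn G univ` there are `d ∈ K`, `f ∉ K`, `d ~ f`; `φ f = c` (otherwise `d ∈ Φ` by `adj`), `f ∈ Φ` (otherwise `f ∈ K`).  For `w ∈ C`, `w ≠ c`: `d ≁ w` (`d ∉ Φ`), and `f ~ w` iff `c ~ w`.
Claim: `RP (G.induce C) {c} Q`, `Q = C \ {c, u}` (everything in the subtype `C`).  `conn`, `dis` clear.  `out`: `c` sees exactly `Lv`; `u` sees everything.
`pp`: let `R, w, y, z` be as in `pp`, suppose `w ≁ y` and `y ≁ z`.  In `G`: M0: `P0 = {f} ∪ R`, `P1 = {u}`, `P2 = {w}`; `X = {d}`, `Y = {y}`, `Z = {z}`: `{f} ∪ R` is connected (as `{c} ∪ R`: the map `c ↦ f` preserves adjacency to the elements of `C \ {c}`); `u ~ f` (`u ~ c`), `w` touches `P0`, `u ~ w, y, z`; `d ~ f`, `d` misses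
`u, w, y, z` and `R`; `y` touches `P0`, `y ≁ w`; `z ~ w`, `z` misses `P0`.  (`f ∉ R`: `f` is `c` or not in `C`; `d ∉ C`.)
`mf`: `M ⊆ Q` with at least two elements, homogeneous in `Q` and `M ⊆ Lv` or disjoint from it: then it is homogeneous in `C` and `A = M`, `A₁ = M`, `B₁ = {v ∈ C \ M | v` complete to `M}` is a split of `G[C]` (`c, u ∈ C \ M`).
(Compare `H3/Uni.lean`, where the same is proved for chordal graphs.) -/
def S_U3 : Prop := ∀ (V : Type) [Finite V] (G : SimpleGraph V) (C Φ : Set V) (φ : V → V) (u : V),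
  Fr3 G → Prm G → Conn G Set.univ → Ret G C φ Φ → SPo G C → u ∈ C →
  (∀ c ∈ C, c ≠ u → G.Adj u c) → 3 ≤ C.ncard →
  ∃ c : C, c.1 ≠ u ∧ RP (G.induce C) {c} {v | v ≠ c ∧ v.1 ≠ u}

/-- **LB.** A linked graph with a layout of small width is small.  (Uses `LK.S_A1`.)

Proof. Suppose `|V| ≥ 3 b + 4`, `b = β k`.  Every node `X` of the layout has `cr G X ≤ k` (at most `k` nonempty types, A1 (6) with the set of the types, which is finite), so `|X| ≤ b` or `|Xᶜ| ≤ b`.  By induction on the layout every node has `|X| ≤ b + 1`: `∅`, `{v}` clear; `X ∪ Y`: at most `2 b + 2` elements, so `|(X ∪ Y)ᶜ| > b` and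
`|X ∪ Y| ≤ b`.  For `univ`: contradiction. -/
def S_LB : Prop := ∀ (V : Type) [Finite V] (G : SimpleGraph V) (β : ℕ → ℕ) (c₀ k : ℕ), k ≤ c₀ →
  Link β c₀ G → Lay G k Set.univ → Nat.card V ≤ 3 * β k + 3

/-- **LN.** Small graphs.

Proof. For every finite set `A` with `|A| ≤ N`: `Lay G N A`, by induction on `|A|` (`Lay.insert` of `Basic.lean` needs a bound for the types: `Types G A` is contained in the image of `A` under `a ↦ N(a) \ A`, so it has at most `|A| ≤ N` elements). -/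
def S_LN : Prop := ∀ (V : Type) [Finite V] (G : SimpleGraph V) (N : ℕ), Nat.card V ≤ N →
  Lay G N Set.univ

/-- **HLU.** The black box for subclasses of the `H3`-free graphs: no splits, no universal vertex.  (Uses `LK.S_A1`, `H3.S_Pr`, `H3.S_Rt`, `H3.S_Pc`, `H3.S_In`,
`S_HLS`, `S_P8`, `S_U3`, `S_LB`, `S_LN`.)

Proof. We use HLS.  Let `β` be given, `β₁ c = β (c + 1)`; let `c₁, k₁` belong to `β` and `c₂, k₂` to `β₁` (hypothesis).  `c₀ = max c₁ (max (c₂ + 1) (max (k₂ + 1) 3))`, `h = β 2 + 2`, `N = 1 + h * (3 * β₁ k₂ + 3 + 4 * (β₁ 2 + 2) + 8 + 4)`, `k = max k₁ N`.  Let `P G`, `Link β c₀ G`, `SPo G univ`.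
(a) `NoU G`: `Link β c₁ G`, so `Lay G k₁`.
(b) `w` universal.  If `|V| ≤ N` use LN.  Let `|V| > N`, `G' = G.induce {w}ᶜ`, `|V'| = |V| - 1`.  `Prm G'`: let `M ≠ univ` be homogeneous in `G'` with two elements; its image `A` in `G`, `A₁ = A`, `B₁ = {v ∉ A | v` complete to `A}` is a split of `G` (`w` and an element of `univ \ M` are outside).  `Conn G' univ` (Pr (3)).
`cr G X' ≤ cr G' X + 1` for the image `X'` of `X` (In (2), (4)).  `Uns G' univ 1 h` (`Link` for `2`).  Pc: `C, Φ, φ` with fibres of less than `h` elements, so `|V'| ≤ |C| * h` and `|C| > 3 * β₁ k₂ + 3 + 4 * (β₁ 2 + 2) + 8 + 3`.  `G'' = G'.induce C`: `P G''` (`Her` twice), `SPo G'' univ` (In (3)), and `Link β₁ (c₀ - 1) G''`: let `X : Set C`,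
`cr G'' X ≤ c ≤ c₀ - 1`; `Y = φ ⁻¹' (Subtype.val '' X)` has `cr G' Y ≤ c` (Rt, In (2)), so its image in `G` has rank at most `c + 1`, and `Y` or its complement has at most `β (c + 1)` elements; `|X| ≤ |Y|`, `|Xᶜ| ≤ |Yᶜ|` (`fix`, `into`).
If `NoU G''` then `Lay G'' k₂` (hypothesis) and LB: contradiction to the size of `C`.  Otherwise some `u ∈ C` is adjacent to all other elements of `C`: U3 gives a rooted piece `Q` of `G''` with `|Qᶜ| ≤ 2`; P8 with `B = β₁ 2 + 2`: contradiction to the size of `C`. -/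
def S_HLU : Prop := ∀ P : Cls, Inv P → FS P → Her P →
  (∀ (V : Type) [Finite V] (G : SimpleGraph V), P V G → Fr3 G) →
  (∀ β : ℕ → ℕ, ∃ c₀ k : ℕ, ∀ (V : Type) [Finite V] (G : SimpleGraph V), P V G → Link β c₀ G →
    SPo G Set.univ → NoU G → Lay G k Set.univ) →
  ∃ k : ℕ, ∀ (V : Type) [Finite V] (G : SimpleGraph V), P V G → Lay G k Set.univ

end Pool.Agent.MPd439b2.H3T
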