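import Pool.Agent.Lib.MP_d439b2_co.X3.H3T.Spec

/-!
# MP_d439b2_co, X3, H3T: C (helper34): the model C
-/

set_option autoImplicit false

namespace Pool.Agent.MPd439b2.H3T

open Pool.Agent.MPd439b2 Pool.Agent.MPd439b2.LK Pool.Agent.MPd439b2.H3 Pool.Agent.MPd439b2.Rep

theorem pfC : H3.S_M0 → S_D0 → S_C := by
  intro hM hD V G n x c hn hF hS g u hg hu
  by_contra hu4
  obtain ⟨dx, dc, dxc⟩ := hD V G n x c hn hS
  have u0 : G.Adj u (c (g 0)) := hu 0 (by decide)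
  have u1 : G.Adj u (c (g 1)) := hu 1 (by decide)
  have u2 : G.Adj u (c (g 2)) := hu 2 (by decide)
  have u3 : G.Adj u (c (g 3)) := hu 3 (by decide)
  have hne : ∀ s t : Fin 5, s ≠ t → g s ≠ g t := fun s t h e => h (hg e)
  have ux : ∀ t : Fin 5, u ≠ x (g t) := by
    intro t e
    have h0 : g t = g 0 := (hS.xc _ _).1 (e ▸ u0)
    have h1 : g t = g 1 := (hS.xc _ _).1 (e ▸ u1)
    exact hne 0 1 (by decide) (h0.symm.trans h1)
  have uc : ∀ t : Fin 5, u ≠ c (g t) := fun t e => hS.cc _ _ (e ▸ u0)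
  have nxx : ∀ s t : Fin 5, s ≠ t → x (g s) ≠ x (g t) := fun s t h e => hne s t h (dx _ _ e)
  have ncc : ∀ s t : Fin 5, s ≠ t → c (g s) ≠ c (g t) := fun s t h e => hne s t h (dc _ _ e)
  have nxc : ∀ s t : Fin 5, x (g s) ≠ c (g t) := fun s t => dxc _ _
  have axx : ∀ s t : Fin 5, s ≠ t → G.Adj (x (g s)) (x (g t)) := fun s t h =>
    hS.xx _ _ (hne s t h)
  have axc : ∀ t : Fin 5, G.Adj (x (g t)) (c (g t)) := fun t => (hS.xc _ _).2 rfl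
  have mxc : ∀ s t : Fin 5, s ≠ t → ¬ G.Adj (x (g s)) (c (g t)) := fun s t h e =>
    hne s t h ((hS.xc _ _).1 e)
  have mcx : ∀ s t : Fin 5, s ≠ t → ¬ G.Adj (c (g s)) (x (g t)) := fun s t h e =>
    mxc t s h.symm e.symm
  have mcc : ∀ s t : Fin 5, ¬ G.Adj (c (g s)) (c (g t)) := fun s t => hS.cc _ _
  have d1 : ∀ {v w : V}, v ≠ w → Disjoint ({v} : Set V) {w} := fun h1 =>
    Set.disjoint_singleton.2 h1
  have d2 : ∀ {v a b : V}, v ≠ a → v ≠ b → Disjoint ({v} : Set V) {a, b} := by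
    intro v a b h1 h2
    refine Set.disjoint_singleton_left.2 fun h3 => ?_
    rcases h3 with h3 | h3
    · exact h1 h3
    · exact h2 h3
  have d4 : ∀ {v w a b : V}, v ≠ a → v ≠ b → w ≠ a → w ≠ b →
      Disjoint ({v, w} : Set V) {a, b} := by
    intro v w a b h1 h2 h3 h4
    rw [Set.disjoint_left]
    rintro y (rfl | rfl) (h | h)
    · exact h1 h
    · exact h2 h
    · exact h3 h
    · exact h4 h
  have n1 : ∀ {v w : V}, ¬ G.Adj v w → ¬ Tch G {v} {w} := by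
    rintro v w h1 ⟨_, rfl, _, rfl, h2⟩
    exact h1 h2
  have n2 : ∀ {v a b : V}, ¬ G.Adj v a → ¬ G.Adj v b → ¬ Tch G {v} {a, b} := by
    rintro v a b h1 h2 ⟨_, rfl, p, (rfl | rfl), hp⟩
    · exact h1 hp
    · exact h2 hp
  refine hF (hM V G {c (g 0), u} {x (g 0), x (g 1)} {x (g 2), c (g 2)} {c (g 3)} {c (g 1)}
    {x (g 4)} (Conn.pair u0.symm) (Conn.pair (axx 0 1 (by decide))) (Conn.pair (axc 2))
    (Conn.singleton G _) (Conn.singleton G _) (Conn.singleton G _)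
    (d4 (nxc 0 0).symm (nxc 1 0).symm (ux 0) (ux 1))
    (d4 (nxc 2 0).symm (ncc 0 2 (by decide)) (ux 2) (uc 2))
    (d4 (nxx 0 2 (by decide)) (nxc 0 2) (nxx 1 2 (by decide)) (nxc 1 2))
    (d2 (ncc 3 0 (by decide)) (uc 3).symm) (d2 (nxc 0 3).symm (nxc 1 3).symm)
    (d2 (nxc 2 3).symm (ncc 3 2 (by decide)))
    (d2 (ncc 1 0 (by decide)) (uc 1).symm) (d2 (nxc 0 1).symm (nxc 1 1).symm)
    (d2 (nxc 2 1).symm (ncc 1 2 (by decide)))
    (d2 (nxc 4 0) (ux 4).symm) (d2 (nxx 4 0 (by decide)) (nxx 4 1 (by decide)))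
    (d2 (nxx 4 2 (by decide)) (nxc 4 2))
    (d1 (ncc 3 1 (by decide))) (d1 (nxc 4 3).symm) (d1 (nxc 4 1).symm)
    ⟨c (g 0), Or.inl rfl, x (g 0), Or.inl rfl, (axc 0).symm⟩
    ⟨u, Or.inr rfl, c (g 2), Or.inr rfl, u2⟩
    ⟨x (g 0), Or.inl rfl, x (g 2), Or.inl rfl, axx 0 2 (by decide)⟩
    ⟨c (g 3), rfl, u, Or.inr rfl, u3.symm⟩
    (n2 (mcx 3 0 (by decide)) (mcx 3 1 (by decide)))
    (n2 (mcx 3 2 (by decide)) (mcc 3 2))
    ⟨c (g 1), rfl, u, Or.inr rfl, u1.symm⟩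
    ⟨c (g 1), rfl, x (g 1), Or.inr rfl, (axc 1).symm⟩
    (n2 (mcx 1 2 (by decide)) (mcc 1 2))
    ⟨x (g 4), rfl, x (g 0), Or.inl rfl, axx 4 0 (by decide)⟩
    ⟨x (g 4), rfl, x (g 2), Or.inl rfl, axx 4 2 (by decide)⟩
    (n2 (mxc 4 0 (by decide)) (fun h => hu4 h.symm))
    (n1 (mcc 3 1)) (n1 (mcx 3 4 (by decide))) (n1 (mcx 1 4 (by decide))))

end Pool.Agent.MPd439b2.H3T
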