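import Pool.Agent.Lib.MP_d439b2_co.X3.H3T.Spec

/-!
# MP_d439b2_co, X3, H3T: D0 (helper31): the vertices of a spider are different
-/

set_option autoImplicit false

namespace Pool.Agent.MPd439b2.H3T

open Pool.Agent.MPd439b2 Pool.Agent.MPd439b2.LK Pool.Agent.MPd439b2.H3 Pool.Agent.MPd439b2.Rep

theorem pfD0 : S_D0 := by
  intro V G n x c hn hS
  have h1 : ∀ i j, x i = x j → i = j := by
    intro i j h
    by_contra hij
    have h2 := hS.xx i j hij
    rw [h] at h2
    exact h2.ne rfl
  have h2 : ∀ i j, c i = c j → i = j := by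
    intro i j h
    have h3 := (hS.xc i i).2 rfl
    rw [h] at h3
    exact (hS.xc i j).1 h3
  refine ⟨h1, h2, ?_⟩
  intro i j h
  obtain ⟨k, hki, hkj⟩ : ∃ k : Fin n, k ≠ i ∧ k ≠ j := by
    by_contra hcon
    have h3 : ∀ k : Fin n, k = i ∨ k = j := by
      intro k
      by_contra hk
      exact hcon ⟨k, fun h => hk (Or.inl h), fun h => hk (Or.inr h)⟩
    have h4 : (Finset.univ : Finset (Fin n)) ⊆ {i, j} := by
      intro k _
      rcases h3 k with h | h
      · rw [h]; simp
      · rw [h]; simp
    have h5 := Finset.card_le_card h4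
    have h6 : ({i, j} : Finset (Fin n)).card ≤ 2 := Finset.card_le_two
    rw [Finset.card_univ, Fintype.card_fin] at h5
    omega
  have h3 := hS.xx k i hki
  rw [h] at h3
  exact hkj ((hS.xc k j).1 h3)

end Pool.Agent.MPd439b2.H3T
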