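import Pool.Agent.Lib.MP_d439b2_co.X3.H3T.Spec

/-!
# MP_d439b2_co, X3/H3T: the model E (S_E)
-/

set_option autoImplicit false

namespace Pool.Agent.MPd439b2.H3T

open Pool.Agent.MPd439b2 Pool.Agent.MPd439b2.LK Pool.Agent.MPd439b2.H3 Pool.Agent.MPd439b2.Rep

namespace Eaux

variable {V : Type} {G : SimpleGraph V}

/-- `R` with the leaf `c0` and, if touched, the leaf `c1` -/
def Ex (G : SimpleGraph V) (R : Set V) (c0 c1 : V) : Set V :=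
  {v | v ∈ R ∨ v = c0 ∨ (v = c1 ∧ Tch G R {c1})}

theorem ex_conn {R : Set V} {c0 c1 : V} (hR : Conn G R) (h0 : Tch G R {c0}) :
    Conn G (Ex G R c0 c1) := by
  have h1 : Conn G (insert c0 R) := hR.insert (by
    obtain ⟨a, ha, b, hb, hab⟩ := h0
    rw [Set.mem_singleton_iff.1 hb] at hab
    exact ⟨a, ha, hab⟩)
  by_cases ht : Tch G R {c1}
  · have e : Ex G R c0 c1 = insert c1 (insert c0 R) := by
      ext v
      change (v ∈ R ∨ v = c0 ∨ (v = c1 ∧ Tch G R {c1})) ↔ (v = c1 ∨ v = c0 ∨ v ∈ R)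
      tauto
    rw [e]
    refine h1.insert ?_
    obtain ⟨a, ha, b, hb, hab⟩ := ht
    rw [Set.mem_singleton_iff.1 hb] at hab
    exact ⟨a, Or.inr ha, hab⟩
  · have e : Ex G R c0 c1 = insert c0 R := by
      ext v
      change (v ∈ R ∨ v = c0 ∨ (v = c1 ∧ Tch G R {c1})) ↔ (v = c0 ∨ v ∈ R)
      tauto
    rw [e]
    exact h1

/-- a vertex which does not see `R`, `c0`, `c1` does not see `Ex` -/
theorem ex_no {R : Set V} {c0 c1 w : V} (h : ∀ v ∈ R, ¬ G.Adj v w) (h0 : ¬ G.Adj c0 w)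
    (h1 : ¬ G.Adj c1 w) : ∀ v ∈ Ex G R c0 c1, ¬ G.Adj v w := by
  rintro v (hv | rfl | ⟨rfl, -⟩)
  · exact h v hv
  · exact h0
  · exact h1

theorem ex_mem {R : Set V} {c0 c1 w : V} (h : w ∉ R) (h0 : w ≠ c0) (h1 : w ≠ c1) :
    w ∉ Ex G R c0 c1 := by
  rintro (hv | hv | ⟨hv, -⟩)
  · exact h hv
  · exact h0 hv
  · exact h1 hv

theorem ex_tch {R : Set V} {c0 c1 x1 : V} (hx : G.Adj x1 c1) (ht : Tch G R {x1, c1}) :
    ∃ v ∈ Ex G R c0 c1, G.Adj v x1 := by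
  by_cases h1 : Tch G R {c1}
  · exact ⟨c1, Or.inr (Or.inr ⟨rfl, h1⟩), hx.symm⟩
  · obtain ⟨a, ha, b, hb, hab⟩ := ht
    rcases hb with hb | hb
    · rw [hb] at hab
      exact ⟨a, Or.inl ha, hab⟩
    · exact (h1 ⟨a, ha, b, hb, hab⟩).elim

theorem dj1 {S : Set V} {a : V} (h : a ∉ S) : Disjoint S {a} :=
  Set.disjoint_singleton_right.2 h

theorem dj2 {S : Set V} {a b : V} (h : a ∉ S) (h' : b ∉ S) : Disjoint S {a, b} := by
  rw [Set.disjoint_right]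
  rintro v (rfl | hv)
  · exact h
  · rw [Set.mem_singleton_iff.1 hv]
    exact h'

theorem nt1 {S : Set V} {a : V} (h : ∀ v ∈ S, ¬ G.Adj v a) : ¬ Tch G S {a} := by
  rintro ⟨v, hv, b, hb, hvb⟩
  rw [Set.mem_singleton_iff.1 hb] at hvb
  exact h v hv hvb

theorem nt2 {S : Set V} {a b : V} (h : ∀ v ∈ S, ¬ G.Adj v a) (h' : ∀ v ∈ S, ¬ G.Adj v b) :
    ¬ Tch G S {a, b} := by
  rintro ⟨v, hv, w, hw, hvw⟩
  rcases hw with hw | hw
  · rw [hw] at hvw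
    exact h v hv hvw
  · rw [Set.mem_singleton_iff.1 hw] at hvw
    exact h' v hv hvw

end Eaux

open Eaux

theorem pfE : H3.S_M0 → S_D0 → S_E := by
  intro hM0 hD0 V G n x c hn hfr hsp g R S hg hRc hSc hRd hSd hRS hnRS hR0 hR1 hRn hS2 hS3 hSn
  obtain ⟨hx, hc, hxc⟩ := hD0 V G n x c hn hsp
  have hgn : ∀ {a b : Fin 5}, a ≠ b → g a ≠ g b := fun h e => h (hg e)
  have xx : ∀ {a b : Fin 5}, a ≠ b → G.Adj (x (g a)) (x (g b)) := fun h => hsp.xx _ _ (hgn h)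
  have cc : ∀ a b : Fin 5, ¬ G.Adj (c (g a)) (c (g b)) := fun a b => hsp.cc _ _
  have xne : ∀ {a b : Fin 5}, a ≠ b → x (g a) ≠ x (g b) := fun h e => hgn h (hx _ _ e)
  have cne : ∀ {a b : Fin 5}, a ≠ b → c (g a) ≠ c (g b) := fun h e => hgn h (hc _ _ e)
  have xcn : ∀ a b : Fin 5, x (g a) ≠ c (g b) := fun a b => hxc _ _
  have xc : ∀ a : Fin 5, G.Adj (x (g a)) (c (g a)) := fun a => (hsp.xc _ _).2 rfl
  have cx : ∀ {a b : Fin 5}, a ≠ b → ¬ G.Adj (c (g a)) (x (g b)) := fun h e =>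
    hgn h.symm ((hsp.xc _ _).1 e.symm)
  have Rx : ∀ a : Fin 5, x (g a) ∉ R := fun a h =>
    Set.disjoint_left.1 hRd h (Or.inl ⟨g a, rfl⟩)
  have Rc : ∀ a : Fin 5, c (g a) ∉ R := fun a h =>
    Set.disjoint_left.1 hRd h (Or.inr ⟨g a, rfl⟩)
  have Sx : ∀ a : Fin 5, x (g a) ∉ S := fun a h =>
    Set.disjoint_left.1 hSd h (Or.inl ⟨g a, rfl⟩)
  have Sc : ∀ a : Fin 5, c (g a) ∉ S := fun a h =>
    Set.disjoint_left.1 hSd h (Or.inr ⟨g a, rfl⟩)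
  have Rnx : ∀ a : Fin 5, a ≠ 0 → a ≠ 1 → ∀ v ∈ R, ¬ G.Adj v (x (g a)) := fun a h0 h1 v hv e =>
    hRn (g a) (hgn h0) (hgn h1) ⟨v, hv, _, Or.inl rfl, e⟩
  have Rnc : ∀ a : Fin 5, a ≠ 0 → a ≠ 1 → ∀ v ∈ R, ¬ G.Adj v (c (g a)) := fun a h0 h1 v hv e =>
    hRn (g a) (hgn h0) (hgn h1) ⟨v, hv, _, Or.inr rfl, e⟩
  have Snx : ∀ a : Fin 5, a ≠ 2 → a ≠ 3 → ∀ v ∈ S, ¬ G.Adj v (x (g a)) := fun a h0 h1 v hv e =>
    hSn (g a) (hgn h0) (hgn h1) ⟨v, hv, _, Or.inl rfl, e⟩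
  have Snc : ∀ a : Fin 5, a ≠ 2 → a ≠ 3 → ∀ v ∈ S, ¬ G.Adj v (c (g a)) := fun a h0 h1 v hv e =>
    hSn (g a) (hgn h0) (hgn h1) ⟨v, hv, _, Or.inr rfl, e⟩
  have Yx : ∀ a : Fin 5, x (g a) ∉ Ex G R (c (g 0)) (c (g 1)) := fun a =>
    ex_mem (Rx a) (xcn a 0) (xcn a 1)
  have Zx : ∀ a : Fin 5, x (g a) ∉ Ex G S (c (g 2)) (c (g 3)) := fun a =>
    ex_mem (Sx a) (xcn a 2) (xcn a 3)
  obtain ⟨y, hy, hyx⟩ := ex_tch (G := G) (c0 := c (g 0)) (xc 1) hR1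
  obtain ⟨z, hz, hzx⟩ := ex_tch (G := G) (c0 := c (g 2)) (xc 3) hS3
  apply hfr
  refine hM0 V G {x (g 0), x (g 4)} {x (g 1), x (g 2)} {x (g 3)} {c (g 4)}
    (Ex G R (c (g 0)) (c (g 1))) (Ex G S (c (g 2)) (c (g 3)))
    (Conn.pair (xx (by decide))) (Conn.pair (xx (by decide))) (Conn.singleton _ _)
    (Conn.singleton _ _) (ex_conn hRc hR0) (ex_conn hSc hS2) ?_ ?_ ?_ ?_ ?_ ?_ ?_ ?_ ?_ ?_ ?_ ?_
    ?_ ?_ ?_ ?_ ?_ ?_ ?_ ?_ ?_ ?_ ?_ ?_ ?_ ?_ ?_ ?_ ?_ ?_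
  · -- Disjoint P0 P1
    apply dj2
    · rintro (e | e)
      · exact xne (by decide) e
      · exact xne (by decide) e
    · rintro (e | e)
      · exact xne (by decide) e
      · exact xne (by decide) e
  · apply dj1
    rintro (e | e)
    · exact xne (by decide) e
    · exact xne (by decide) e
  · apply dj1
    rintro (e | e)
    · exact xne (by decide) e
    · exact xne (by decide) e
  · -- Disjoint X P0
    exact dj2 (fun e => xcn 0 4 e) (fun e => xcn 4 4 e)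
  · exact dj2 (fun e => xcn 1 4 e) (fun e => xcn 2 4 e)
  · exact dj1 (fun e => xcn 3 4 e)
  · exact dj2 (Yx 0) (Yx 4)
  · exact dj2 (Yx 1) (Yx 2)
  · exact dj1 (Yx 3)
  · exact dj2 (Zx 0) (Zx 4)
  · exact dj2 (Zx 1) (Zx 2)
  · exact dj1 (Zx 3)
  · -- Disjoint X Y
    exact (dj1 (ex_mem (Rc 4) (cne (by decide)) (cne (by decide)))).symm
  · exact (dj1 (ex_mem (Sc 4) (cne (by decide)) (cne (by decide)))).symm
  · -- Disjoint Y Z
    rw [Set.disjoint_left]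
    rintro v (hv | rfl | ⟨rfl, -⟩)
    · exact ex_mem (fun h => Set.disjoint_left.1 hRS hv h)
        (fun e => Rc 2 (e ▸ hv)) (fun e => Rc 3 (e ▸ hv))
    · exact ex_mem (Sc 0) (cne (by decide)) (cne (by decide))
    · exact ex_mem (Sc 1) (cne (by decide)) (cne (by decide))
  · exact ⟨_, Or.inl rfl, _, Or.inl rfl, xx (by decide)⟩
  · exact ⟨_, Or.inl rfl, _, rfl, xx (by decide)⟩
  · exact ⟨_, Or.inl rfl, _, rfl, xx (by decide)⟩
  · -- Tch X P0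
    exact ⟨_, rfl, x (g 4), Or.inr rfl, (xc 4).symm⟩
  · apply nt2
    · rintro v rfl
      exact cx (by decide)
    · rintro v rfl
      exact cx (by decide)
  · apply nt1
    rintro v rfl
    exact cx (by decide)
  · -- Tch Y P0
    exact ⟨c (g 0), Or.inr (Or.inl rfl), x (g 0), Or.inl rfl, (xc 0).symm⟩
  · exact ⟨y, hy, x (g 1), Or.inl rfl, hyx⟩
  · exact nt1 (ex_no (Rnx 3 (by decide) (by decide)) (cx (by decide)) (cx (by decide)))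
  · -- Tch Z P1
    exact ⟨c (g 2), Or.inr (Or.inl rfl), x (g 2), Or.inr rfl, (xc 2).symm⟩
  · exact ⟨z, hz, x (g 3), rfl, hzx⟩
  · exact nt2 (ex_no (Snx 0 (by decide) (by decide)) (cx (by decide)) (cx (by decide)))
      (ex_no (Snx 4 (by decide) (by decide)) (cx (by decide)) (cx (by decide)))
  · -- ¬ Tch X Y
    intro h
    exact nt1 (ex_no (Rnc 4 (by decide) (by decide)) (cc 0 4) (cc 1 4)) h.symm
  · intro h
    exact nt1 (ex_no (Snc 4 (by decide) (by decide)) (cc 2 4) (cc 3 4)) h.symm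
  · -- ¬ Tch Y Z
    rintro ⟨v, hv, w, hw, hvw⟩
    rcases hw with hw | rfl | ⟨rfl, -⟩
    · rcases hv with hv | rfl | ⟨rfl, -⟩
      · exact hnRS ⟨v, hv, w, hw, hvw⟩
      · exact Snc 0 (by decide) (by decide) w hw hvw.symm
      · exact Snc 1 (by decide) (by decide) w hw hvw.symm
    · exact ex_no (Rnc 2 (by decide) (by decide)) (cc 0 2) (cc 1 2) v hv hvw
    · exact ex_no (Rnc 3 (by decide) (by decide)) (cc 0 3) (cc 1 3) v hv hvw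

end Pool.Agent.MPd439b2.H3T
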