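import Pool.Agent.Lib.MP_d439b2_co.X3.H3T.Spec

/-!
# MP_d439b2_co, X3/H3T/F: the full vertices are complete to everything around the spider
-/

set_option autoImplicit false

namespace Pool.Agent.MPd439b2.H3T

open Pool.Agent.MPd439b2 Pool.Agent.MPd439b2.LK Pool.Agent.MPd439b2.H3 Pool.Agent.MPd439b2.Rep

namespace fAux

variable {V : Type} {G : SimpleGraph V}

/-- a clique is connected -/
theorem conn_clique {A : Set V} (hne : A.Nonempty) (h : ∀ u ∈ A, ∀ v ∈ A, u ≠ v → G.Adj u v) :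
    Conn G A := by
  refine ⟨hne, fun B hB hBne hBA => ?_⟩
  obtain ⟨b, hb⟩ := hBne
  have h1 : ¬ A ⊆ B := fun h1 => hBA (Set.Subset.antisymm hB h1)
  rw [Set.not_subset] at h1
  obtain ⟨a, ha, hab⟩ := h1
  refine ⟨b, hb, a, ⟨ha, hab⟩, h b (hB hb) a ha ?_⟩
  rintro rfl
  exact hab hb

theorem ex_notin {n : ℕ} (S : Set (Fin n)) (h : S.ncard < n) : ∃ j, j ∉ S := by
  by_contra hcon
  push Not at hcon
  have h1 : S = Set.univ := Set.eq_univ_of_forall hcon
  rw [h1, Set.ncard_univ, Nat.card_eq_fintype_card, Fintype.card_fin] at h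
  omega

theorem tch_single {A : Set V} {v : V} : Tch G A {v} ↔ ∃ a ∈ A, G.Adj a v := by
  constructor
  · rintro ⟨a, ha, b, hb, hab⟩
    rw [Set.mem_singleton_iff] at hb
    rw [hb] at hab
    exact ⟨a, ha, hab⟩
  · rintro ⟨a, ha, hab⟩
    exact ⟨a, ha, v, rfl, hab⟩

theorem single_tch {A : Set V} {v : V} : Tch G {v} A ↔ ∃ a ∈ A, G.Adj v a := by
  constructor
  · rintro ⟨b, hb, a, ha, hab⟩
    rw [Set.mem_singleton_iff] at hb
    rw [hb] at hab
    exact ⟨a, ha, hab⟩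
  · rintro ⟨a, ha, hab⟩
    exact ⟨v, rfl, a, ha, hab⟩

theorem ss_tch {u v : V} : Tch G {u} {v} ↔ G.Adj u v := by
  rw [tch_single]
  constructor
  · rintro ⟨a, ha, hab⟩
    rw [Set.mem_singleton_iff] at ha
    rw [ha] at hab
    exact hab
  · intro h
    exact ⟨u, rfl, h⟩

/-- the model where only `P0` is not a single vertex -/
theorem m0s (hM0 : H3.S_M0) (hFr : Fr3 G) (P0 : Set V) (p1 p2 x y z : V) (hP0 : Conn G P0)
    (n1 : p1 ∉ P0) (n2 : p2 ∉ P0) (n3 : x ∉ P0) (n4 : y ∉ P0) (n5 : z ∉ P0) (d1 : x ≠ p1)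
    (d2 : x ≠ p2) (d3 : y ≠ p2) (d4 : x ≠ y) (d5 : x ≠ z) (d6 : y ≠ z)
    (t1 : ∃ a ∈ P0, G.Adj a p1) (t2 : ∃ a ∈ P0, G.Adj a p2) (t3 : G.Adj p1 p2)
    (t4 : ∃ a ∈ P0, G.Adj x a) (t5 : ¬ G.Adj x p1) (t6 : ¬ G.Adj x p2)
    (t7 : ∃ a ∈ P0, G.Adj y a) (t8 : G.Adj y p1) (t9 : ¬ G.Adj y p2) (t10 : G.Adj z p1)
    (t11 : G.Adj z p2) (t12 : ∀ a ∈ P0, ¬ G.Adj z a) (t13 : ¬ G.Adj x y) (t14 : ¬ G.Adj x z)
    (t15 : ¬ G.Adj y z) : False := by
  have dj : ∀ {u : V}, u ∉ P0 → Disjoint ({u} : Set V) P0 := fun h =>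
    Set.disjoint_singleton_left.2 h
  have ds : ∀ {u v : V}, u ≠ v → Disjoint ({u} : Set V) {v} := fun h =>
    Set.disjoint_singleton.2 h
  refine hFr (hM0 V G P0 {p1} {p2} {x} {y} {z} hP0 (Conn.singleton G _) (Conn.singleton G _)
    (Conn.singleton G _) (Conn.singleton G _) (Conn.singleton G _) (dj n1).symm (dj n2).symm
    (ds t3.ne) (dj n3) (ds d1) (ds d2) (dj n4) (ds t8.ne) (ds d3) (dj n5) (ds t10.ne) (ds t11.ne)
    (ds d4) (ds d5) (ds d6) (tch_single.2 t1) (tch_single.2 t2) (ss_tch.2 t3) (single_tch.2 t4)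
    (fun h => t5 (ss_tch.1 h)) (fun h => t6 (ss_tch.1 h)) (single_tch.2 t7) (ss_tch.2 t8)
    (fun h => t9 (ss_tch.1 h)) (ss_tch.2 t10) (ss_tch.2 t11) ?_ (fun h => t13 (ss_tch.1 h))
    (fun h => t14 (ss_tch.1 h)) (fun h => t15 (ss_tch.1 h)))
  intro h
  obtain ⟨a, ha, hab⟩ := single_tch.1 h
  exact t12 a ha hab

end fAux

open fAux in
theorem pfF : H3.S_M0 → S_D0 → S_Vx → S_Zc → S_F := by
  intro hM0 hD0 hVx hZc V _ G n x c hn hFr hS D hD hSD hDF f hf v₀ hv₀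
  obtain ⟨dx, dc, dxc⟩ := hD0 V G n x c (by omega) hS
  by_contra hfv₀
  have hxS : ∀ i, x i ∈ SpV x c := fun i => Or.inl ⟨i, rfl⟩
  have hcS : ∀ i, c i ∈ SpV x c := fun i => Or.inr ⟨i, rfl⟩
  have hfD : f ∉ D := fun h => Set.disjoint_left.1 hDF h hf
  have hfS : f ∉ SpV x c := fun h => hfD (hSD h)
  have hfx : ∀ i, f ≠ x i := fun i h => hfS (h ▸ hxS i)
  have hfc : ∀ i, f ≠ c i := fun i h => hfS (h ▸ hcS i)
  have i0 : Fin n := ⟨0, by omega⟩
  -- the spider is connected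
  have hSc : Conn G (SpV x c) := by
    have h1 : Conn G (Set.range x) := by
      refine conn_clique ⟨x i0, i0, rfl⟩ ?_
      rintro _ ⟨i, rfl⟩ _ ⟨j, rfl⟩ hne
      exact hS.xx i j fun h => hne (by rw [h])
    have h2 : SpV x c = Set.range x ∪ ⋃ i, {c i} := by
      unfold SpV
      rw [Set.iUnion_singleton_eq_range]
    rw [h2]
    refine h1.union_iUnion (fun i => Conn.singleton G _) fun i => Or.inr ?_
    exact ⟨x i, ⟨i, rfl⟩, c i, rfl, (hS.xc i i).2 rfl⟩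
  -- the component
  obtain ⟨D₀, hD₀⟩ : ∃ D₀ : Set V, ∀ u, u ∈ D₀ ↔ u ∈ D ∧ G.Adj f u :=
    ⟨{u | u ∈ D ∧ G.Adj f u}, fun u => Iff.rfl⟩
  have hSD₀ : SpV x c ⊆ D₀ := by
    intro u hu
    rw [hD₀]
    refine ⟨hSD hu, ?_⟩
    rcases hu with ⟨i, rfl⟩ | ⟨i, rfl⟩
    · exact (hf i).1
    · exact (hf i).2
  obtain ⟨E, hED₀, hxE, hEc, hEnb⟩ := exists_comp G (hSD₀ (hxS i0))
  have hSE : SpV x c ⊆ E := by
    have h1 : Conn G (E ∪ SpV x c) := hEc.union hSc (Or.inl ⟨x i0, hxE, hxS i0⟩)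
    have h2 : E = E ∪ SpV x c :=
      h1.eq_of_nb Set.subset_union_left ⟨_, hxE⟩ fun u hu =>
        hEnb u (hu.elim (fun h => hED₀ h) fun h => hSD₀ h)
    intro u hu
    rw [h2]
    exact Or.inr hu
  have hED : E ⊆ D := fun u hu => ((hD₀ u).1 (hED₀ hu)).1
  have hEne : E ≠ D := fun h => hfv₀ ((hD₀ v₀).1 (hED₀ (h ▸ hv₀))).2
  obtain ⟨e, he, v, ⟨hvD, hvE⟩, hev⟩ := hD.2 E hED ⟨_, hxE⟩ hEne
  have hfv : ¬ G.Adj f v := fun h =>
    hEnb v ((hD₀ v).2 ⟨hvD, h⟩) ⟨hvE, e, he, hev⟩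
  have hvF : v ∉ Fl G x c := fun h => Set.disjoint_left.1 hDF hvD h
  have hvS : v ∉ SpV x c := fun h => hvE (hSE h)
  have hvx : ∀ i, v ≠ x i := fun i h => hvS (h ▸ hxS i)
  have hvc : ∀ i, v ≠ c i := fun i h => hvS (h ▸ hcS i)
  have hvf : v ≠ f := fun h => hfD (h ▸ hvD)
  -- the model
  have model : ∀ (P0 : Set V) (j m : Fin n), Conn G P0 → j ≠ m → x m ∈ P0 → f ∉ P0 →
      x j ∉ P0 → v ∉ P0 → c m ∉ P0 → c j ∉ P0 → (∃ p ∈ P0, G.Adj v p) → ¬ G.Adj v (x j) →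
      ¬ G.Adj v (c m) → ¬ G.Adj v (c j) → (∀ p ∈ P0, ¬ G.Adj (c j) p) → False := by
    intro P0 j m hP0 hjm hxm hfP hxj hvP hcm hcj hvp hvxj hvcm hvcj hcjP
    refine m0s hM0 hFr P0 f (x j) v (c m) (c j) hP0 hfP hxj hvP hcm hcj hvf (hvx j) ?_ (hvc m)
      (hvc j) ?_ ⟨x m, hxm, ((hf m).1).symm⟩ ⟨x m, hxm, hS.xx m j hjm.symm⟩ (hf j).1 hvp
      (fun h => hfv h.symm) hvxj ⟨x m, hxm, ((hS.xc m m).2 rfl).symm⟩ ((hf m).2).symm ?_
      ((hf j).2).symm ((hS.xc j j).2 rfl).symm hcjP hvcm hvcj (hS.cc m j)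
    · exact (dxc j m).symm
    · exact fun h => hjm (dc m j h).symm
    · exact fun h => hjm ((hS.xc j m).1 h.symm)
  by_cases hcase : ∀ s ∈ SpV x c, ¬ G.Adj v s
  · -- CASE 1
    have heS : e ∉ SpV x c := fun h => hcase e h hev.symm
    obtain ⟨T, hTE, heT, hTc, hTnb⟩ := exists_comp G (show e ∈ E \ SpV x c from ⟨he, heS⟩)
    have hTne : T ≠ E := fun h => (hTE (h ▸ hxE : x i0 ∈ T)).2 (hxS i0)
    obtain ⟨t, ht, s, ⟨hsE, hsT⟩, hts⟩ := hEc.2 T (fun u hu => (hTE hu).1) ⟨_, heT⟩ hTne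
    have hsS : s ∈ SpV x c := by
      by_contra hsS
      exact hTnb s ⟨hsE, hsS⟩ ⟨hsT, t, ht, hts⟩
    obtain ⟨i, hi⟩ : ∃ i, s = x i ∨ s = c i := by
      rcases hsS with ⟨i, rfl⟩ | ⟨i, rfl⟩
      · exact ⟨i, Or.inl rfl⟩
      · exact ⟨i, Or.inr rfl⟩
    have hTD : T ⊆ D := fun u hu => hED (hTE hu).1
    have hTS : Disjoint T (SpV x c) := Set.disjoint_left.2 fun u hu => (hTE hu).2
    have hTF : Disjoint T (Fl G x c) :=
      Set.disjoint_left.2 fun u hu h => Set.disjoint_left.1 hDF (hTD hu) h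
    have hT2 := hZc V G n x c (by omega) hFr hS T hTc hTS hTF
    obtain ⟨j, hj⟩ := ex_notin (insert i {i | Tch G T {c i}})
      (lt_of_le_of_lt (Set.ncard_insert_le _ _) (by omega))
    rw [Set.mem_insert_iff, not_or] at hj
    obtain ⟨hji, hjT⟩ := hj
    obtain ⟨m, hm⟩ := ex_notin ({i, j} : Set (Fin n))
      (lt_of_le_of_lt (Set.ncard_insert_le _ _) (by rw [Set.ncard_singleton]; omega))
    rw [Set.mem_insert_iff, Set.mem_singleton_iff, not_or] at hm
    obtain ⟨hmi, hmj⟩ := hm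
    have hK : Conn G ({c i, x i} : Set V) := Conn.pair ((hS.xc i i).2 rfl).symm
    have hP : Conn G (insert (x m) (T ∪ {c i, x i})) := by
      refine Conn.insert (hTc.union hK (Or.inr ⟨t, ht, s, ?_, hts⟩))
        ⟨x i, Or.inr (Or.inr rfl), hS.xx i m fun h => hmi h.symm⟩
      rcases hi with hi | hi
      · exact Or.inr hi
      · exact Or.inl hi
    have hmem : ∀ u, u ∈ insert (x m) (T ∪ {c i, x i}) ↔ u = x m ∨ u ∈ T ∨ u = c i ∨ u = x i :=
      fun u => Iff.rfl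
    refine model _ j m hP (fun h => hmj h.symm) (Or.inl rfl) ?_ ?_ ?_ ?_ ?_ ?_ (hcase _ (hxS j))
      (hcase _ (hcS m)) (hcase _ (hcS j)) ?_
    · rw [hmem]
      rintro (h | h | h | h)
      · exact hfx m h
      · exact hfD (hTD h)
      · exact hfc i h
      · exact hfx i h
    · rw [hmem]
      rintro (h | h | h | h)
      · exact hmj (dx j m h).symm
      · exact (hTE h).2 (hxS j)
      · exact dxc j i h
      · exact hji (dx j i h)
    · rw [hmem]
      rintro (h | h | h | h)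
      · exact hvx m h
      · exact hvE (hTE h).1
      · exact hvc i h
      · exact hvx i h
    · rw [hmem]
      rintro (h | h | h | h)
      · exact dxc m m h.symm
      · exact (hTE h).2 (hcS m)
      · exact hmi (dc m i h)
      · exact dxc i m h.symm
    · rw [hmem]
      rintro (h | h | h | h)
      · exact dxc m j h.symm
      · exact (hTE h).2 (hcS j)
      · exact hji (dc j i h)
      · exact dxc i j h.symm
    · exact ⟨e, Or.inr (Or.inl heT), hev.symm⟩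
    · intro p hp
      rw [hmem] at hp
      rcases hp with rfl | h | rfl | rfl
      · exact fun h => hmj ((hS.xc m j).1 h.symm)
      · exact fun h' => hjT (tch_single.2 ⟨p, h, h'.symm⟩)
      · exact hS.cc j i
      · exact fun h => hji ((hS.xc i j).1 h.symm).symm
  · -- CASE 2
    push Not at hcase
    obtain ⟨s, hsS, hvs⟩ := hcase
    obtain ⟨i, hi⟩ : ∃ i, s = x i ∨ s = c i := by
      rcases hsS with ⟨i, rfl⟩ | ⟨i, rfl⟩
      · exact ⟨i, Or.inl rfl⟩
      · exact ⟨i, Or.inr rfl⟩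
    have hJ : {i | G.Adj v (c i)}.ncard ≤ 2 := by
      by_contra h
      exact hvF (hVx V G n x c (by omega) hFr hS v (by omega))
    by_cases h2a : ∃ a b, a ≠ b ∧ ¬ G.Adj v (c a) ∧ ¬ G.Adj v (c b) ∧ G.Adj v (x a) ∧
        G.Adj v (x b)
    · obtain ⟨a, b, hab, ha, hb, hva, hvb⟩ := h2a
      obtain ⟨d, hd⟩ := ex_notin (insert a (insert b {i | G.Adj v (c i)}))
        (lt_of_le_of_lt (Set.ncard_insert_le _ _)
          (lt_of_le_of_lt (Nat.add_le_add_right (Set.ncard_insert_le _ _) 1) (by omega)))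
      rw [Set.mem_insert_iff, Set.mem_insert_iff, not_or, not_or] at hd
      obtain ⟨hda, hdb, hdv⟩ := hd
      have hdv' : ¬ G.Adj v (c d) := hdv
      refine m0s hM0 hFr {f} (x a) (x b) (c d) (c a) v (Conn.singleton G f)
        (fun h => hfx a (Set.mem_singleton_iff.1 h).symm)
        (fun h => hfx b (Set.mem_singleton_iff.1 h).symm)
        (fun h => hfc d (Set.mem_singleton_iff.1 h).symm)
        (fun h => hfc a (Set.mem_singleton_iff.1 h).symm)
        (fun h => hvf (Set.mem_singleton_iff.1 h)) (dxc a d).symm (dxc b d).symm (dxc b a).symm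
        (fun h => hda (dc d a h)) (hvc d).symm (hvc a).symm ⟨f, rfl, (hf a).1⟩ ⟨f, rfl, (hf b).1⟩
        (hS.xx a b hab) ⟨f, rfl, ((hf d).2).symm⟩ (fun h => hda ((hS.xc a d).1 h.symm).symm)
        (fun h => hdb ((hS.xc b d).1 h.symm).symm) ⟨f, rfl, ((hf a).2).symm⟩
        ((hS.xc a a).2 rfl).symm (fun h => hab ((hS.xc b a).1 h.symm).symm) hva hvb ?_
        (hS.cc d a) (fun h => hdv' h.symm) (fun h => ha h.symm)
      intro u hu
      rw [Set.mem_singleton_iff.1 hu]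
      exact fun h => hfv h.symm
    · push Not at h2a
      obtain ⟨j1, hj1⟩ := ex_notin (insert i {i | G.Adj v (c i)})
        (lt_of_le_of_lt (Set.ncard_insert_le _ _) (by omega))
      rw [Set.mem_insert_iff, not_or] at hj1
      obtain ⟨hj1i, hj1v⟩ := hj1
      have hj1v' : ¬ G.Adj v (c j1) := hj1v
      obtain ⟨j2, hj2⟩ := ex_notin (insert j1 (insert i {i | G.Adj v (c i)}))
        (lt_of_le_of_lt (Set.ncard_insert_le _ _)
          (lt_of_le_of_lt (Nat.add_le_add_right (Set.ncard_insert_le _ _) 1) (by omega)))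
      rw [Set.mem_insert_iff, Set.mem_insert_iff, not_or, not_or] at hj2
      obtain ⟨hj21, hj2i, hj2v⟩ := hj2
      have hj2v' : ¬ G.Adj v (c j2) := hj2v
      obtain ⟨j, m, hjm, hji, hmi, hjv, hmv, hxj⟩ : ∃ j m, j ≠ m ∧ j ≠ i ∧ m ≠ i ∧
          ¬ G.Adj v (c j) ∧ ¬ G.Adj v (c m) ∧ ¬ G.Adj v (x j) := by
        by_cases h : G.Adj v (x j1)
        · exact ⟨j2, j1, hj21, hj2i, hj1i, hj2v', hj1v',
            h2a j1 j2 (fun h => hj21 h.symm) hj1v' hj2v' h⟩
        · exact ⟨j1, j2, fun h => hj21 h.symm, hj1i, hj2i, hj1v', hj2v', h⟩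
      have hP : Conn G (insert (x m) {c i, x i}) :=
        Conn.insert (Conn.pair ((hS.xc i i).2 rfl).symm)
          ⟨x i, Or.inr rfl, hS.xx i m fun h => hmi h.symm⟩
      have hmem : ∀ u, u ∈ (insert (x m) {c i, x i} : Set V) ↔ u = x m ∨ u = c i ∨ u = x i :=
        fun u => Iff.rfl
      refine model _ j m hP hjm (Or.inl rfl) ?_ ?_ ?_ ?_ ?_ ?_ hxj hmv hjv ?_
      · rw [hmem]
        rintro (h | h | h)
        · exact hfx m h
        · exact hfc i h
        · exact hfx i h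
      · rw [hmem]
        rintro (h | h | h)
        · exact hjm (dx j m h)
        · exact dxc j i h
        · exact hji (dx j i h)
      · rw [hmem]
        rintro (h | h | h)
        · exact hvx m h
        · exact hvc i h
        · exact hvx i h
      · rw [hmem]
        rintro (h | h | h)
        · exact dxc m m h.symm
        · exact hmi (dc m i h)
        · exact dxc i m h.symm
      · rw [hmem]
        rintro (h | h | h)
        · exact dxc m j h.symm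
        · exact hji (dc j i h)
        · exact dxc i j h.symm
      · refine ⟨s, ?_, hvs⟩
        rcases hi with hi | hi
        · exact Or.inr (Or.inr hi)
        · exact Or.inr (Or.inl hi)
      · intro p hp
        rw [hmem] at hp
        rcases hp with rfl | rfl | rfl
        · exact fun h => hjm ((hS.xc m j).1 h.symm).symm
        · exact hS.cc j i
        · exact fun h => hji ((hS.xc i j).1 h.symm).symm

end Pool.Agent.MPd439b2.H3T
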