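import Pool.Agent.Lib.MP_d439b2_co.X3.H3T.Spec

/-!
# MP_d439b2_co, X3/H3T: without homogeneous sets there is no vertex complete to the spider (helper37)
-/

set_option autoImplicit false

namespace Pool.Agent.MPd439b2.H3T

open Pool.Agent.MPd439b2 Pool.Agent.MPd439b2.LK Pool.Agent.MPd439b2.H3 Pool.Agent.MPd439b2.Rep

theorem pfF0 : S_F → S_F0 := by
  intro hF V _ G n x c hn h3 hS hP
  have i0 : Fin n := ⟨0, by omega⟩
  obtain ⟨i1, hi1⟩ : ∃ i1 : Fin n, i1 ≠ i0 := by
    by_cases h : (⟨0, by omega⟩ : Fin n) = i0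
    · refine ⟨⟨1, by omega⟩, fun h' => ?_⟩
      have := h.trans h'.symm
      simp at this
    · exact ⟨_, h⟩
  have hxF : ∀ i, x i ∈ (Fl G x c)ᶜ := fun i h => G.loopless.irrefl _ (h i).1
  have hcF : ∀ i, c i ∈ (Fl G x c)ᶜ := fun i h => G.loopless.irrefl _ (h i).2
  obtain ⟨D, hDF, hxD, hconn, hcl⟩ := exists_comp G (hxF i0)
  have hcl' : ∀ u ∈ (Fl G x c)ᶜ, ∀ d ∈ D, G.Adj d u → u ∈ D := by
    intro u hu d hd had
    by_contra hn'
    exact hcl u hu ⟨hn', d, hd, had⟩
  have hx : ∀ i, x i ∈ D := by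
    intro i
    by_cases h : i = i0
    · rw [h]; exact hxD
    · exact hcl' _ (hxF i) _ hxD (hS.xx i0 i (Ne.symm h))
  have hc : ∀ i, c i ∈ D := fun i => hcl' _ (hcF i) _ (hx i) ((hS.xc i i).2 rfl)
  have hsp : SpV x c ⊆ D := by
    rintro v (⟨i, rfl⟩ | ⟨i, rfl⟩)
    · exact hx i
    · exact hc i
  have hdis : Disjoint D (Fl G x c) := Set.disjoint_left.2 fun v hv hf => hDF hv hf
  have hmg : Hmg G Set.univ D := by
    intro v _ hv
    by_cases hf : v ∈ Fl G x c
    · exact Or.inl fun m hm => hF V G n x c hn h3 hS D hconn hsp hdis v hf m hm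
    · exact Or.inr fun m hm had => hv (hcl' v hf m hm had.symm)
  have huniv : D = Set.univ := by
    by_contra hne
    have hss := hP D hne hmg
    exact G.loopless.irrefl _ (by
      have h := hS.xx i1 i0 hi1
      rwa [hss (hx i1) (hx i0)] at h)
  rw [Set.eq_empty_iff_forall_notMem]
  intro f hf
  have : f ∈ D := by rw [huniv]; trivial
  exact hDF this hf

end Pool.Agent.MPd439b2.H3T
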