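import Pool.Agent.Lib.MP_d439b2_co.X3.H3T.Spec

/-!
# MP_d439b2_co, group (X), `H3`: the classes `Fr` are hereditary
-/

set_option autoImplicit false

namespace Pool.Agent.MPd439b2.H3T

open Pool.Agent.MPd439b2 Pool.Agent.MPd439b2.LK Pool.Agent.MPd439b2.H3 Pool.Agent.MPd439b2.Rep

namespace HFAux

theorem in_conn {V : Type} (G : SimpleGraph V) (C : Set V) (A : Set C)
    (h : Conn (G.induce C) A) : Conn G (Subtype.val '' A) := by
  refine ⟨h.1.image _, ?_⟩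
  intro B hB hne hneq
  have hBC : ∀ b ∈ B, ∃ c : C, c ∈ A ∧ c.1 = b := fun b hb => hB hb
  obtain ⟨b, hb, a, ha, hab⟩ := h.2 (Subtype.val ⁻¹' B) (by
      intro c hc
      obtain ⟨c', hc', e⟩ := hBC c.1 hc
      have : c' = c := Subtype.ext e
      exact this ▸ hc') (by
      obtain ⟨b, hb⟩ := hne
      obtain ⟨c, _, e⟩ := hBC b hb
      exact ⟨c, by rw [Set.mem_preimage, e]; exact hb⟩) (by
      intro h1
      apply hneq
      apply Set.Subset.antisymm hB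
      rintro _ ⟨c, hc, rfl⟩
      rw [← h1] at hc
      exact hc)
  exact ⟨b.1, hb, a.1, ⟨⟨a, ha.1, rfl⟩, fun h1 => ha.2 h1⟩, hab⟩

theorem in_ims {V W : Type} (H : SimpleGraph W) (G : SimpleGraph V) (C : Set V)
    (h : IMS H (G.induce C) Set.univ) : IMS H G Set.univ := by
  obtain ⟨B, _, h2, h3, h4⟩ := h
  refine ⟨fun w => Subtype.val '' (B w), fun w => Set.subset_univ _, fun w => in_conn G C _ (h2 w),
    ?_, ?_⟩
  · intro w w' hw
    exact (Set.disjoint_image_iff Subtype.val_injective).2 (h3 w w' hw)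
  · intro w w' hw
    rw [h4 w w' hw]
    constructor
    · rintro ⟨a, ha, b, hb, hab⟩
      exact ⟨a.1, ⟨a, ha, rfl⟩, b.1, ⟨b, hb, rfl⟩, hab⟩
    · rintro ⟨_, ⟨a, ha, rfl⟩, _, ⟨b, hb, rfl⟩, hab⟩
      exact ⟨a, ha, b, hb, hab⟩

end HFAux

open HFAux in
theorem pfHF : S_HF := by
  intro I₁ I₂ H₁ H₂ V _ G C hP
  exact ⟨fun h => hP.1 (in_ims H₁ G C h), fun h => hP.2 (in_ims H₂ G C h)⟩

end Pool.Agent.MPd439b2.H3T
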