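import Pool.Agent.Lib.MP_d439b2_co.X3.H3T.Spec

/-!
# MP_d439b2_co, X3/H3T: the black box without splits (helper37)
-/

set_option autoImplicit false

namespace Pool.Agent.MPd439b2.H3T

open Pool.Agent.MPd439b2 Pool.Agent.MPd439b2.LK Pool.Agent.MPd439b2.H3 Pool.Agent.MPd439b2.Rep

theorem pfHLS : Rep.S_RepG → Rep.S_TanE → Rep.S_TanL → S_Mn → S_HLS := by
  intro repG tanE tanL mn P hInv hFS hHer h
  choose β hβ using repG P hInv hFS
  obtain ⟨c₀, k, hk⟩ := h β
  obtain ⟨φ, h1, h2, h3⟩ : ∃ φ : ℕ, c₀ ≤ φ ∧ k ≤ φ ∧ 1 ≤ φ :=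
    ⟨c₀ + k + 1, by omega, by omega, by omega⟩
  have hno : ∀ n : ℕ, ∀ (V : Type) [Finite V] (G : SimpleGraph V) (T : Set (Set V)),
      Nat.card V = n → P V G → ¬ Tan G φ T := by
    intro n
    induction n using Nat.strong_induction_on with
    | _ n ih =>
      intro V _ G T hV hP hT
      have hmin : ∀ (V' : Type) [Finite V'] (G' : SimpleGraph V') (T' : Set (Set V')), P V' G' →
          Tan G' φ T' → Nat.card V ≤ Nat.card V' := by
        intro V' _ G' T' hP' hT'
        by_contra hlt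
        push Not at hlt
        exact ih (Nat.card V') (hV ▸ hlt) V' G' T' rfl hP' hT'
      have hlink : Link β c₀ G := by
        intro c hc X hX
        exact hβ c φ (hc.trans h1) h3 V G T hP hT hmin X hX
      have hspo : SPo G Set.univ := mn P hHer φ h3 V G T hP hT hmin
      exact tanL V G φ k T h2 (hk V G hP hlink hspo) hT
  refine ⟨2 ^ (6 * φ + 1), fun V _ G hP => ?_⟩
  by_contra hlay
  obtain ⟨T, hT⟩ := tanE V G φ (6 * φ + 1) h3 le_rfl hlay
  exact hno _ V G T rfl hP hT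

end Pool.Agent.MPd439b2.H3T
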