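import Pool.Agent.Lib.MP_d439b2_co.X3.H3T.Spec

/-!
# MP_d439b2_co, X3/H3T: the black box for subclasses of the H3-free graphs (S_HLU)
-/

set_option autoImplicit false

namespace Pool.Agent.MPd439b2.H3T

open Pool.Agent.MPd439b2 Pool.Agent.MPd439b2.LK Pool.Agent.MPd439b2.H3 Pool.Agent.MPd439b2.Rep

namespace HLUaux

theorem card_fib {α : Type} [Finite α] (C : Set α) (φ : α → α) (h : ℕ) (hin : ∀ v, φ v ∈ C)
    (hf : ∀ c ∈ C, (Set.univ ∩ φ ⁻¹' {c}).ncard < h) : Nat.card α ≤ h * C.ncard := by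
  classical
  haveI := Fintype.ofFinite α
  have h1 := Finset.card_le_mul_card_image_of_maps_to (s := (Finset.univ : Finset α))
    (t := C.toFinset) (f := φ) (fun a _ => Set.mem_toFinset.2 (hin a)) h (by
      intro b hb
      have := hf b (Set.mem_toFinset.1 hb)
      rw [Set.univ_inter] at this
      have e : (Finset.univ.filter fun a => φ a = b) = (φ ⁻¹' {b}).toFinset := by
        ext a; simp
      rw [e, ← Set.ncard_eq_toFinset_card']
      exact this.le)
  rw [Set.ncard_eq_toFinset_card', Nat.card_eq_fintype_card]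
  simpa using h1

/-- the image of a complement -/
theorem compl_le {V : Type} [Finite V] {C : Set V} (X : Set C) :
    Xᶜ.ncard ≤ (Subtype.val '' X)ᶜ.ncard := by
  rw [← Set.ncard_image_of_injective Xᶜ Subtype.val_injective]
  apply Set.ncard_le_ncard _ (Set.toFinite _)
  rintro v ⟨x, hx, rfl⟩ ⟨y, hy, he⟩
  exact hx (Subtype.val_injective he ▸ hy)

theorem im_eq {V : Type} [Finite V] {C : Set V} (X : Set C) :
    (Subtype.val '' X).ncard = X.ncard := Set.ncard_image_of_injective X Subtype.val_injective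

/-- removing one vertex changes the rank of a cut by at most one -/
theorem cr_rem (hIn : H3.S_In) {V : Type} [Finite V] (G : SimpleGraph V) (w : V)
    (X : Set ({w}ᶜ : Set V)) :
    cr G (Subtype.val '' X) ≤ cr (G.induce ({w}ᶜ : Set V)) X + 1 := by
  have h4 := (hIn V G {w}ᶜ).2.2.2 (Subtype.val '' X) w
  have h2 := (hIn V G {w}ᶜ).2.1 X
  have e : (Subtype.val '' X)ᶜ \ {w} = ({w}ᶜ : Set V) \ (Subtype.val '' X) := by
    ext v
    simp only [Set.mem_diff, Set.mem_compl_iff, Set.mem_singleton_iff]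
    tauto
  rw [e] at h4
  rw [h2]; exact h4

/-- removing a universal vertex from a graph without splits -/
theorem prm_rem {V : Type} [Finite V] (G : SimpleGraph V) (w : V)
    (hw : ∀ v, v ≠ w → G.Adj w v) (hs : SPo G Set.univ) : Prm (G.induce ({w}ᶜ : Set V)) := by
  intro M hM hH
  by_contra hns
  rw [Set.not_subsingleton_iff] at hns
  obtain ⟨x, hx⟩ : ∃ x, x ∉ M := by
    by_contra hcon
    push Not at hcon
    exact hM (Set.eq_univ_of_forall hcon)
  have h2 : 2 ≤ (Subtype.val '' M).ncard := by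
    rw [im_eq]
    obtain ⟨a, ha, b, hb, hab⟩ := hns
    have : ({a, b} : Set _) ⊆ M := Set.insert_subset ha (Set.singleton_subset_iff.2 hb)
    have h3 := Set.ncard_le_ncard this (Set.toFinite _)
    rw [Set.ncard_pair hab] at h3
    exact h3
  have hwA : w ∉ Subtype.val '' M := by
    rintro ⟨y, -, hy⟩
    exact y.2 hy
  have hxA : x.1 ∉ Subtype.val '' M := by
    rintro ⟨y, hy, he⟩
    exact hx (Subtype.val_injective he ▸ hy)
  have hxw : x.1 ≠ w := x.2
  have h3 : 2 ≤ (Set.univ \ (Subtype.val '' M)).ncard := by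
    have : ({x.1, w} : Set V) ⊆ Set.univ \ (Subtype.val '' M) :=
      Set.insert_subset ⟨trivial, hxA⟩ (Set.singleton_subset_iff.2 ⟨trivial, hwA⟩)
    have h4 := Set.ncard_le_ncard this (Set.toFinite _)
    rw [Set.ncard_pair hxw] at h4
    exact h4
  refine hs (Subtype.val '' M) (Set.subset_univ _) h2 h3
    ⟨Subtype.val '' M, subset_rfl, {v | v ∉ Subtype.val '' M ∧ ∀ a ∈ Subtype.val '' M, G.Adj v a},
      fun v hv => ⟨trivial, hv.1⟩, ?_⟩
  intro a ha b hb
  refine ⟨fun hab => ⟨ha, hb.2, ?_⟩, fun h => (h.2.2 a ha).symm⟩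
  by_cases hbw : b = w
  · subst hbw
    rintro c ⟨y, -, rfl⟩
    exact hw _ y.2
  · have hbM : (⟨b, hbw⟩ : ({w}ᶜ : Set V)) ∉ M := fun hm => hb.2 ⟨_, hm, rfl⟩
    rcases hH ⟨b, hbw⟩ trivial hbM with e | e
    · rintro c ⟨y, hy, rfl⟩
      exact e y hy
    · obtain ⟨y, hy, rfl⟩ := ha
      exact (e y hy hab.symm).elim

end HLUaux

open HLUaux

theorem pfHLU : LK.S_A1 → H3.S_Pr → H3.S_Rt → H3.S_Pc → H3.S_In → S_HLS → S_P8 → S_U3 → S_LB →
    S_LN → S_HLU := by
  intro _ hPr hRt hPc hIn hHLS hP8 hU3 hLB hLN P hInv hFS hHer hF3 hmain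
  refine hHLS P hInv hFS hHer fun β => ?_
  obtain ⟨c₁, k₁, h₁⟩ := hmain β
  obtain ⟨c₂, k₂, h₂⟩ := hmain fun c => β (c + 1)
  set M : ℕ := 3 * β (k₂ + 1) + 3 + 4 * (β 3 + 2) + 8 + 4 with hMdef
  set h : ℕ := β 2 + 2 with hhdef
  set N : ℕ := 1 + h * M with hNdef
  refine ⟨c₁ + c₂ + k₂ + 3, k₁ + N, ?_⟩
  intro V _ G hP hlink hspo
  by_cases hNU : NoU G
  · exact Lay.mono (by omega) (h₁ V G hP (fun c hc X hX => hlink c (by omega) X hX) hspo hNU)
  by_cases hcard : Nat.card V ≤ N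
  · exact Lay.mono (by omega) (hLN V G N hcard)
  exfalso
  unfold NoU at hNU
  push Not at hNU hcard
  obtain ⟨w, hw⟩ := hNU
  have hcV' : Nat.card ({w}ᶜ : Set V) + 1 = Nat.card V := by
    have := Set.ncard_add_ncard_compl ({w} : Set V)
    rw [Set.ncard_singleton] at this
    rw [Nat.card_coe_set_eq]
    omega
  have hP' : P ({w}ᶜ : Set V) (G.induce ({w}ᶜ : Set V)) := hHer V G {w}ᶜ hP
  have hPrm : Prm (G.induce ({w}ᶜ : Set V)) := prm_rem G w hw hspo
  have hhM : M ≤ h * M := Nat.le_mul_of_pos_left M (by omega)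
  have hConn : Conn (G.induce ({w}ᶜ : Set V)) Set.univ :=
    (hPr ({w}ᶜ : Set V) (G.induce ({w}ᶜ : Set V))).2.2 hPrm (by omega)
  have hUns : Uns (G.induce ({w}ᶜ : Set V)) Set.univ 1 h := by
    intro X hX
    have hc := cr_rem hIn G w X
    rw [Set.univ_inter, ← Set.compl_eq_univ_diff]
    rcases hlink 2 (by omega) (Subtype.val '' X) (by omega) with e | e
    · left; rw [im_eq] at e; omega
    · right; have := compl_le X; omega
  obtain ⟨C, Φ, φ, hRet, hfib, hSC⟩ := hPc ({w}ᶜ : Set V) (G.induce ({w}ᶜ : Set V)) Set.univ h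
    (by omega) hUns
  have hCM : M < C.ncard := by
    have := card_fib C φ h hRet.into hfib
    by_contra hle
    push Not at hle
    have h3 : h * C.ncard ≤ h * M := Nat.mul_le_mul_left h hle
    omega
  have hPC : P C ((G.induce ({w}ᶜ : Set V)).induce C) :=
    hHer ({w}ᶜ : Set V) (G.induce ({w}ᶜ : Set V)) C hP'
  have hSPC : SPo ((G.induce ({w}ᶜ : Set V)).induce C) Set.univ :=
    (hIn ({w}ᶜ : Set V) (G.induce ({w}ᶜ : Set V)) C).2.2.1 hSC
  have hLk : Link (fun c => β (c + 1)) (c₁ + c₂ + k₂ + 2)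
      ((G.induce ({w}ᶜ : Set V)).induce C) := by
    intro c hc X hX
    change X.ncard ≤ β (c + 1) ∨ Xᶜ.ncard ≤ β (c + 1)
    have hr := hRt ({w}ᶜ : Set V) (G.induce ({w}ᶜ : Set V)) C Φ (Subtype.val '' X) φ hRet (by
      rintro v ⟨x, -, rfl⟩; exact x.2)
    rw [← (hIn ({w}ᶜ : Set V) (G.induce ({w}ᶜ : Set V)) C).2.1 X] at hr
    have hc1 := cr_rem hIn G w (φ ⁻¹' (Subtype.val '' X))
    have h1 : X.ncard ≤ (φ ⁻¹' (Subtype.val '' X)).ncard := by
      rw [← im_eq X]
      refine Set.ncard_le_ncard ?_ (Set.toFinite _)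
      rintro v ⟨x, hx, rfl⟩
      exact ⟨x, hx, (hRet.fix x.1 x.2).symm⟩
    have h3 : Xᶜ.ncard ≤ (φ ⁻¹' (Subtype.val '' X))ᶜ.ncard := by
      rw [← im_eq Xᶜ]
      refine Set.ncard_le_ncard ?_ (Set.toFinite _)
      rintro v ⟨x, hx, rfl⟩ ⟨y, hy, he⟩
      rw [hRet.fix x.1 x.2] at he
      exact hx (Subtype.val_injective he ▸ hy)
    have h4 := compl_le (φ ⁻¹' (Subtype.val '' X))
    rcases hlink (c + 1) (by omega) (Subtype.val '' (φ ⁻¹' (Subtype.val '' X))) (by omega)
      with e | e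
    · left; rw [im_eq] at e; omega
    · right; omega
  have hcC : Nat.card C = C.ncard := Nat.card_coe_set_eq C
  by_cases hNU2 : NoU ((G.induce ({w}ᶜ : Set V)).induce C)
  · have hlay := h₂ C _ hPC (fun c hc X hX => hLk c (by omega) X hX) hSPC hNU2
    have := hLB C _ (fun c => β (c + 1)) (c₁ + c₂ + k₂ + 2) k₂ (by omega) hLk hlay
    omega
  · unfold NoU at hNU2
    push Not at hNU2
    obtain ⟨u, hu⟩ := hNU2
    obtain ⟨c, hcu, hRP⟩ := hU3 ({w}ᶜ : Set V) (G.induce ({w}ᶜ : Set V)) C Φ φ u.1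
      (hF3 _ _ hP') hPrm hConn hRet hSC u.2
      (fun c hc hne => hu ⟨c, hc⟩ (fun e => hne (congrArg Subtype.val e))) (by omega)
    have := hP8 C _ (β 3 + 2) (fun X hX => by
        rcases hLk 2 (by omega) X hX with e | e
        · left
          have e1 : (fun c => β (c + 1)) 2 = β 3 := rfl
          rw [e1] at e; omega
        · right
          have e1 : (fun c => β (c + 1)) 2 = β 3 := rfl
          rw [e1] at e; omega) {c} {v | v ≠ c ∧ v.1 ≠ u.1} hRP (by
        have hs : ({v | v ≠ c ∧ v.1 ≠ u.1} : Set C)ᶜ ⊆ {c, u} := by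
          intro v hv
          simp only [Set.mem_compl_iff, Set.mem_ofPred_eq, not_and_or, not_not] at hv
          rcases hv with e | e
          · exact Or.inl e
          · exact Or.inr (Subtype.val_injective e)
        have h1 := Set.ncard_le_ncard hs (Set.toFinite _)
        have h3 := Set.ncard_insert_le c {u}
        rw [Set.ncard_singleton] at h3
        omega)
    omega

end Pool.Agent.MPd439b2.H3T
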