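import Pool.Agent.Lib.MP_d439b2_co.X3.H3T.Spec

/-!
# MP_d439b2_co, X3/H3T/LN: layouts of small graphs
-/

set_option autoImplicit false

namespace Pool.Agent.MPd439b2.H3T

open Pool.Agent.MPd439b2 Pool.Agent.MPd439b2.LK Pool.Agent.MPd439b2.H3 Pool.Agent.MPd439b2.Rep

theorem pfLN : S_LN := by
  intro V _ G N hN
  have key : ∀ A : Set V, A.Finite → Lay G N A := by
    intro A hA
    induction A, hA using Set.Finite.induction_on with
    | empty => exact Lay.empty
    | @insert v A hv hA ih =>
      have : Nonempty V := ⟨v⟩
      have h1 : 1 ≤ N := le_trans Nat.card_pos hN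
      refine Lay.insert h1 ih hv ?_
      have h2 : Types G (insert v A) ⊆ (fun a => G.neighborSet a \ (insert v A)) '' (insert v A) := by
        rintro T ⟨-, a, ha, rfl⟩
        exact ⟨a, ha, rfl⟩
      calc (Types G (insert v A)).encard
          ≤ ((fun a => G.neighborSet a \ (insert v A)) '' (insert v A)).encard :=
            Set.encard_le_encard h2
        _ ≤ (insert v A).encard := Set.encard_image_le _ _
        _ = ((insert v A).ncard : ℕ∞) := (Set.Finite.cast_ncard_eq (Set.toFinite _)).symm
        _ ≤ (N : ℕ∞) := by
            have h3 := Set.ncard_le_ncard (Set.subset_univ (insert v A)) (Set.toFinite _)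
            rw [Set.ncard_univ] at h3
            exact_mod_cast h3.trans hN
  exact key Set.univ (Set.toFinite _)

end Pool.Agent.MPd439b2.H3T
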