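import Pool.Agent.Lib.MP_d439b2_co.X3.H3T.Spec

/-!
# MP_d439b2_co, H3T: a tangle on a piece
-/

set_option autoImplicit false

namespace Pool.Agent.MPd439b2.H3T

open Pool.Agent.MPd439b2 Pool.Agent.MPd439b2.LK Pool.Agent.MPd439b2.H3 Pool.Agent.MPd439b2.Rep

theorem pfLf : LK.S_A1 → H3.S_Rt → H3.S_In → S_Lf := by
  intro hA1 hRt hIn V _ G C Φ φ q T hR hT hs
  have mem : ∀ (Y : Set C) (v : V), v ∈ φ ⁻¹' (Subtype.val '' Y) ↔ (⟨φ v, hR.into v⟩ : C) ∈ Y := by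
    intro Y v
    constructor
    · rintro ⟨c, hc, hcv⟩
      have e : c = ⟨φ v, hR.into v⟩ := Subtype.ext hcv
      rwa [← e]
    · intro h
      exact ⟨_, h, rfl⟩
  have cmp : ∀ Y : Set C, φ ⁻¹' (Subtype.val '' Yᶜ) = (φ ⁻¹' (Subtype.val '' Y))ᶜ := by
    intro Y
    ext v
    rw [Set.mem_compl_iff, mem, mem]
    rfl
  have h1 : ∀ Y : Set C, cr (G.induce C) Y ≤ cr G (φ ⁻¹' (Subtype.val '' Y)) := by
    intro Y
    rw [(hIn V G C).2.1 Y]
    refine (hA1 V G).2.1 _ _ _ _ ?_ ?_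
    · rintro _ ⟨c, hc, rfl⟩
      refine ⟨c, hc, ?_⟩
      exact (hR.fix c.1 c.2).symm
    · rintro v ⟨hv, hvY⟩ hv2
      apply hvY
      obtain ⟨c, hc, hcv⟩ := hv2
      rw [hR.fix v hv] at hcv
      exact ⟨c, hc, hcv⟩
  have h2 : ∀ Y : Set C, cr G (φ ⁻¹' (Subtype.val '' Y)) ≤ cr (G.induce C) Y := by
    intro Y
    rw [(hIn V G C).2.1 Y]
    refine hRt V G C Φ _ φ hR ?_
    rintro _ ⟨c, hc, rfl⟩
    exact c.2
  refine ⟨?_, ?_, ?_, ?_⟩
  · intro Y hY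
    exact (h1 Y).trans (hT.ord _ hY)
  · intro Y hY
    have h3 := hT.dec _ ((h2 Y).trans hY)
    rw [← cmp] at h3
    exact h3
  · intro X hX Y hY U hU hc
    apply hT.cov _ hX _ hY _ hU
    ext v
    simp only [Set.mem_union, Set.mem_univ, iff_true]
    have h3 : (⟨φ v, hR.into v⟩ : C) ∈ X ∪ Y ∪ U := by
      rw [hc]; exact Set.mem_univ _
    rcases h3 with (h3 | h3) | h3
    · exact Or.inl (Or.inl ((mem X v).2 h3))
    · exact Or.inl (Or.inr ((mem Y v).2 h3))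
    · exact Or.inr ((mem U v).2 h3)
  · intro v
    have e : φ ⁻¹' (Subtype.val '' ({v} : Set C)) = φ ⁻¹' {v.1} := by
      rw [Set.image_singleton]
    show φ ⁻¹' (Subtype.val '' ({v} : Set C)) ∈ T
    rw [e]
    exact hs v.1 v.2

end Pool.Agent.MPd439b2.H3T
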