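import Pool.Agent.Lib.MP_d439b2_co.X3.H3T.Spec

/-!
# MP_d439b2_co, X3/H3T: a minimal graph with a tangle has no split (helper25)
-/

set_option autoImplicit false

namespace Pool.Agent.MPd439b2.H3T

open Pool.Agent.MPd439b2 Pool.Agent.MPd439b2.LK Pool.Agent.MPd439b2.H3 Pool.Agent.MPd439b2.Rep

/-- the small side of a split gives a smaller graph with a tangle -/
private theorem mn_core (hSp : S_Sp) (hLf : S_Lf) (P : Cls) (hP : Her P) (q : ℕ) (V : Type)
    [Finite V] (G : SimpleGraph V) (T : Set (Set V)) (hG : P V G) (hT : Tan G q T)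
    (hmin : ∀ (V' : Type) [Finite V'] (G' : SimpleGraph V') (T' : Set (Set V')), P V' G' →
      Tan G' q T' → Nat.card V ≤ Nat.card V')
    (A A₁ B₁ : Set V) (h2 : 2 ≤ A.ncard) (hA₁ : A₁ ⊆ A) (hB₁ : B₁ ⊆ Aᶜ)
    (hadj : ∀ a ∈ A, ∀ b ∉ A, (G.Adj a b ↔ a ∈ A₁ ∧ b ∈ B₁)) (hAT : A ∈ T) : False := by
  have hne : A.Nonempty := by
    rw [Set.nonempty_iff_ne_empty]
    rintro rfl
    rw [Set.ncard_empty] at h2
    omega
  obtain ⟨a, ha, Φ, φ, hR, h3, h4⟩ := hSp V G A A₁ B₁ hne hA₁ hB₁ hadj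
  have hfib : ∀ d ∈ insert a Aᶜ, φ ⁻¹' {d} ∈ T := by
    intro d hd
    rcases Set.mem_insert_iff.mp hd with rfl | hd
    · have e : φ ⁻¹' {d} = A := by
        ext v
        constructor
        · intro hv
          by_contra hv'
          have h5 : φ v = d := hv
          rw [h4 v hv'] at h5
          exact hv' (h5 ▸ ha)
        · exact fun hv => h3 v hv
      rw [e]
      exact hAT
    · have e : φ ⁻¹' {d} = {d} := by
        ext v
        constructor
        · intro hv
          have h5 : φ v = d := hv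
          by_cases hv' : v ∈ A
          · rw [h3 v hv'] at h5
            exact absurd (h5 ▸ ha) hd
          · rw [h4 v hv'] at h5
            exact h5
        · intro hv
          have h5 : v = d := hv
          rw [h5]
          exact h4 d hd
      rw [e]
      exact hT.sing d
  have h5 := hmin _ _ _ (hP V G (insert a Aᶜ) hG) (hLf V G _ Φ φ q T hR hT hfib)
  rw [Nat.card_coe_set_eq] at h5
  have h6 := Set.ncard_insert_le a Aᶜ
  have h7 := Set.ncard_add_ncard_compl A
  omega

/-- **Mn.** -/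
theorem pfMn : LK.S_A1 → LK.S_A2 → S_Sp → S_Lf → S_Mn := by
  intro hA1 _ hSp hLf P hP q hq V _ G T hG hT hmin A _ h2 h3
  rintro ⟨A₁, hA₁, B₁, hB₁, hadj⟩
  rw [← Set.compl_eq_univ_sdiff] at h3 hB₁ hadj
  have hcr : LK.cr G A ≤ q := by
    refine le_trans ?_ hq
    refine (hA1 V G).2.2.2.2.1 A Aᶜ B₁ fun a ha => ?_
    by_cases h : a ∈ A₁
    · refine Or.inl fun b hb => ?_
      rw [hadj a ha b hb]
      exact and_iff_right h
    · exact Or.inr fun b hb h5 => h ((hadj a ha b hb).mp h5).1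
  rcases hT.dec A hcr with h | h
  · exact mn_core hSp hLf P hP q V G T hG hT hmin A A₁ B₁ h2 hA₁ hB₁
      (fun a ha b hb => hadj a ha b hb) h
  · refine mn_core hSp hLf P hP q V G T hG hT hmin Aᶜ B₁ A₁ h3 hB₁ (by rwa [compl_compl])
      (fun a ha b hb => ?_) h
    rw [G.adj_comm, hadj b (not_not.mp hb) a ha]
    exact and_comm

end Pool.Agent.MPd439b2.H3T
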