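import Pool.Agent.Lib.MP_d439b2_co.X3.H3T.Spec

/-!
# MP_d439b2_co, X3/H3T, P1: the first level of a rooted piece is a clique
-/

set_option autoImplicit false

namespace Pool.Agent.MPd439b2.H3T

open Pool.Agent.MPd439b2 Pool.Agent.MPd439b2.LK Pool.Agent.MPd439b2.H3 Pool.Agent.MPd439b2.Rep

private theorem P1_step {V : Type} {G : SimpleGraph V} {A Q : Set V} (h : RP G A Q) {a b z : V}
    (ha : a ∈ Lv G A Q) (hb : b ∈ Lv G A Q) (hab : a ≠ b) (hn : ¬ G.Adj a b) (hz : z ∈ Q)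
    (hzL : z ∉ Lv G A Q) (haz : G.Adj a z) : G.Adj b z := by
  have hA : A ∪ (∅ : Set V) = A := Set.union_empty A
  have h1 := h.pp ∅ (Set.empty_subset _) (by rw [hA]; exact h.conn) a ha.1 b hb.1 z hz
    (Set.notMem_empty _) (Set.notMem_empty _) (Set.notMem_empty _) hab
    (by rw [hA]; exact ha.2) (by rw [hA]; exact hb.2)
    (by
      rw [hA]
      intro c hc hcz
      exact hzL ⟨hz, c, hc, hcz⟩) haz
  rcases h1 with h1 | h1
  · exact absurd h1 hn
  · exact h1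

theorem pfP1 : S_P1 := by
  intro V _ G A Q h a ha b hb hab
  by_contra hn
  have key : ∀ u v : V, u ∈ Lv G A Q → v ∈ Lv G A Q → u ≠ v → ¬ G.Adj u v →
      ∀ z ∈ Q, z ∉ Lv G A Q → (G.Adj u z ↔ G.Adj v z) := by
    intro u v hu hv huv hnuv z hz hzL
    exact ⟨fun h1 => P1_step h hu hv huv hnuv hz hzL h1,
      fun h1 => P1_step h hv hu huv.symm (fun h2 => hnuv h2.symm) hz hzL h1⟩
  have hM1 : {v | v ∈ Lv G A Q ∧ ∀ z ∈ Q, z ∉ Lv G A Q → (G.Adj v z ↔ G.Adj a z)} ⊆ Q :=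
    fun v hv => hv.1.1
  have hM2 : {v | v ∈ Lv G A Q ∧ ∀ z ∈ Q, z ∉ Lv G A Q → (G.Adj v z ↔ G.Adj a z)} ⊆ Lv G A Q :=
    fun v hv => hv.1
  have hsub := h.mf _ hM1 (Or.inl hM2) (by
    intro v hv hvM
    by_cases hvL : v ∈ Lv G A Q
    · left
      intro m hm
      by_contra hvm
      apply hvM
      refine ⟨hvL, fun z hz hzL => ?_⟩
      have hne : v ≠ m := by
        rintro rfl
        exact hvM hm
      exact (key v m hvL hm.1 hne hvm z hz hzL).trans (hm.2 z hz hzL)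
    · by_cases hav : G.Adj a v
      · left
        intro m hm
        exact ((hm.2 v hv hvL).2 hav).symm
      · right
        intro m hm hvm
        exact hav ((hm.2 v hv hvL).1 hvm.symm))
  exact hab (hsub ⟨ha, fun z _ _ => Iff.rfl⟩
    ⟨hb, fun z hz hzL => (key a b ha hb hab hn z hz hzL).symm⟩)

end Pool.Agent.MPd439b2.H3T
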