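import Pool.Agent.Lib.MP_d439b2_co.X3.H3T.Spec

/-!
# MP_d439b2_co, X3/H3T: vertices which see a part of the first level (S_P2)
-/

set_option autoImplicit false

namespace Pool.Agent.MPd439b2.H3T

open Pool.Agent.MPd439b2 Pool.Agent.MPd439b2.LK Pool.Agent.MPd439b2.H3 Pool.Agent.MPd439b2.Rep

namespace P2aux

variable {V : Type} {G : SimpleGraph V} {A Q : Set V}

/-- the rule `pp` for `R = {a}` -/
theorem pa (h : RP G A Q) {a w y z : V} (ha : a ∈ Lv G A Q) (hw : w ∈ Q) (hy : y ∈ Q)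
    (hz : z ∈ Q) (hzL : z ∉ Lv G A Q) (hwa : w ≠ a) (hya : y ≠ a) (hwy : w ≠ y)
    (tw : w ∈ Lv G A Q ∨ G.Adj a w) (ty : y ∈ Lv G A Q ∨ G.Adj a y) (hza : ¬ G.Adj a z)
    (hwz : G.Adj w z) : G.Adj w y ∨ G.Adj y z := by
  have hconn : Conn G (A ∪ {a}) := by
    rw [Set.union_singleton]
    exact h.conn.insert ha.2
  have touch : ∀ v, v ∈ Lv G A Q ∨ G.Adj a v → ∃ x ∈ A ∪ {a}, G.Adj x v := by
    rintro v (⟨-, x, hx, hxv⟩ | hv)
    · exact ⟨x, Or.inl hx, hxv⟩
    · exact ⟨a, Or.inr rfl, hv⟩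
  refine h.pp {a} (Set.singleton_subset_iff.2 ha.1) hconn w hw y hy z hz hwa hya ?_ hwy
    (touch w tw) (touch y ty) ?_ hwz
  · rintro rfl
    exact hzL ha
  · rintro x (hx | hx) hxz
    · exact hzL ⟨hz, x, hx, hxz⟩
    · rw [Set.mem_singleton_iff.1 hx] at hxz
      exact hza hxz

end P2aux

open P2aux

theorem pfP2 : S_P2 := by
  intro V _ G A Q h
  refine ⟨?_, ?_, ?_⟩
  · intro u hu w hw huw hna
    by_contra hcon
    push Not at hcon
    obtain ⟨h1, h2⟩ := hcon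
    rw [Set.not_subset] at h1 h2
    obtain ⟨b, hb, hb'⟩ := h1
    obtain ⟨a, ha, ha'⟩ := h2
    have hua : G.Adj u a := by
      by_contra hn
      exact ha' ⟨ha.1, hn⟩
    have hwb : G.Adj w b := by
      by_contra hn
      exact hb' ⟨hb.1, hn⟩
    have hba : b ≠ a := by
      rintro rfl
      exact ha.2 hwb
    have hua' : u ≠ a := fun e => hu.2.1 (e ▸ ha.1)
    have hbu : b ≠ u := fun e => hu.2.1 (e ▸ hb.1)
    rcases pa h ha.1 hb.1.1 hu.1 hw.1 hw.2.1 hba hua' hbu (Or.inl hb.1) (Or.inr hua.symm)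
      (fun e => ha.2 e.symm) hwb.symm with e | e
    · exact hb.2 e.symm
    · exact hna e
  · have key : ∀ u ∈ NN G A Q, ∀ w ∈ NN G A Q, G.Adj u w → ∀ c, c ∈ Ms G (Lv G A Q) u →
        c ∈ Ms G (Lv G A Q) w → ∀ a, a ∈ Ms G (Lv G A Q) w → a ∈ Ms G (Lv G A Q) u := by
      intro u hu w hw huw c hcu hcw a ha
      by_contra hau
      have hua : G.Adj u a := by
        by_contra hn
        exact hau ⟨ha.1, hn⟩
      have hca : c ≠ a := by
        rintro rfl
        exact hcu.2 hua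
      have hua' : u ≠ a := fun e => hu.2.1 (e ▸ ha.1)
      have huc : u ≠ c := fun e => hu.2.1 (e ▸ hcu.1)
      rcases pa h ha.1 hu.1 hcu.1.1 hw.1 hw.2.1 hua' hca huc (Or.inr hua.symm) (Or.inl hcu.1)
        (fun e => ha.2 e.symm) huw with e | e
      · exact hcu.2 e
      · exact hcw.2 e.symm
    intro u hu w hw huw
    by_cases hd : Disjoint (Ms G (Lv G A Q) u) (Ms G (Lv G A Q) w)
    · exact Or.inr hd
    · left
      rw [Set.not_disjoint_iff] at hd
      obtain ⟨c, hcu, hcw⟩ := hd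
      exact Set.Subset.antisymm (fun a ha => key w hw u hu huw.symm c hcw hcu a ha)
        (fun a ha => key u hu w hw huw c hcu hcw a ha)
  · intro u hu w hw huw
    obtain ⟨huQ, huL, ⟨b, hb⟩, a, ha, hua⟩ := hu
    have hba : b ≠ a := by
      rintro rfl
      exact hb.2 hua
    have hua' : u ≠ a := fun e => huL (e ▸ ha)
    have hub : u ≠ b := fun e => huL (e ▸ hb.1)
    rcases pa h ha huQ hb.1.1 hw.1 hw.2.1 hua' hba hub (Or.inr hua.symm) (Or.inl hb.1)
      (fun e => hw.2.2 a ha e.symm) huw with e | e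
    · exact hb.2 e
    · exact hw.2.2 b hb.1 e.symm

end Pool.Agent.MPd439b2.H3T
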