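import Pool.Agent.Lib.MP_d439b2_co.X3.H3T.Spec

/-!
# MP_d439b2_co, X3/H3T: vertices which see all of the first level (S_P3)
-/

set_option autoImplicit false

namespace Pool.Agent.MPd439b2.H3T

open Pool.Agent.MPd439b2 Pool.Agent.MPd439b2.LK Pool.Agent.MPd439b2.H3 Pool.Agent.MPd439b2.Rep

namespace P3aux

variable {V : Type} {G : SimpleGraph V} {A Q : Set V}

/-- the rule `pp` for `R = {a}` -/
theorem pa (h : RP G A Q) {a w y z : V} (ha : a ∈ Lv G A Q) (hw : w ∈ Q) (hy : y ∈ Q)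
    (hz : z ∈ Q) (hzL : z ∉ Lv G A Q) (hwa : w ≠ a) (hya : y ≠ a) (hwy : w ≠ y)
    (tw : w ∈ Lv G A Q ∨ G.Adj a w) (ty : y ∈ Lv G A Q ∨ G.Adj a y) (hza : ¬ G.Adj a z)
    (hwz : G.Adj w z) : G.Adj w y ∨ G.Adj y z := by
  have hconn : Conn G (A ∪ {a}) := by
    rw [Set.union_singleton]
    exact h.conn.insert ha.2
  have touch : ∀ v, v ∈ Lv G A Q ∨ G.Adj a v → ∃ x ∈ A ∪ {a}, G.Adj x v := by
    rintro v (⟨-, x, hx, hxv⟩ | hv)
    · exact ⟨x, Or.inl hx, hxv⟩
    · exact ⟨a, Or.inr rfl, hv⟩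
  refine h.pp {a} (Set.singleton_subset_iff.2 ha.1) hconn w hw y hy z hz hwa hya ?_ hwy
    (touch w tw) (touch y ty) ?_ hwz
  · rintro rfl
    exact hzL ha
  · rintro x (hx | hx) hxz
    · exact hzL ⟨hz, x, hx, hxz⟩
    · rw [Set.mem_singleton_iff.1 hx] at hxz
      exact hza hxz

/-- a missed vertex of the first level exists for the vertices of `NN` and `WW` -/
theorem miss (hL : (Lv G A Q).Nonempty) {u : V} (hu : u ∈ NN G A Q ∨ u ∈ WW G A Q) :
    ∃ b ∈ Lv G A Q, ¬ G.Adj b u := by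
  rcases hu with hu | hu
  · obtain ⟨b, hb⟩ := hu.2.2.1
    exact ⟨b, hb.1, fun e => hb.2 e.symm⟩
  · obtain ⟨b, hb⟩ := hL
    exact ⟨b, hb, fun e => hu.2.2 b hb e.symm⟩

theorem split (v : V) (hv : v ∈ Q) : v ∈ Lv G A Q ∨ v ∈ ZZ G A Q ∨ (v ∈ NN G A Q ∨ v ∈ WW G A Q) := by
  by_cases hL : v ∈ Lv G A Q
  · exact Or.inl hL
  by_cases hall : ∀ a ∈ Lv G A Q, G.Adj v a
  · exact Or.inr (Or.inl ⟨hv, hL, hall⟩)
  · by_cases hno : ∀ a ∈ Lv G A Q, ¬ G.Adj v a
    · exact Or.inr (Or.inr (Or.inr ⟨hv, hL, hno⟩))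
    · push Not at hall hno
      obtain ⟨a, ha, hna⟩ := hall
      obtain ⟨b, hb, hab⟩ := hno
      exact Or.inr (Or.inr (Or.inl ⟨hv, hL, ⟨a, ha, hna⟩, b, hb, hab⟩))

theorem nw_mem {u : V} (hu : u ∈ NN G A Q ∨ u ∈ WW G A Q) : u ∈ Q ∧ u ∉ Lv G A Q := by
  rcases hu with hu | hu
  · exact ⟨hu.1, hu.2.1⟩
  · exact ⟨hu.1, hu.2.1⟩

/-- non-adjacent elements of `ZZ` have the same neighbours in `NN` and `WW` -/
theorem same (h : RP G A Q) (hL : (Lv G A Q).Nonempty) {z z' : V} (hz : z ∈ ZZ G A Q)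
    (hz' : z' ∈ ZZ G A Q) (hne : z ≠ z') (hna : ¬ G.Adj z z') {u : V}
    (hu : u ∈ NN G A Q ∨ u ∈ WW G A Q) (hzu : G.Adj z u) : G.Adj z' u := by
  obtain ⟨b, hb, hbu⟩ := miss hL hu
  have hzb : z ≠ b := fun e => hz.2.1 (e ▸ hb)
  have hzb' : z' ≠ b := fun e => hz'.2.1 (e ▸ hb)
  rcases pa h hb hz.1 hz'.1 (nw_mem hu).1 (nw_mem hu).2 hzb hzb' hne
    (Or.inr (hz.2.2 b hb).symm) (Or.inr (hz'.2.2 b hb).symm) hbu hzu with e | e
  · exact (hna e).elim
  · exact e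

end P3aux

open P3aux

theorem pfP3 : S_P2 → S_P3 := by
  intro hP2 V _ G A Q h hL
  obtain ⟨p1, p2, p3⟩ := hP2 V G A Q h
  refine ⟨?_, ?_, ?_, ?_⟩
  · -- (1)
    intro z hz z' hz' hne
    by_contra hna
    have hsub : (({v | v ∈ ZZ G A Q ∧ ∀ u, u ∈ NN G A Q ∨ u ∈ WW G A Q → (G.Adj v u ↔ G.Adj z u)} :
        Set V)).Subsingleton := by
      refine h.mf _ (fun v hv => hv.1.1) (Or.inr ?_) ?_
      · rw [Set.disjoint_left]
        exact fun v hv hvL => hv.1.2.1 hvL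
      · intro v hvQ hvM
        rcases split (G := G) (A := A) v hvQ with e | e | e
        · left
          intro m hm
          exact (hm.1.2.2 v e).symm
        · left
          intro m hm
          by_contra hvm
          apply hvM
          refine ⟨e, fun u hu => ?_⟩
          rw [← hm.2 u hu]
          have hne' : v ≠ m := fun e' => hvM (e' ▸ hm)
          exact ⟨fun a => same h hL e hm.1 hne' hvm hu a,
            fun a => same h hL hm.1 e hne'.symm (fun a' => hvm a'.symm) hu a⟩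
        · by_cases hzv : G.Adj z v
          · left
            intro m hm
            exact ((hm.2 v e).2 hzv).symm
          · right
            intro m hm hvm
            exact hzv ((hm.2 v e).1 hvm.symm)
    apply hne
    apply hsub ⟨hz, fun u _ => Iff.rfl⟩
    refine ⟨hz', fun u hu => ⟨fun a => same h hL hz' hz hne.symm (fun a' => hna a'.symm) hu a,
      fun a => same h hL hz hz' hne hna hu a⟩⟩
  · -- (2)
    intro z hz u hu v hv hd
    by_contra hcon
    push Not at hcon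
    obtain ⟨hzu, hzv⟩ := hcon
    obtain ⟨x, hx⟩ := hu.2.2.1
    obtain ⟨b, hb⟩ := hv.2.2.1
    have huv : u ≠ v := by
      rintro rfl
      exact Set.disjoint_left.1 hd hx hx
    have hauv : G.Adj u v := by
      by_contra hn
      rcases p1 u hu v hv huv hn with e | e
      · exact Set.disjoint_left.1 hd hx (e hx)
      · exact Set.disjoint_left.1 hd (e hb) hb
    have hub : G.Adj u b := by
      by_contra hn
      exact Set.disjoint_left.1 hd ⟨hb.1, hn⟩ hb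
    have h1 : u ≠ b := fun e => hu.2.1 (e ▸ hb.1)
    have h2 : z ≠ b := fun e => hz.2.1 (e ▸ hb.1)
    have h3 : u ≠ z := by
      rintro rfl
      exact hx.2 (hz.2.2 x hx.1)
    rcases pa h hb.1 hu.1 hz.1 hv.1 hv.2.1 h1 h2 h3 (Or.inr hub.symm)
      (Or.inr (hz.2.2 b hb.1).symm) (fun e => hb.2 e.symm) hauv with e | e
    · exact hzu e.symm
    · exact hzv e
  · -- (3)
    intro z hz u hu v hv hs hzu
    by_contra hzv
    obtain ⟨x, hx⟩ := hv.2.2.1
    have hvu : ¬ G.Adj v u := by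
      intro e
      rcases p2 v hv u hu e with e' | e'
      · exact hs.ne e'
      · exact Set.disjoint_left.1 e' hx (hs.subset hx)
    obtain ⟨b, hbu, hbv⟩ := Set.exists_of_ssubset hs
    have hvb : G.Adj v b := by
      by_contra hn
      exact hbv ⟨hbu.1, hn⟩
    have h1 : z ≠ b := fun e => hz.2.1 (e ▸ hbu.1)
    have h2 : v ≠ b := fun e => hv.2.1 (e ▸ hbu.1)
    have h3 : z ≠ v := by
      rintro rfl
      exact hx.2 (hz.2.2 x hx.1)
    rcases pa h hbu.1 hz.1 hv.1 hu.1 hu.2.1 h1 h2 h3 (Or.inr (hz.2.2 b hbu.1).symm)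
      (Or.inr hvb.symm) (fun e => hbu.2 e.symm) hzu with e | e
    · exact hzv e
    · exact hvu e
  · -- (4)
    intro z hz u hu hzu w hw hzw
    obtain ⟨a, ha, hua⟩ := hu.2.2.2
    obtain ⟨x, hx⟩ := hu.2.2.1
    have h1 : z ≠ a := fun e => hz.2.1 (e ▸ ha)
    have h2 : u ≠ a := fun e => hu.2.1 (e ▸ ha)
    have h3 : z ≠ u := by
      rintro rfl
      exact hx.2 (hz.2.2 x hx.1)
    rcases pa h ha hz.1 hu.1 hw.1 hw.2.1 h1 h2 h3 (Or.inr (hz.2.2 a ha).symm)
      (Or.inr hua.symm) (fun e => hw.2.2 a ha e.symm) hzw with e | e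
    · exact hzu e
    · exact p3 u hu w hw e

end Pool.Agent.MPd439b2.H3T
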