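import Pool.Agent.Lib.MP_d439b2_co.X3.H3T.Spec

/-!
# MP_d439b2_co, X3/H3T/P4: the cuts
-/

set_option autoImplicit false

namespace Pool.Agent.MPd439b2.H3T

open Pool.Agent.MPd439b2 Pool.Agent.MPd439b2.LK Pool.Agent.MPd439b2.H3 Pool.Agent.MPd439b2.Rep

/-- the four types of the elements of `Q` -/
private theorem p4_cases {V : Type} {G : SimpleGraph V} {A Q : Set V} {v : V} (hv : v ∈ Q) :
    v ∈ Lv G A Q ∨ v ∈ NN G A Q ∨ v ∈ ZZ G A Q ∨ v ∈ WW G A Q := by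
  by_cases hvL : v ∈ Lv G A Q
  · exact Or.inl hvL
  right
  by_cases hall : ∀ a ∈ Lv G A Q, G.Adj v a
  · exact Or.inr (Or.inl ⟨hv, hvL, hall⟩)
  by_cases hnone : ∀ a ∈ Lv G A Q, ¬ G.Adj v a
  · exact Or.inr (Or.inr ⟨hv, hvL, hnone⟩)
  left
  push Not at hall hnone
  obtain ⟨a, ha, hva⟩ := hall
  obtain ⟨a', ha', hva'⟩ := hnone
  exact ⟨hv, hvL, ⟨a, ha, hva⟩, a', ha', hva'⟩

/-- the neighbours in `Q` outside the cut -/
private def KK {V : Type} (G : SimpleGraph V) (A Q S : Set V) (b : V) : Prop :=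
  b ∈ Lv G A Q ∨ (b ∈ NN G A Q ∧ Disjoint (Ms G (Lv G A Q) b) S) ∨ b ∈ ZZ G A Q

private theorem p4_claim {V : Type} {G : SimpleGraph V} {A Q S : Set V}
    (hcl : CompleteOn G (Lv G A Q))
    (p1 : ∀ u ∈ NN G A Q, ∀ w ∈ NN G A Q, u ≠ w → ¬ G.Adj u w →
      Ms G (Lv G A Q) u ⊆ Ms G (Lv G A Q) w ∨ Ms G (Lv G A Q) w ⊆ Ms G (Lv G A Q) u)
    (p2 : ∀ u ∈ NN G A Q, ∀ w ∈ NN G A Q, G.Adj u w →
      Ms G (Lv G A Q) u = Ms G (Lv G A Q) w ∨ Disjoint (Ms G (Lv G A Q) u) (Ms G (Lv G A Q) w))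
    (p3 : ∀ u ∈ NN G A Q, ∀ w ∈ WW G A Q, ¬ G.Adj u w)
    (z1 : CompleteOn G (ZZ G A Q))
    (z2 : ∀ z ∈ ZZ G A Q, ∀ u ∈ NN G A Q, ∀ v ∈ NN G A Q,
      Disjoint (Ms G (Lv G A Q) u) (Ms G (Lv G A Q) v) → G.Adj z u ∨ G.Adj z v)
    (z3 : ∀ z ∈ ZZ G A Q, ∀ u ∈ NN G A Q, ∀ v ∈ NN G A Q,
      Ms G (Lv G A Q) v ⊂ Ms G (Lv G A Q) u → G.Adj z u → G.Adj z v)
    (z4 : ∀ z ∈ ZZ G A Q, ∀ u ∈ NN G A Q, ¬ G.Adj z u → ∀ w ∈ WW G A Q, ¬ G.Adj z w)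
    (hL : (Lv G A Q).Nonempty) (hGd : Gd G A Q S)
    {v b : V} (hv : v ∈ XX G A Q S) (hb : b ∈ Q) (hbX : b ∉ XX G A Q S) :
    G.Adj v b ↔ KK G A Q S b := by
  have hbS : b ∉ S := fun h => hbX (Or.inl h)
  have hvb : v ≠ b := fun h => hbX (h ▸ hv)
  have hbN : b ∈ NN G A Q → ¬ Ms G (Lv G A Q) b ⊆ S := fun h h' => hbX (Or.inr (Or.inl ⟨h, h'⟩))
  have kL : b ∈ Lv G A Q → KK G A Q S b := fun h => Or.inl h
  have kZ : b ∈ ZZ G A Q → KK G A Q S b := fun h => Or.inr (Or.inr h)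
  have kW : b ∈ WW G A Q → ¬ KK G A Q S b := by
    rintro h (h' | ⟨h', -⟩ | h')
    · exact h.2.1 h'
    · obtain ⟨a, ha, hba⟩ := h'.2.2.2
      exact h.2.2 a ha hba
    · obtain ⟨a, ha⟩ := hL
      exact h.2.2 a ha (h'.2.2 a ha)
  have kN : b ∈ NN G A Q → (KK G A Q S b ↔ Disjoint (Ms G (Lv G A Q) b) S) := by
    intro h
    constructor
    · rintro (h' | ⟨-, h'⟩ | h')
      · exact (h.2.1 h').elim
      · exact h'
      · obtain ⟨a, ha, hna⟩ := h.2.2.1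
        exact (hna (h'.2.2 a ha)).elim
    · exact fun h' => Or.inr (Or.inl ⟨h, h'⟩)
  have hsub : b ∈ NN G A Q → ¬ Disjoint (Ms G (Lv G A Q) b) S → S ⊆ Ms G (Lv G A Q) b := by
    intro h hnd
    rcases hGd.2 b h with h' | h' | h'
    · exact (hbN h h').elim
    · exact (hnd h').elim
    · exact h'
  rcases p4_cases (G := G) (A := A) hb with hb' | hb' | hb' | hb'
  · -- b in L
    refine iff_of_true ?_ (kL hb')
    rcases hv with hv | ⟨hv, hvS⟩ | ⟨hv, -⟩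
    · exact hcl v (hGd.1 hv) b hb' hvb
    · by_contra hcon
      exact hbS (hvS ⟨hb', hcon⟩)
    · exact hv.2.2 b hb'
  · -- b in NN
    rw [kN hb']
    by_cases hd : Disjoint (Ms G (Lv G A Q) b) S
    · refine iff_of_true ?_ hd
      rcases hv with hv | ⟨hv, hvS⟩ | ⟨hv, u, hu, huS, hvu⟩
      · by_contra hcon
        exact Set.disjoint_left.mp hd ⟨hGd.1 hv, fun h => hcon h.symm⟩ hv
      · by_contra hcon
        obtain ⟨s, hs⟩ := hv.2.2.1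
        obtain ⟨t, ht⟩ := hb'.2.2.1
        rcases p1 v hv b hb' hvb hcon with h | h
        · exact Set.disjoint_left.mp hd (h hs) (hvS hs)
        · exact Set.disjoint_left.mp hd ht (hvS (h ht))
      · rcases z2 v hv u hu b hb' (Set.disjoint_of_subset_left huS hd.symm) with h | h
        · exact (hvu h).elim
        · exact h
    · refine iff_of_false ?_ hd
      have hSb := hsub hb' hd
      rcases hv with hv | ⟨hv, hvS⟩ | ⟨hv, u, hu, huS, hvu⟩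
      · exact fun h => (hSb hv).2 h.symm
      · intro h
        obtain ⟨s, hs⟩ := hv.2.2.1
        rcases p2 v hv b hb' h with h' | h'
        · rw [h'] at hvS
          exact hbN hb' hvS
        · exact Set.disjoint_left.mp h' hs (hSb (hvS hs))
      · intro h
        apply hvu
        refine z3 v hv b hb' u hu (Set.ssubset_iff_subset_ne.2 ⟨huS.trans hSb, ?_⟩) h
        intro heq
        rw [heq] at huS
        exact hbN hb' huS
  · -- b in ZZ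
    refine iff_of_true ?_ (kZ hb')
    rcases hv with hv | ⟨hv, hvS⟩ | ⟨hv, -⟩
    · exact (hb'.2.2 v (hGd.1 hv)).symm
    · by_contra hcon
      exact hbX (Or.inr (Or.inr ⟨hb', v, hv, hvS, fun h => hcon h.symm⟩))
    · exact z1 v hv b hb' hvb
  · -- b in WW
    refine iff_of_false ?_ (kW hb')
    rcases hv with hv | ⟨hv, hvS⟩ | ⟨hv, u, hu, huS, hvu⟩
    · exact fun h => hb'.2.2 v (hGd.1 hv) h.symm
    · exact p3 v hv b hb'
    · exact z4 v hv u hu hvu b hb'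

theorem pfP4 : LK.S_A1 → S_P1 → S_P2 → S_P3 → S_P4 := by
  intro h0 h1 h2 h3 V _ G A Q hR
  obtain ⟨a1, a2, a3, _, a5, _⟩ := h0 V G
  constructor
  · have hcov : Qᶜ ⊆ {v | v ∉ Q ∧ ((∀ q ∈ Q, G.Adj v q) ∨ ∀ q ∈ Q, ¬ G.Adj v q)} ∪
        {v | v ∉ Q ∧ ∀ q ∈ Q, (G.Adj v q ↔ q ∈ Lv G A Q)} := by
      intro v hv
      rcases hR.out v hv with h2 | h2 | h2
      · exact Or.inl ⟨hv, Or.inl h2⟩
      · exact Or.inl ⟨hv, Or.inr h2⟩
      · exact Or.inr ⟨hv, h2⟩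
    have h2 : rk G {v | v ∉ Q ∧ ((∀ q ∈ Q, G.Adj v q) ∨ ∀ q ∈ Q, ¬ G.Adj v q)} Q ≤ 1 := by
      refine a5 _ _ Q ?_
      rintro a ⟨_, h3 | h3⟩
      · exact Or.inl fun b hb => iff_of_true (h3 b hb) hb
      · exact Or.inr h3
    have h3 : rk G {v | v ∉ Q ∧ ∀ q ∈ Q, (G.Adj v q ↔ q ∈ Lv G A Q)} Q ≤ 1 := by
      refine a5 _ _ (Lv G A Q) ?_
      rintro a ⟨_, h3⟩
      exact Or.inl h3
    have h4 := (a2 _ _ Q Q hcov subset_rfl).trans (a3 _ _ Q)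
    unfold cr
    rw [a1]
    omega
  · intro S hGd
    obtain ⟨p1, p2, p3⟩ := h2 V G A Q hR
    have hXQ : XX G A Q S ⊆ Q := by
      rintro v (hv | ⟨hv, -⟩ | ⟨hv, -⟩)
      · exact (hGd.1 hv).1
      · exact hv.1
      · exact hv.1
    have claim : ∀ v ∈ XX G A Q S, ∀ b ∈ Q, b ∉ XX G A Q S → (G.Adj v b ↔ KK G A Q S b) := by
      intro v hv b hb hbX
      have hL : (Lv G A Q).Nonempty := by
        rcases hv with hv | ⟨hv, -⟩ | ⟨-, u, hu, -⟩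
        · exact ⟨v, hGd.1 hv⟩
        · obtain ⟨s, hs⟩ := hv.2.2.1
          exact ⟨s, hs.1⟩
        · obtain ⟨s, hs⟩ := hu.2.2.1
          exact ⟨s, hs.1⟩
      obtain ⟨z1, z2, z3, z4⟩ := h3 V G A Q hR hL
      exact p4_claim (h1 V G A Q hR) p1 p2 p3 z1 z2 z3 z4 hL hGd hv hb hbX
    have same : ∀ v ∈ XX G A Q S, ∀ w ∈ XX G A Q S, (v ∈ Lv G A Q ↔ w ∈ Lv G A Q) →
        ∀ b ∉ XX G A Q S, G.Adj v b → G.Adj w b := by
      intro v hv w hw hvw b hbX hadj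
      by_cases hb : b ∈ Q
      · exact (claim w hw b hb hbX).2 ((claim v hv b hb hbX).1 hadj)
      · rcases hR.out b hb with h | h | h
        · exact (h w (hXQ hw)).symm
        · exact (h v (hXQ hv) hadj.symm).elim
        · exact ((h w (hXQ hw)).2 (hvw.1 ((h v (hXQ hv)).1 hadj.symm))).symm
    have hcov : XX G A Q S ⊆ {v | v ∈ XX G A Q S ∧ v ∈ Lv G A Q} ∪
        {v | v ∈ XX G A Q S ∧ v ∉ Lv G A Q} := by
      intro v hv
      by_cases h : v ∈ Lv G A Q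
      · exact Or.inl ⟨hv, h⟩
      · exact Or.inr ⟨hv, h⟩
    have r1 : rk G {v | v ∈ XX G A Q S ∧ v ∈ Lv G A Q} (XX G A Q S)ᶜ ≤ 1 := by
      refine a5 _ _ {b | ∃ v ∈ XX G A Q S, v ∈ Lv G A Q ∧ G.Adj v b} ?_
      rintro a ⟨ha, haL⟩
      left
      intro b hb
      constructor
      · exact fun h => ⟨a, ha, haL, h⟩
      · rintro ⟨v, hv, hvL, hvb⟩
        exact same v hv a ha (iff_of_true hvL haL) b hb hvb
    have r2 : rk G {v | v ∈ XX G A Q S ∧ v ∉ Lv G A Q} (XX G A Q S)ᶜ ≤ 1 := by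
      refine a5 _ _ {b | ∃ v ∈ XX G A Q S, v ∉ Lv G A Q ∧ G.Adj v b} ?_
      rintro a ⟨ha, haL⟩
      left
      intro b hb
      constructor
      · exact fun h => ⟨a, ha, haL, h⟩
      · rintro ⟨v, hv, hvL, hvb⟩
        exact same v hv a ha (iff_of_false hvL haL) b hb hvb
    have h4 := (a2 _ _ _ _ hcov (subset_rfl (a := (XX G A Q S)ᶜ))).trans (a3 _ _ _)
    unfold cr
    omega

end Pool.Agent.MPd439b2.H3T
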