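import Pool.Agent.Lib.MP_d439b2_co.X3.H3T.Spec

/-!
# MP_d439b2_co, X3/H3T/P5: the piece at a node
-/

set_option autoImplicit false

namespace Pool.Agent.MPd439b2.H3T

open Pool.Agent.MPd439b2 Pool.Agent.MPd439b2.LK Pool.Agent.MPd439b2.H3 Pool.Agent.MPd439b2.Rep

/-- a part of `Q` outside the first level, with the root extended by `a₁` -/
private theorem p5_sub {V : Type} {G : SimpleGraph V} {A Q Q' : Set V} {a₁ : V}
    (h : RP G A Q) (ha₁ : a₁ ∈ Lv G A Q) (hQ : Q' ⊆ Q) (hL : ∀ q ∈ Q', q ∉ Lv G A Q)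
    (hout : ∀ v ∈ Q, v ∉ Q' → (∀ q ∈ Q', G.Adj v q) ∨ (∀ q ∈ Q', ¬ G.Adj v q) ∨
      ∀ q ∈ Q', (G.Adj v q ↔ G.Adj a₁ q)) : RP G (insert a₁ A) Q' := by
  have haQ : a₁ ∉ Q' := fun h' => hL a₁ h' ha₁
  have hA : ∀ q ∈ Q', ∀ b ∈ A, ¬ G.Adj b q := fun q hq b hb hbq => hL q hq ⟨hQ hq, b, hb, hbq⟩
  have hLv : ∀ q ∈ Q', (q ∈ Lv G (insert a₁ A) Q' ↔ G.Adj a₁ q) := by
    intro q hq
    constructor
    · rintro ⟨-, b, hb, hbq⟩
      rcases hb with rfl | hb
      · exact hbq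
      · exact (hA q hq b hb hbq).elim
    · intro h'
      exact ⟨hq, a₁, Set.mem_insert _ _, h'⟩
  have hout' : ∀ v, v ∉ Q' → (∀ q ∈ Q', G.Adj v q) ∨ (∀ q ∈ Q', ¬ G.Adj v q) ∨
      ∀ q ∈ Q', (G.Adj v q ↔ q ∈ Lv G (insert a₁ A) Q') := by
    intro v hv
    by_cases hvQ : v ∈ Q
    · rcases hout v hvQ hv with h1 | h1 | h1
      · exact Or.inl h1
      · exact Or.inr (Or.inl h1)
      · exact Or.inr (Or.inr fun q hq => (h1 q hq).trans (hLv q hq).symm)
    · rcases h.out v hvQ with h1 | h1 | h1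
      · exact Or.inl fun q hq => h1 q (hQ hq)
      · exact Or.inr (Or.inl fun q hq => h1 q (hQ hq))
      · exact Or.inr (Or.inl fun q hq h2 => hL q hq ((h1 q (hQ hq)).mp h2))
  refine ⟨h.conn.insert ha₁.2, ?_, hout', ?_, ?_⟩
  · rw [Set.disjoint_left]
    intro b hb hbQ
    rcases hb with rfl | hb
    · exact haQ hbQ
    · exact Set.disjoint_left.mp h.dis hb (hQ hbQ)
  · intro R hR hconn w hw y hy z hz hwR hyR hzR hwy h1 h2 h3 h4
    have hset : A ∪ insert a₁ R = insert a₁ A ∪ R := by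
      ext v
      simp only [Set.mem_union, Set.mem_insert_iff]
      tauto
    have hne : ∀ v ∈ Q', v ∉ R → v ∉ insert a₁ R := by
      intro v hv hvR h'
      rcases h' with rfl | h'
      · exact haQ hv
      · exact hvR h'
    refine h.pp (insert a₁ R) (Set.insert_subset ha₁.1 (hR.trans hQ)) ?_ w (hQ hw) y (hQ hy) z
      (hQ hz) (hne w hw hwR) (hne y hy hyR) (hne z hz hzR) hwy ?_ ?_ ?_ h4
    · rw [hset]
      exact hconn
    · rw [hset]
      exact h1
    · rw [hset]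
      exact h2
    · rw [hset]
      exact h3
  · intro M hM hML hH
    refine h.mf M (hM.trans hQ) (Or.inr ?_) ?_
    · rw [Set.disjoint_left]
      exact fun v hv => hL v (hM hv)
    · intro v hv hvM
      by_cases hvQ : v ∈ Q'
      · exact hH v hvQ hvM
      · rcases hout' v hvQ with h1 | h1 | h1
        · exact Or.inl fun m hm => h1 m (hM hm)
        · exact Or.inr fun m hm => h1 m (hM hm)
        · rcases hML with h2 | h2
          · exact Or.inl fun m hm => (h1 m (hM hm)).mpr (h2 hm)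
          · exact Or.inr fun m hm h3 => Set.disjoint_left.mp h2 hm ((h1 m (hM hm)).mp h3)

theorem pfP5 : S_P1 → S_P2 → S_P3 → S_P5 := by
  rintro - h2 h3 V _ G A Q T b hR hbT ⟨u₀, hu₀, hT⟩
  obtain ⟨p1, p2, p3⟩ := h2 V G A Q hR
  have hTL : T ⊆ Lv G A Q := by
    rw [← hT]
    exact fun s hs => hs.1
  have hbL : b ∈ Lv G A Q := hTL hbT
  obtain ⟨z1, z2, z3, z4⟩ := h3 V G A Q hR ⟨b, hbL⟩
  have hTn : T.Nonempty := ⟨b, hbT⟩
  refine p5_sub hR hbL ?_ ?_ ?_
  · rintro q (hq | hq)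
    · exact hq.1.1
    · exact hq.1.1
  · rintro q (hq | hq)
    · exact hq.1.2.1
    · exact hq.1.2.1
  intro v hvQ hv
  -- the vertex b
  have hbN : ∀ q ∈ NN G A Q, Ms G (Lv G A Q) q = T → ∀ t ∈ T, ¬ G.Adj t q := by
    intro q _ hqT t ht htq
    rw [← hqT] at ht
    exact ht.2 htq.symm
  have hbZ : ∀ q ∈ ZZ G A Q, ∀ t ∈ Lv G A Q, G.Adj t q := fun q hq t ht => (hq.2.2 t ht).symm
  by_cases hvL : v ∈ Lv G A Q
  · by_cases hvT : v ∈ T
    · right; right
      rintro q (hq | hq)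
      · exact ⟨fun h => (hbN q hq.1 hq.2 v hvT h).elim, fun h => (hbN q hq.1 hq.2 b hbT h).elim⟩
      · exact ⟨fun _ => hbZ q hq.1 b hbL, fun _ => hbZ q hq.1 v hvL⟩
    · left
      rintro q (hq | hq)
      · by_contra hcon
        apply hvT
        rw [← hq.2]
        exact ⟨hvL, fun h => hcon h.symm⟩
      · exact hbZ q hq.1 v hvL
  by_cases hall : ∀ a ∈ Lv G A Q, G.Adj v a
  · have hvZ : v ∈ ZZ G A Q := ⟨hvQ, hvL, hall⟩
    have hvZ' : ∀ q ∈ QT G A Q T, q ∈ ZZ G A Q → G.Adj v q := by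
      intro q hq hqZ
      exact z1 v hvZ q hqZ (fun h => hv (h ▸ hq))
    by_cases hsome : ∃ u ∈ NN G A Q, Ms G (Lv G A Q) u = T ∧ G.Adj v u
    · left
      have hno : ¬ ∃ u ∈ NN G A Q, Ms G (Lv G A Q) u = T ∧ ¬ G.Adj v u :=
        fun h => hv (Or.inr ⟨hvZ, hsome, h⟩)
      intro q hq
      rcases hq with hq' | hq'
      · by_contra hcon
        exact hno ⟨q, hq'.1, hq'.2, hcon⟩
      · exact hvZ' q (Or.inr hq') hq'.1
    · right; right
      intro q hq
      rcases hq with hq' | hq'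
      · exact ⟨fun h => (hsome ⟨q, hq'.1, hq'.2, h⟩).elim,
          fun h => (hbN q hq'.1 hq'.2 b hbT h).elim⟩
      · exact ⟨fun _ => hbZ q hq'.1 b hbL, fun _ => hvZ' q (Or.inr hq') hq'.1⟩
  by_cases hnone : ∀ a ∈ Lv G A Q, ¬ G.Adj v a
  · have hvW : v ∈ WW G A Q := ⟨hvQ, hvL, hnone⟩
    right; left
    rintro q (hq | hq) hadj
    · exact p3 q hq.1 v hvW hadj.symm
    · obtain ⟨hqZ, -, u, hu, -, hqu⟩ := hq
      exact z4 q hqZ u hu hqu v hvW hadj.symm
  -- v in NN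
  have hvN : v ∈ NN G A Q := by
    push Not at hall hnone
    obtain ⟨a, ha, hva⟩ := hall
    obtain ⟨a', ha', hva'⟩ := hnone
    exact ⟨hvQ, hvL, ⟨a, ha, hva⟩, a', ha', hva'⟩
  have hvT : Ms G (Lv G A Q) v ≠ T := fun h => hv (Or.inl ⟨hvN, h⟩)
  have hvne : (Ms G (Lv G A Q) v).Nonempty := hvN.2.2.1
  have hne : ∀ q ∈ NN G A Q, Ms G (Lv G A Q) q = T → v ≠ q := by
    rintro q _ hqT rfl
    exact hvT hqT
  by_cases hadj : G.Adj v u₀
  · have hdis : Disjoint (Ms G (Lv G A Q) v) T := by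
      rcases p2 v hvN u₀ hu₀ hadj with h | h
      · exact (hvT (h.trans hT)).elim
      · rwa [hT] at h
    left
    rintro q (hq | hq)
    · by_contra hcon
      rcases p1 v hvN q hq.1 (hne q hq.1 hq.2) hcon with h | h
      · rw [hq.2] at h
        obtain ⟨t, ht⟩ := hvne
        exact Set.disjoint_left.mp hdis ht (h ht)
      · rw [hq.2] at h
        exact Set.disjoint_left.mp hdis (h hbT) hbT
    · obtain ⟨hqZ, -, u, hu, huT, hqu⟩ := hq
      rcases z2 q hqZ u hu v hvN (by rw [huT]; exact hdis.symm) with h | h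
      · exact (hqu h).elim
      · exact h.symm
  · have hNq : ∀ q ∈ NN G A Q, Ms G (Lv G A Q) q = T →
        (Ms G (Lv G A Q) v ⊆ T ∨ T ⊆ Ms G (Lv G A Q) v) → ¬ G.Adj v q := by
      intro q hq hqT hsub h
      rcases p2 v hvN q hq h with h' | h'
      · exact hvT (h'.trans hqT)
      · rw [hqT] at h'
        rcases hsub with h'' | h''
        · obtain ⟨t, ht⟩ := hvne
          exact Set.disjoint_left.mp h' ht (h'' ht)
        · exact Set.disjoint_left.mp h' (h'' hbT) hbT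
    rcases p1 v hvN u₀ hu₀ (hne u₀ hu₀ hT) hadj with h | h
    · rw [hT] at h
      right; right
      rintro q (hq | hq)
      · exact ⟨fun h' => (hNq q hq.1 hq.2 (Or.inl h) h').elim,
          fun h' => (hbN q hq.1 hq.2 b hbT h').elim⟩
      · refine ⟨fun _ => hbZ q hq.1 b hbL, fun _ => ?_⟩
        obtain ⟨hqZ, ⟨u, hu, huT, hqu⟩, -⟩ := hq
        have hss : Ms G (Lv G A Q) v ⊂ Ms G (Lv G A Q) u := by
          rw [huT]
          exact Set.ssubset_iff_subset_ne.2 ⟨h, hvT⟩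
        exact (z3 q hqZ u hu v hvN hss hqu).symm
    · rw [hT] at h
      right; left
      rintro q (hq | hq) h'
      · exact hNq q hq.1 hq.2 (Or.inr h) h'
      · obtain ⟨hqZ, -, u, hu, huT, hqu⟩ := hq
        have hss : Ms G (Lv G A Q) u ⊂ Ms G (Lv G A Q) v := by
          rw [huT]
          exact Set.ssubset_iff_subset_ne.2 ⟨h, hvT.symm⟩
        exact hqu (z3 q hqZ v hvN u hu hss h'.symm)

end Pool.Agent.MPd439b2.H3T
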