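import Pool.Agent.Lib.MP_d439b2_co.X3.H3T.Spec

/-!
# MP_d439b2_co, X3/H3T/P6: the last piece
-/

set_option autoImplicit false

namespace Pool.Agent.MPd439b2.H3T

open Pool.Agent.MPd439b2 Pool.Agent.MPd439b2.LK Pool.Agent.MPd439b2.H3 Pool.Agent.MPd439b2.Rep

/-- a part of `Q` outside the first level, with the root extended by `a₁` -/
private theorem p6_sub {V : Type} {G : SimpleGraph V} {A Q Q' : Set V} {a₁ : V}
    (h : RP G A Q) (ha₁ : a₁ ∈ Lv G A Q) (hQ : Q' ⊆ Q) (hL : ∀ q ∈ Q', q ∉ Lv G A Q)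
    (hout : ∀ v ∈ Q, v ∉ Q' → (∀ q ∈ Q', G.Adj v q) ∨ (∀ q ∈ Q', ¬ G.Adj v q) ∨
      ∀ q ∈ Q', (G.Adj v q ↔ G.Adj a₁ q)) : RP G (insert a₁ A) Q' := by
  have haQ : a₁ ∉ Q' := fun h' => hL a₁ h' ha₁
  have hA : ∀ q ∈ Q', ∀ b ∈ A, ¬ G.Adj b q := fun q hq b hb hbq => hL q hq ⟨hQ hq, b, hb, hbq⟩
  have hLv : ∀ q ∈ Q', (q ∈ Lv G (insert a₁ A) Q' ↔ G.Adj a₁ q) := by
    intro q hq
    constructor
    · rintro ⟨-, b, hb, hbq⟩
      rcases hb with rfl | hb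
      · exact hbq
      · exact (hA q hq b hb hbq).elim
    · intro h'
      exact ⟨hq, a₁, Set.mem_insert _ _, h'⟩
  have hout' : ∀ v, v ∉ Q' → (∀ q ∈ Q', G.Adj v q) ∨ (∀ q ∈ Q', ¬ G.Adj v q) ∨
      ∀ q ∈ Q', (G.Adj v q ↔ q ∈ Lv G (insert a₁ A) Q') := by
    intro v hv
    by_cases hvQ : v ∈ Q
    · rcases hout v hvQ hv with h1 | h1 | h1
      · exact Or.inl h1
      · exact Or.inr (Or.inl h1)
      · exact Or.inr (Or.inr fun q hq => (h1 q hq).trans (hLv q hq).symm)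
    · rcases h.out v hvQ with h1 | h1 | h1
      · exact Or.inl fun q hq => h1 q (hQ hq)
      · exact Or.inr (Or.inl fun q hq => h1 q (hQ hq))
      · exact Or.inr (Or.inl fun q hq h2 => hL q hq ((h1 q (hQ hq)).mp h2))
  refine ⟨h.conn.insert ha₁.2, ?_, hout', ?_, ?_⟩
  · rw [Set.disjoint_left]
    intro b hb hbQ
    rcases hb with rfl | hb
    · exact haQ hbQ
    · exact Set.disjoint_left.mp h.dis hb (hQ hbQ)
  · intro R hR hconn w hw y hy z hz hwR hyR hzR hwy h1 h2 h3 h4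
    have hset : A ∪ insert a₁ R = insert a₁ A ∪ R := by
      ext v
      simp only [Set.mem_union, Set.mem_insert_iff]
      tauto
    have hne : ∀ v ∈ Q', v ∉ R → v ∉ insert a₁ R := by
      intro v hv hvR h'
      rcases h' with rfl | h'
      · exact haQ hv
      · exact hvR h'
    refine h.pp (insert a₁ R) (Set.insert_subset ha₁.1 (hR.trans hQ)) ?_ w (hQ hw) y (hQ hy) z
      (hQ hz) (hne w hw hwR) (hne y hy hyR) (hne z hz hzR) hwy ?_ ?_ ?_ h4
    · rw [hset]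
      exact hconn
    · rw [hset]
      exact h1
    · rw [hset]
      exact h2
    · rw [hset]
      exact h3
  · intro M hM hML hH
    refine h.mf M (hM.trans hQ) (Or.inr ?_) ?_
    · rw [Set.disjoint_left]
      exact fun v hv => hL v (hM hv)
    · intro v hv hvM
      by_cases hvQ : v ∈ Q'
      · exact hH v hvQ hvM
      · rcases hout' v hvQ with h1 | h1 | h1
        · exact Or.inl fun m hm => h1 m (hM hm)
        · exact Or.inr fun m hm => h1 m (hM hm)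
        · rcases hML with h2 | h2
          · exact Or.inl fun m hm => (h1 m (hM hm)).mpr (h2 hm)
          · exact Or.inr fun m hm h3 => Set.disjoint_left.mp h2 hm ((h1 m (hM hm)).mp h3)

theorem pfP6 : S_P1 → S_P2 → S_P3 → S_P6 := by
  rintro - h2 h3 V _ G A Q a hR haL
  obtain ⟨p1, p2, p3⟩ := h2 V G A Q hR
  obtain ⟨z1, z2, z3, z4⟩ := h3 V G A Q hR ⟨a, haL⟩
  have hbW : ∀ q ∈ WW G A Q, ∀ t ∈ Lv G A Q, ¬ G.Adj t q := fun q hq t ht h => hq.2.2 t ht h.symm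
  have hbZ : ∀ q ∈ ZZ G A Q, ∀ t ∈ Lv G A Q, G.Adj t q := fun q hq t ht => (hq.2.2 t ht).symm
  refine p6_sub hR haL ?_ ?_ ?_
  · rintro q (hq | hq)
    · exact hq.1
    · exact hq.1.1
  · rintro q (hq | hq)
    · exact hq.2.1
    · exact hq.1.2.1
  intro v hvQ hv
  right; right
  by_cases hvL : v ∈ Lv G A Q
  · rintro q (hq | hq)
    · exact ⟨fun h => (hbW q hq v hvL h).elim, fun h => (hbW q hq a haL h).elim⟩
    · exact ⟨fun _ => hbZ q hq.1 a haL, fun _ => hbZ q hq.1 v hvL⟩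
  by_cases hall : ∀ a ∈ Lv G A Q, G.Adj v a
  · have hvZ : v ∈ ZZ G A Q := ⟨hvQ, hvL, hall⟩
    have hmiss : ∃ u ∈ NN G A Q, ¬ G.Adj v u := by
      by_contra hcon
      push Not at hcon
      exact hv (Or.inr ⟨hvZ, hcon⟩)
    obtain ⟨u, hu, hvu⟩ := hmiss
    intro q hq
    rcases hq with hq' | hq'
    · exact ⟨fun h => (z4 v hvZ u hu hvu q hq' h).elim, fun h => (hbW q hq' a haL h).elim⟩
    · refine ⟨fun _ => hbZ q hq'.1 a haL, fun _ => z1 v hvZ q hq'.1 ?_⟩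
      rintro rfl
      exact hv (Or.inr hq')
  by_cases hnone : ∀ a ∈ Lv G A Q, ¬ G.Adj v a
  · exact (hv (Or.inl ⟨hvQ, hvL, hnone⟩)).elim
  have hvN : v ∈ NN G A Q := by
    push Not at hall hnone
    obtain ⟨a, ha, hva⟩ := hall
    obtain ⟨a', ha', hva'⟩ := hnone
    exact ⟨hvQ, hvL, ⟨a, ha, hva⟩, a', ha', hva'⟩
  rintro q (hq | hq)
  · exact ⟨fun h => (p3 v hvN q hq h).elim, fun h => (hbW q hq a haL h).elim⟩
  · exact ⟨fun _ => hbZ q hq.1 a haL, fun _ => (hq.2 v hvN).symm⟩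

end Pool.Agent.MPd439b2.H3T
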