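import Pool.Agent.Lib.MP_d439b2_co.X3.H3T.Spec

/-!
# MP_d439b2_co, X3/H3T: rooted pieces in linked graphs are small (S_P8)
-/

set_option autoImplicit false

namespace Pool.Agent.MPd439b2.H3T

open Pool.Agent.MPd439b2 Pool.Agent.MPd439b2.LK Pool.Agent.MPd439b2.H3 Pool.Agent.MPd439b2.Rep

namespace P8aux

section

variable {V : Type} {G : SimpleGraph V} {A Q : Set V}

theorem xx_mono {S T : Set V} (h : S ⊆ T) : XX G A Q S ⊆ XX G A Q T := by
  rintro v (hv | ⟨hv, hm⟩ | ⟨hv, u, hu, hm, hn⟩)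
  · exact Or.inl (h hv)
  · exact Or.inr (Or.inl ⟨hv, hm.trans h⟩)
  · exact Or.inr (Or.inr ⟨hv, u, hu, hm.trans h, hn⟩)

theorem ms_ne {u : V} (hu : u ∈ NN G A Q) : (Ms G (Lv G A Q) u).Nonempty := hu.2.2.1

theorem xx_empty : XX G A Q ∅ = ∅ := by
  apply Set.eq_empty_of_forall_notMem
  rintro v (hv | ⟨hv, hm⟩ | ⟨_, u, hu, hm, _⟩)
  · exact hv
  · obtain ⟨x, hx⟩ := ms_ne hv
    exact hm hx
  · obtain ⟨x, hx⟩ := ms_ne hu
    exact hm hx

theorem ms_sub (u : V) : Ms G (Lv G A Q) u ⊆ Lv G A Q := fun _ hx => hx.1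

/-- nested or disjoint -/
theorem nd [Finite V] (h2 : S_P2) (h : RP G A Q) {u v : V} (hu : u ∈ NN G A Q)
    (hv : v ∈ NN G A Q) :
    Ms G (Lv G A Q) u ⊆ Ms G (Lv G A Q) v ∨ Ms G (Lv G A Q) v ⊆ Ms G (Lv G A Q) u ∨
      Disjoint (Ms G (Lv G A Q) u) (Ms G (Lv G A Q) v) := by
  obtain ⟨h21, h22, -⟩ := h2 V G A Q h
  by_cases huv : u = v
  · subst huv; exact Or.inl subset_rfl
  by_cases ha : G.Adj u v
  · rcases h22 u hu v hv ha with e | e
    · exact Or.inl e.subset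
    · exact Or.inr (Or.inr e)
  · rcases h21 u hu v hv huv ha with e | e
    · exact Or.inl e
    · exact Or.inr (Or.inl e)

/-- the maximal missed sets strictly inside `S` -/
def CC (G : SimpleGraph V) (A Q S : Set V) : Set (Set V) :=
  {C | (∃ u ∈ NN G A Q, Ms G (Lv G A Q) u = C) ∧ C ⊂ S ∧
    ∀ u ∈ NN G A Q, Ms G (Lv G A Q) u ⊂ S → C ⊆ Ms G (Lv G A Q) u → Ms G (Lv G A Q) u = C}

theorem cc_cover [Finite V] {S : Set V} {u : V} (hu : u ∈ NN G A Q)
    (hS : Ms G (Lv G A Q) u ⊂ S) : ∃ C ∈ CC G A Q S, Ms G (Lv G A Q) u ⊆ C := by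
  obtain ⟨w, ⟨hw1, hw2, hw3⟩, hmax⟩ := Set.exists_max_image
    {w | w ∈ NN G A Q ∧ Ms G (Lv G A Q) w ⊂ S ∧ Ms G (Lv G A Q) u ⊆ Ms G (Lv G A Q) w}
    (fun w => (Ms G (Lv G A Q) w).ncard) (Set.toFinite _) ⟨u, hu, hS, subset_rfl⟩
  refine ⟨Ms G (Lv G A Q) w, ⟨⟨w, hw1, rfl⟩, hw2, ?_⟩, hw3⟩
  intro v hv hv2 hv3
  have := hmax v ⟨hv, hv2, hw3.trans hv3⟩
  exact (Set.eq_of_subset_of_ncard_le hv3 this (Set.toFinite _)).symm

theorem cc_eq [Finite V] (h2 : S_P2) (h : RP G A Q) {S C C' : Set V} (hC : C ∈ CC G A Q S)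
    (hC' : C' ∈ CC G A Q S) {x : V} (hx : x ∈ C) (hx' : x ∈ C') : C = C' := by
  obtain ⟨⟨u, hu, rfl⟩, hs, hm⟩ := hC
  obtain ⟨⟨v, hv, rfl⟩, hs', hm'⟩ := hC'
  rcases nd h2 h hu hv with e | e | e
  · exact (hm v hv hs' e).symm
  · exact hm' u hu hs e
  · exact (Set.disjoint_left.1 e hx hx').elim

theorem cc_sub {S : Set V} {I : Set (Set V)} (hI : I ⊆ CC G A Q S) : ⋃₀ I ⊆ S := by
  rintro x ⟨C, hC, hx⟩
  exact (hI hC).2.1.subset hx

theorem cc_gd [Finite V] (h2 : S_P2) (h : RP G A Q) {S : Set V} (hS : Gd G A Q S)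
    {I : Set (Set V)} (hI : I ⊆ CC G A Q S) : Gd G A Q (⋃₀ I) := by
  refine ⟨(cc_sub hI).trans hS.1, fun v hv => ?_⟩
  rcases hS.2 v hv with e | e | e
  · by_cases hvS : Ms G (Lv G A Q) v = S
    · right; right; rw [hvS]; exact cc_sub hI
    · obtain ⟨C, hC, hvC⟩ := cc_cover hv (lt_of_le_of_ne e hvS)
      by_cases hCI : C ∈ I
      · left; exact hvC.trans (Set.subset_sUnion_of_mem hCI)
      · right; left
        rw [Set.disjoint_left]
        rintro x hx ⟨C', hC', hx'⟩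
        have := cc_eq h2 h hC (hI hC') (hvC hx) hx'
        exact hCI (this ▸ hC')
  · right; left
    exact e.mono_right (cc_sub hI)
  · right; right
    exact (cc_sub hI).trans e

theorem cc_in [Finite V] (h2 : S_P2) (h : RP G A Q) {S : Set V} {I : Set (Set V)}
    (hI : I ⊆ CC G A Q S) {u : V} (hu : u ∈ NN G A Q) (hS : Ms G (Lv G A Q) u ⊂ S)
    (hs : Ms G (Lv G A Q) u ⊆ ⋃₀ I) : ∃ C ∈ I, Ms G (Lv G A Q) u ⊆ C := by
  obtain ⟨C, hC, huC⟩ := cc_cover hu hS
  obtain ⟨x, hx⟩ := ms_ne hu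
  obtain ⟨C', hC', hx'⟩ := hs hx
  have := cc_eq h2 h hC (hI hC') (huC hx) hx'
  exact ⟨C, this ▸ hC', huC⟩

theorem ss_card {s : Set V} (h : s.Subsingleton) : s.ncard ≤ 1 := by
  rcases h.eq_empty_or_singleton with e | ⟨x, e⟩
  · rw [e, Set.ncard_empty]; omega
  · rw [e, Set.ncard_singleton]

theorem cover_L {v : V} (hv : v ∈ Q) : v ∈ XX G A Q (Lv G A Q) ∨ v ∈ QI G A Q := by
  by_cases hL : v ∈ Lv G A Q
  · exact Or.inl (Or.inl hL)
  by_cases hall : ∀ a ∈ Lv G A Q, G.Adj v a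
  · have hz : v ∈ ZZ G A Q := ⟨hv, hL, hall⟩
    by_cases hN : ∀ u ∈ NN G A Q, G.Adj v u
    · exact Or.inr (Or.inr ⟨hz, hN⟩)
    · push Not at hN
      obtain ⟨u, hu, hn⟩ := hN
      exact Or.inl (Or.inr (Or.inr ⟨hz, u, hu, ms_sub u, hn⟩))
  · by_cases hno : ∀ a ∈ Lv G A Q, ¬ G.Adj v a
    · exact Or.inr (Or.inl ⟨hv, hL, hno⟩)
    · push Not at hall hno
      obtain ⟨a, ha, hna⟩ := hall
      obtain ⟨b, hb, hab⟩ := hno
      have : v ∈ NN G A Q := ⟨hv, hL, ⟨a, ha, hna⟩, b, hb, hab⟩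
      exact Or.inl (Or.inr (Or.inl ⟨this, ms_sub v⟩))

theorem qi_sub {v : V} (hv : v ∈ QI G A Q) : v ∈ Q ∧ v ∉ Lv G A Q := by
  rcases hv with h | h
  · exact ⟨h.1, h.2.1⟩
  · exact ⟨h.1.1, h.1.2.1⟩

theorem qt_sub {T : Set V} {v : V} (hv : v ∈ QT G A Q T) : v ∈ Q ∧ v ∉ Lv G A Q := by
  rcases hv with h | h
  · exact ⟨h.1.1, h.1.2.1⟩
  · exact ⟨h.1.1, h.1.2.1⟩

theorem qt_node {T : Set V} {v : V} (hv : v ∈ QT G A Q T) :
    ∃ u ∈ NN G A Q, Ms G (Lv G A Q) u = T := by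
  rcases hv with h | h
  · exact ⟨v, h.1, h.2⟩
  · obtain ⟨u, hu, e, -⟩ := h.2.1
    exact ⟨u, hu, e⟩

end

theorem key (h2 : S_P2) (h4 : S_P4) (h5 : S_P5) (h6 : S_P6) (h7 : S_P7) {V : Type} [Finite V]
    (G : SimpleGraph V) (B : ℕ) (hcut : ∀ X : Set V, cr G X ≤ 2 → X.ncard ≤ B ∨ Xᶜ.ncard ≤ B)
    (hn : 4 * B + 9 ≤ Nat.card V) :
    ∀ (k : ℕ) (A Q : Set V), Q.ncard ≤ k → RP G A Q → Qᶜ.ncard ≤ B → False := by
  have hadd : ∀ X : Set V, X.ncard + Xᶜ.ncard = Nat.card V := fun X =>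
    Set.ncard_add_ncard_compl X
  intro k
  induction k with
  | zero =>
    intro A Q hk _ hB
    have := hadd Q
    omega
  | succ k ih =>
    intro A Q hk h hB
    have hQ := hadd Q
    -- a sub-piece avoiding a vertex of `Q` cannot be big
    have small : ∀ (A' Q' : Set V) (a : V), RP G A' Q' → Q' ⊆ Q → a ∈ Q → a ∉ Q' →
        Q'.ncard ≤ B := by
      intro A' Q' a hr hs ha hna
      rcases hcut Q' (h4 V G A' Q' hr).1 with e | e
      · exact e
      · exfalso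
        refine ih A' Q' ?_ hr e
        have hlt : Q'.ncard < Q.ncard := Set.ncard_lt_ncard
          ((Set.ssubset_iff_of_subset hs).2 ⟨a, ha, hna⟩) (Set.toFinite _)
        omega
    have hLne : (Lv G A Q).Nonempty := by
      by_contra hne
      rw [Set.not_nonempty_iff_eq_empty] at hne
      have hsub := h.mf Q subset_rfl (Or.inr (by rw [hne]; exact Set.disjoint_empty Q))
        (fun v hv hnv => (hnv hv).elim)
      have := ss_card hsub
      omega
    obtain ⟨a, ha⟩ := hLne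
    have hQI : (QI G A Q).ncard ≤ B :=
      small (insert a A) (QI G A Q) a (h6 V G A Q a h ha) (fun v hv => (qi_sub hv).1) ha.1
        (fun hq => (qi_sub hq).2 ha)
    have hGL : Gd G A Q (Lv G A Q) := ⟨subset_rfl, fun u _ => Or.inl (ms_sub u)⟩
    have hXL : (XX G A Q (Lv G A Q))ᶜ.ncard ≤ B := by
      rcases hcut _ ((h4 V G A Q h).2 _ hGL) with e | e
      · exfalso
        have h1 : Q ⊆ XX G A Q (Lv G A Q) ∪ QI G A Q := fun v hv => cover_L hv
        have h3 := Set.ncard_le_ncard h1 (Set.toFinite _)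
        have h4' := Set.ncard_union_le (XX G A Q (Lv G A Q)) (QI G A Q)
        omega
      · exact e
    obtain ⟨S, ⟨hSg, hSb⟩, hmin⟩ := Set.exists_min_image
      {S | Gd G A Q S ∧ (XX G A Q S)ᶜ.ncard ≤ B} Set.ncard (Set.toFinite _) ⟨_, hGL, hXL⟩
    have hSne : S.Nonempty := by
      by_contra hne
      rw [Set.not_nonempty_iff_eq_empty] at hne
      rw [hne, xx_empty, Set.compl_empty, Set.ncard_univ] at hSb
      omega
    obtain ⟨b, hb⟩ := hSne
    have hbL : b ∈ Lv G A Q := hSg.1 hb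
    obtain ⟨hB0, hZ0, hcov⟩ := h7 V G A Q S h hSg
    -- the main estimate
    have hest : (XX G A Q S \ QT G A Q S).ncard ≤ 2 * B + 2 := by
      obtain ⟨I, ⟨hI1, hI2⟩, hImax⟩ := Set.exists_max_image
        {I : Set (Set V) | I ⊆ CC G A Q S ∧ (XX G A Q (⋃₀ I)).ncard ≤ B} Set.ncard
        (Set.toFinite _) ⟨∅, Set.empty_subset _, by
          rw [Set.sUnion_empty, xx_empty, Set.ncard_empty]; omega⟩
      by_cases hIC : CC G A Q S ⊆ I
      · have h1 : XX G A Q S \ QT G A Q S ⊆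
            (B0 G A Q S ∪ Z0 G A Q S) ∪ XX G A Q (⋃₀ I) := by
          rintro v ⟨hv, hvQ⟩
          rcases hcov v hv with e | e | e | ⟨u, hu, hus, huv⟩
          · exact Or.inl (Or.inl e)
          · exact Or.inl (Or.inr e)
          · exact (hvQ e).elim
          · obtain ⟨C, hC, huC⟩ := cc_cover hu hus
            exact Or.inr (xx_mono (huC.trans (Set.subset_sUnion_of_mem (hIC hC))) huv)
        have a1 := Set.ncard_le_ncard h1 (Set.toFinite _)
        have a2 := Set.ncard_union_le (B0 G A Q S ∪ Z0 G A Q S) (XX G A Q (⋃₀ I))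
        have a3 := Set.ncard_union_le (B0 G A Q S) (Z0 G A Q S)
        have a4 := ss_card hB0
        have a5 := ss_card hZ0
        omega
      · rw [Set.not_subset] at hIC
        obtain ⟨C, hC, hCI⟩ := hIC
        have hJ : insert C I ⊆ CC G A Q S := Set.insert_subset hC hI1
        have hJbig : ¬ (XX G A Q (⋃₀ insert C I)).ncard ≤ B := by
          intro hle
          have := hImax (insert C I) ⟨hJ, hle⟩
          rw [Set.ncard_insert_of_notMem hCI (Set.toFinite _)] at this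
          omega
        have hJg := cc_gd h2 h hSg hJ
        have hJb : (XX G A Q (⋃₀ insert C I))ᶜ.ncard ≤ B :=
          (hcut _ ((h4 V G A Q h).2 _ hJg)).resolve_left hJbig
        have hSJ : ⋃₀ insert C I = S :=
          Set.eq_of_subset_of_ncard_le (cc_sub hJ) (hmin _ ⟨hJg, hJb⟩) (Set.toFinite _)
        have hCg : Gd G A Q C := by
          have := cc_gd h2 h hSg (Set.singleton_subset_iff.2 hC)
          rwa [Set.sUnion_singleton] at this
        have hCs : (XX G A Q C).ncard ≤ B := by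
          rcases hcut _ ((h4 V G A Q h).2 _ hCg) with e | e
          · exact e
          · exfalso
            have h1 := hmin C ⟨hCg, e⟩
            have h3 := Set.ncard_lt_ncard hC.2.1 (Set.toFinite _)
            omega
        have h1 : XX G A Q S \ QT G A Q S ⊆
            (B0 G A Q S ∪ Z0 G A Q S) ∪ (XX G A Q (⋃₀ I) ∪ XX G A Q C) := by
          rintro v ⟨hv, hvQ⟩
          rcases hcov v hv with e | e | e | ⟨u, hu, hus, huv⟩
          · exact Or.inl (Or.inl e)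
          · exact Or.inl (Or.inr e)
          · exact (hvQ e).elim
          · obtain ⟨C', hC', huC⟩ := cc_in h2 h hJ hu hus (by rw [hSJ]; exact hus.subset)
            rcases hC' with e | e
            · subst e
              exact Or.inr (Or.inr (xx_mono huC huv))
            · exact Or.inr (Or.inl (xx_mono (huC.trans (Set.subset_sUnion_of_mem e)) huv))
        have a1 := Set.ncard_le_ncard h1 (Set.toFinite _)
        have a2 := Set.ncard_union_le (B0 G A Q S ∪ Z0 G A Q S)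
          (XX G A Q (⋃₀ I) ∪ XX G A Q C)
        have a3 := Set.ncard_union_le (B0 G A Q S) (Z0 G A Q S)
        have a4 := ss_card hB0
        have a5 := ss_card hZ0
        have a6 := Set.ncard_union_le (XX G A Q (⋃₀ I)) (XX G A Q C)
        omega
    have hXS := hadd (XX G A Q S)
    have hQT : B < (QT G A Q S).ncard := by
      have h1 : XX G A Q S ⊆ (XX G A Q S \ QT G A Q S) ∪ QT G A Q S := by
        intro v hv
        by_cases hq : v ∈ QT G A Q S
        · exact Or.inr hq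
        · exact Or.inl ⟨hv, hq⟩
      have a1 := Set.ncard_le_ncard h1 (Set.toFinite _)
      have a2 := Set.ncard_union_le (XX G A Q S \ QT G A Q S) (QT G A Q S)
      omega
    have hne : (QT G A Q S).Nonempty := by
      apply Set.nonempty_of_ncard_ne_zero
      omega
    obtain ⟨v, hv⟩ := hne
    have := small (insert b A) (QT G A Q S) b (h5 V G A Q S b h hb (qt_node hv))
      (fun v hv => (qt_sub hv).1) hbL.1 (fun hq => (qt_sub hq).2 hbL)
    omega

end P8aux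

theorem pfP8 : S_P2 → S_P4 → S_P5 → S_P6 → S_P7 → S_P8 := by
  intro h2 h4 h5 h6 h7 V _ G B hcut A Q hRP hQ
  by_contra hcon
  exact P8aux.key h2 h4 h5 h6 h7 G B hcut (by omega) Q.ncard A Q le_rfl hRP hQ

end Pool.Agent.MPd439b2.H3T
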