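import Pool.Agent.Lib.MP_d439b2_co.X3.H3T.Spec

/-!
# MP_d439b2_co, H3T: the contradiction (Qf)
-/

set_option autoImplicit false

namespace Pool.Agent.MPd439b2.H3T

open Pool.Agent.MPd439b2 Pool.Agent.MPd439b2.LK Pool.Agent.MPd439b2.H3 Pool.Agent.MPd439b2.Rep

namespace QfAux

theorem ex_out {n : ℕ} (S : Set (Fin n)) (h : S.ncard < n) : ∃ m, m ∉ S := by
  by_contra hcon
  push Not at hcon
  have h1 : S = Set.univ := Set.eq_univ_of_forall hcon
  rw [h1, Set.ncard_univ, Nat.card_eq_fintype_card, Fintype.card_fin] at h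
  omega

theorem key (hB : S_B) (hZ : S_Zc) (V : Type) [Finite V] (G : SimpleGraph V) (n : ℕ)
    (x c : Fin n → V) (hn : 9 ≤ n) (hF : Fr3 G) (hS : Spi G x c) (hFl : Fl G x c = ∅)
    (h0 : (∀ i j, x i = x j → i = j) ∧ (∀ i j, c i = c j → i = j) ∧ ∀ i j, x i ≠ c j)
    (A B : Set V) (hA : Conn G A) (hAd : Disjoint A (SpV x c)) (hBc : Conn G B)
    (hBd : Disjoint B (SpV x c)) (i j a : Fin n) (hij : i ≠ j) (hai : a ≠ i) (haj : a ≠ j)
    (hAi : Tch G A {c i}) (hBj : Tch G B {c j}) (hconn : Conn G (A ∪ B ∪ {x a, c a})) : False := by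
  have hA2 : {l | Tch G A {c l}}.ncard ≤ 2 :=
    hZ V G n x c (by omega) hF hS A hA hAd (by rw [hFl]; exact Set.disjoint_empty A)
  have hB2 : {l | Tch G B {c l}}.ncard ≤ 2 :=
    hZ V G n x c (by omega) hF hS B hBc hBd (by rw [hFl]; exact Set.disjoint_empty B)
  obtain ⟨m, hm⟩ := ex_out ({l | Tch G A {c l}} ∪ {l | Tch G B {c l}} ∪ {a}) (by
    have h1 := Set.ncard_union_le ({l | Tch G A {c l}} ∪ {l | Tch G B {c l}}) {a}
    have h2 := Set.ncard_union_le {l | Tch G A {c l}} {l | Tch G B {c l}}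
    rw [Set.ncard_singleton] at h1
    omega)
  simp only [Set.mem_union, Set.mem_setOf_eq, Set.mem_singleton_iff, not_or] at hm
  obtain ⟨⟨hmA, hmB⟩, hma⟩ := hm
  have him : i ≠ m := fun h => hmA (h ▸ hAi)
  have hjm : j ≠ m := fun h => hmB (h ▸ hBj)
  have hx : ∀ k, k ≠ a → x k ∉ A ∪ B ∪ {x a, c a} ∧ c k ∉ A ∪ B ∪ {x a, c a} := by
    intro k hk
    constructor
    · rintro ((h | h) | h)
      · exact Set.disjoint_left.1 hAd h (Or.inl ⟨k, rfl⟩)
      · exact Set.disjoint_left.1 hBd h (Or.inl ⟨k, rfl⟩)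
      · rcases h with h | h
        · exact hk (h0.1 _ _ h)
        · exact h0.2.2 _ _ h
    · rintro ((h | h) | h)
      · exact Set.disjoint_left.1 hAd h (Or.inr ⟨k, rfl⟩)
      · exact Set.disjoint_left.1 hBd h (Or.inr ⟨k, rfl⟩)
      · rcases h with h | h
        · exact h0.2.2 _ _ h.symm
        · exact hk (h0.2.1 _ _ h)
  have hT := hB V G n x c (by omega) hF hS i j m (A ∪ B ∪ {x a, c a}) hij him hjm hconn
    (by
      rintro k (rfl | rfl | rfl)
      · exact hx k (fun h => hai h.symm)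
      · exact hx k (fun h => haj h.symm)
      · exact hx k hma)
    (Tch.of_adj (hS.xx a i hai) (Or.inr (Or.inl rfl)) rfl)
    (Tch.of_adj (hS.xx a j haj) (Or.inr (Or.inl rfl)) rfl)
    (hAi.mono (fun z hz => Or.inl (Or.inl hz)) subset_rfl)
    (hBj.mono (fun z hz => Or.inl (Or.inr hz)) subset_rfl)
  obtain ⟨z, hz, w, hw, hzw⟩ := hT
  rw [Set.mem_singleton_iff] at hw
  subst hw
  rcases hz with (hz | hz) | hz
  · exact hmA ⟨z, hz, _, rfl, hzw⟩
  · exact hmB ⟨z, hz, _, rfl, hzw⟩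
  · rcases hz with hz | hz
    · rw [hz] at hzw
      exact hma ((hS.xc a m).1 hzw).symm
    · rw [Set.mem_singleton_iff] at hz
      rw [hz] at hzw
      exact hS.cc a m hzw

theorem pair_conn (V : Type) (G : SimpleGraph V) (n : ℕ) (x c : Fin n → V) (hS : Spi G x c)
    (a : Fin n) : Conn G {x a, c a} := Conn.pair ((hS.xc a a).2 rfl)

end QfAux

open QfAux in
theorem pfQf : S_D0 → S_B → S_Zc → S_E → S_Qf := by
  intro hD hB hZ hE V _ G n x c hn hF hS hFl R hR
  have h0 := hD V G n x c (by omega) hS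
  -- the sets `A i` are disjoint
  have hdis : ∀ i j a, i ≠ j → a ≠ i → a ≠ j → Tch G (R i) {x a, c a} → Tch G (R j) {x a, c a} →
      False := by
    intro i j a hij hai haj h1 h2
    refine key hB hZ V G n x c hn hF hS hFl h0 (R i) (R j) (hR i).1 (hR i).2.1 (hR j).1 (hR j).2.1
      i j a hij hai haj (hR i).2.2.1 (hR j).2.2.1 ?_
    have c1 : Conn G (R i ∪ {x a, c a}) := (hR i).1.union (pair_conn V G n x c hS a) (Or.inr h1)
    have c2 : Conn G (R j ∪ {x a, c a}) := (hR j).1.union (pair_conn V G n x c hS a) (Or.inr h2)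
    have c3 := c1.union c2 (Or.inl ⟨x a, Or.inr (Or.inl rfl), Or.inr (Or.inl rfl)⟩)
    have he : R i ∪ {x a, c a} ∪ (R j ∪ {x a, c a}) = R i ∪ R j ∪ {x a, c a} := by
      ext z
      simp only [Set.mem_union]
      tauto
    rw [he] at c3
    exact c3
  choose g hg using fun i => (hR i).2.2.2
  have hginj : Function.Injective g := by
    intro i j hij
    by_contra hne
    exact hdis i j (g i) hne (hg i).1 (hij ▸ (hg j).1) (hg i).2 (hij ▸ (hg j).2)
  have hgsurj : Function.Surjective g := Finite.injective_iff_surjective.1 hginj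
  have huniq : ∀ i b, b ≠ i → Tch G (R i) {x b, c b} → b = g i := by
    intro i b hbi hT
    obtain ⟨j, rfl⟩ := hgsurj b
    by_cases hij : i = j
    · rw [hij]
    · exact (hdis i j (g j) hij hbi (hg j).1 hT (hg j).2).elim
  -- the indices
  have i : Fin n := ⟨0, by omega⟩
  obtain ⟨i', hi'⟩ := hgsurj i
  obtain ⟨j, hj⟩ := ex_out ({i, g i, i'} : Set (Fin n)) (by
    have h1 := Set.ncard_insert_le i {g i, i'}
    have h2 := Set.ncard_insert_le (g i) {i'}
    rw [Set.ncard_singleton] at h2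
    omega)
  simp only [Set.mem_insert_iff, Set.mem_singleton_iff, not_or] at hj
  obtain ⟨hji, hjg, hji'⟩ := hj
  have hgji : g j ≠ i := by
    intro h
    apply hji'
    apply hginj
    rw [h, hi']
  obtain ⟨m, hm⟩ := ex_out ({i, g i, j, g j} : Set (Fin n)) (by
    have h1 := Set.ncard_insert_le i {g i, j, g j}
    have h2 := Set.ncard_insert_le (g i) {j, g j}
    have h3 := Set.ncard_insert_le j {g j}
    rw [Set.ncard_singleton] at h3
    omega)
  simp only [Set.mem_insert_iff, Set.mem_singleton_iff, not_or] at hm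
  obtain ⟨hmi, hmg, hmj, hmgj⟩ := hm
  have hgij : g i ≠ g j := fun h => hji (hginj h).symm
  have hfar : ¬ ((R i ∩ R j).Nonempty ∨ Tch G (R i) (R j)) := by
    intro h
    refine key hB hZ V G n x c hn hF hS hFl h0 (R i) (R j) (hR i).1 (hR i).2.1 (hR j).1 (hR j).2.1
      i j (g i) (fun h => hji h.symm) (hg i).1 (fun h => hjg h.symm) (hR i).2.2.1 (hR j).2.2.1 ?_
    have c1 : Conn G (R i ∪ R j) := (hR i).1.union (hR j).1 h
    exact c1.union (pair_conn V G n x c hS (g i))
      (Or.inr ((hg i).2.mono Set.subset_union_left subset_rfl))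
  have hdj : Disjoint (R i) (R j) := by
    rw [Set.disjoint_iff_inter_eq_empty, ← Set.not_nonempty_iff_eq_empty]
    exact fun h => hfar (Or.inl h)
  refine hE V G n x c (by omega) hF hS ![i, g i, j, g j, m] (R i) (R j) ?_ (hR i).1 (hR j).1
    (hR i).2.1 (hR j).2.1 hdj (fun h => hfar (Or.inr h)) (hR i).2.2.1 (hg i).2 ?_
    (hR j).2.2.1 (hg j).2 ?_
  · have h1 : i ≠ g i := fun h => (hg i).1 h.symm
    have h2 : j ≠ g j := fun h => (hg j).1 h.symm
    intro s t hst
    fin_cases s <;> fin_cases t <;> first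
      | rfl
      | (exfalso; revert hst; simp; try tauto)
  · intro k hk1 hk2 hT
    exact hk2 (huniq i k hk1 hT)
  · intro k hk1 hk2 hT
    exact hk2 (huniq j k hk1 hT)

end Pool.Agent.MPd439b2.H3T
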