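import Pool.Agent.Lib.MP_d439b2_co.X3.H3T.Spec

/-!
# MP_d439b2_co, group (X), `H3`: without splits every leg of a spider has an exit
-/

set_option autoImplicit false

namespace Pool.Agent.MPd439b2.H3T

open Pool.Agent.MPd439b2 Pool.Agent.MPd439b2.LK Pool.Agent.MPd439b2.H3 Pool.Agent.MPd439b2.Rep

namespace RAux

variable {V : Type} {G : SimpleGraph V}

/-- two other indices -/
theorem two_others {n : ℕ} (hn : 3 ≤ n) (i : Fin n) : ∃ j k : Fin n, j ≠ i ∧ k ≠ i ∧ j ≠ k := by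
  have h0 : 0 < n := by omega
  have h1 : 1 < n := by omega
  have h2 : 2 < n := by omega
  by_cases e0 : i.val = 0
  · refine ⟨⟨1, h1⟩, ⟨2, h2⟩, ?_, ?_, ?_⟩
    · intro h
      have := congrArg Fin.val h
      simp at this
      omega
    · intro h
      have := congrArg Fin.val h
      simp at this
      omega
    · intro h
      have := congrArg Fin.val h
      simp at this
  · by_cases e1 : i.val = 1
    · refine ⟨⟨0, h0⟩, ⟨2, h2⟩, ?_, ?_, ?_⟩
      · intro h
        have := congrArg Fin.val h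
        simp at this
        omega
      · intro h
        have := congrArg Fin.val h
        simp at this
        omega
      · intro h
        have := congrArg Fin.val h
        simp at this
    · refine ⟨⟨0, h0⟩, ⟨1, h1⟩, ?_, ?_, ?_⟩
      · intro h
        have := congrArg Fin.val h
        simp at this
        omega
      · intro h
        have := congrArg Fin.val h
        simp at this
        omega
      · intro h
        have := congrArg Fin.val h
        simp at this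

theorem two_le [Finite V] {A : Set V} {u v : V} (hu : u ∈ A) (hv : v ∈ A) (h : u ≠ v) :
    2 ≤ A.ncard := by
  have h1 : ({u, v} : Set V).ncard = 2 := Set.ncard_pair h
  rw [← h1]
  refine Set.ncard_le_ncard ?_ (Set.toFinite _)
  intro w hw
  rcases hw with rfl | rfl
  · exact hu
  · exact hv

/-- the first case -/
theorem case1 [Finite V] {n : ℕ} {x c : Fin n → V} (hn : 3 ≤ n)
    (hd : (∀ i j, x i = x j → i = j) ∧ (∀ i j, c i = c j → i = j) ∧ ∀ i j, x i ≠ c j)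
    (hS : SPo G Set.univ) (i : Fin n) {K : Set V} (hK : K ⊆ {x i}ᶜ) (hc : c i ∈ K)
    (hnb : ∀ u ∈ ({x i}ᶜ : Set V), u ∉ nb G K) :
    ∃ s ∈ K, s ∈ SpV x c \ {x i, c i} := by
  by_contra hcon
  push Not at hcon
  obtain ⟨j, k, hj, hk, hjk⟩ := two_others hn i
  have hx : ∀ l, l ≠ i → x l ∉ insert (x i) K := by
    intro l hl hm
    rcases hm with hm | hm
    · exact hl (hd.1 _ _ hm)
    · refine hcon _ hm ⟨Or.inl ⟨l, rfl⟩, ?_⟩
      rintro (h | h)
      · exact hl (hd.1 _ _ h)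
      · exact hd.2.2 _ _ h
  refine hS (insert (x i) K) (Set.subset_univ _)
    (two_le (Set.mem_insert _ _) (Set.mem_insert_of_mem _ hc) (hd.2.2 i i))
    (two_le (u := x j) (v := x k) ⟨Set.mem_univ _, hx j hj⟩ ⟨Set.mem_univ _, hx k hk⟩
      (fun h => hjk (hd.1 _ _ h))) ?_
  refine ⟨{x i}, Set.singleton_subset_iff.2 (Set.mem_insert _ _),
    {b | b ∉ insert (x i) K ∧ G.Adj (x i) b}, ?_, ?_⟩
  · intro b hb
    exact ⟨Set.mem_univ _, hb.1⟩
  · intro a ha b hb
    constructor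
    · intro hab
      rcases ha with rfl | ha
      · exact ⟨rfl, hb.2, hab⟩
      · exfalso
        refine hnb b ?_ ⟨fun h => hb.2 (Set.mem_insert_of_mem _ h), a, ha, hab⟩
        intro h
        exact hb.2 (Or.inl h)
    · rintro ⟨h1, h2⟩
      rw [Set.mem_singleton_iff] at h1
      rw [h1]
      exact h2.2

/-- the elements of the rest of the spider -/
theorem rest {n : ℕ} {x c : Fin n → V} {i : Fin n} {s : V} (hs : s ∈ SpV x c \ {x i, c i}) :
    ∃ j, j ≠ i ∧ (s = x j ∨ s = c j) := by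
  obtain ⟨h1, h2⟩ := hs
  rcases h1 with ⟨j, rfl⟩ | ⟨j, rfl⟩
  · refine ⟨j, ?_, Or.inl rfl⟩
    rintro rfl
    exact h2 (Or.inl rfl)
  · refine ⟨j, ?_, Or.inr rfl⟩
    rintro rfl
    exact h2 (Or.inr rfl)

/-- a proper connected subset has a neighbour -/
theorem step {K Q : Set V} (hK : Conn G K) (hQ : Q ⊆ K) (hne : Q.Nonempty) {s : V} (hs : s ∈ K)
    (hsQ : s ∉ Q) : ∃ q ∈ Q, ∃ t ∈ K, t ∉ Q ∧ G.Adj q t := by
  obtain ⟨q, hq, t, ht, hqt⟩ := hK.2 Q hQ hne (fun h => hsQ (h ▸ hs))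
  exact ⟨q, hq, t, ht.1, ht.2, hqt⟩

end RAux

open RAux in
theorem pfR : S_D0 → S_R := by
  intro hD0 V _ G n x c hn hsp hS i
  have hd := hD0 V G n x c hn hsp
  have hci : c i ∈ ({x i}ᶜ : Set V) := fun h => hd.2.2 i i (Set.mem_singleton_iff.1 h).symm
  obtain ⟨K, hK, hcK, hKc, hKn⟩ := exists_comp G hci
  obtain ⟨s₀, hs₀K, hs₀⟩ := case1 hn hd hS i hK hcK hKn
  have hciQ : c i ∈ K \ (SpV x c \ {x i, c i}) := ⟨hcK, fun h => h.2 (Or.inr rfl)⟩
  obtain ⟨Q, hQ, hcQ, hQc, hQn⟩ := exists_comp G hciQ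
  obtain ⟨q, hq, s, hsK, hsQ, hqs⟩ := step hKc (fun v hv => (hQ hv).1) ⟨_, hcQ⟩ hs₀K
    (fun h => (hQ h).2 hs₀)
  have hsS : s ∈ SpV x c \ {x i, c i} := by
    by_contra h
    exact hQn s ⟨hsK, h⟩ ⟨hsQ, q, hq, hqs⟩
  obtain ⟨j, hj, hsj⟩ := rest hsS
  have hqc : q ≠ c i := by
    rintro rfl
    rcases hsj with rfl | rfl
    · exact hj ((hsp.xc j i).1 hqs.symm)
    · exact hsp.cc i j hqs
  have hqR : q ∈ Q \ {c i} := ⟨hq, hqc⟩
  obtain ⟨R, hR, hqR', hRc, hRn⟩ := exists_comp G hqR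
  obtain ⟨r, hr, t, htQ, htR, hrt⟩ := step hQc (fun v hv => (hR hv).1) ⟨_, hqR'⟩ hcQ
    (fun h => (hR h).2 rfl)
  have htc : t = c i := by
    by_contra h
    exact hRn t ⟨htQ, h⟩ ⟨htR, r, hr, hrt⟩
  subst htc
  refine ⟨R, hRc, ?_, ⟨r, hr, c i, rfl, hrt⟩, j, hj, ⟨q, hqR', s, ?_, hqs⟩⟩
  · rw [Set.disjoint_left]
    intro v hv hvS
    have h1 := hQ (hR hv).1
    apply h1.2
    refine ⟨hvS, ?_⟩
    rintro (h | h)
    · exact hK h1.1 h
    · exact (hR hv).2 h
  · rcases hsj with h | h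
    · exact Or.inl h
    · exact Or.inr h

end Pool.Agent.MPd439b2.H3T
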