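import Pool.Agent.Lib.MP_d439b2_co.X3.H3T.Spec

/-!
# MP_d439b2_co, H3T, Sp: the retraction of a split
-/

set_option autoImplicit false

namespace Pool.Agent.MPd439b2.H3T

open Pool.Agent.MPd439b2 Pool.Agent.MPd439b2.LK Pool.Agent.MPd439b2.H3 Pool.Agent.MPd439b2.Rep

theorem pfSp : S_Sp := by
  classical
  intro V _ G A A₁ B₁ hA hA₁ hB₁ hadj
  obtain ⟨a, haA, ha⟩ : ∃ a ∈ A, A₁.Nonempty → a ∈ A₁ := by
    by_cases h : A₁.Nonempty
    · obtain ⟨a, ha⟩ := h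
      exact ⟨a, hA₁ ha, fun _ => ha⟩
    · obtain ⟨a, ha⟩ := hA
      exact ⟨a, ha, fun h' => absurd h' h⟩
  have key : ∀ z ∈ A, ∀ z' ∉ A, (G.Adj z z' ↔ z ∈ A₁ ∪ Aᶜ ∪ {a} ∧ G.Adj a z') := by
    intro z hz z' hz'
    rw [hadj z hz z' hz', hadj a haA z' hz']
    constructor
    · rintro ⟨h1, h2⟩
      exact ⟨Or.inl (Or.inl h1), ha ⟨z, h1⟩, h2⟩
    · rintro ⟨(h1 | h1) | h1, h2, h3⟩
      · exact ⟨h1, h3⟩
      · exact absurd hz h1
      · rw [Set.mem_singleton_iff.1 h1]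
        exact ⟨h2, h3⟩
  have hΦ : ∀ z ∉ A, z ∈ A₁ ∪ Aᶜ ∪ {a} := fun z hz => Or.inl (Or.inr hz)
  refine ⟨a, haA, A₁ ∪ Aᶜ ∪ {a}, fun v => if v ∈ A then a else v, ⟨?_, ?_, ?_, ?_⟩, ?_, ?_⟩
  · intro v
    by_cases hv : v ∈ A
    · simp only [hv, if_true]
      exact Or.inl rfl
    · simp only [hv, if_false]
      exact Or.inr hv
  · rintro c (rfl | hc)
    · simp only [haA, if_true]
    · have hc' : c ∉ A := hc
      simp only [hc', if_false]
  · rintro c (rfl | hc)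
    · exact Or.inr rfl
    · exact hΦ c hc
  · intro z z' hne
    by_cases hz : z ∈ A
    · by_cases hz' : z' ∈ A
      · simp only [hz, hz', if_true] at hne
        exact absurd rfl hne
      · simp only [hz, hz', if_true, if_false]
        rw [key z hz z' hz']
        exact ⟨fun h => ⟨h.1, hΦ z' hz', h.2⟩, fun h => ⟨h.1, h.2.2⟩⟩
    · by_cases hz' : z' ∈ A
      · simp only [hz, hz', if_true, if_false]
        rw [G.adj_comm z z', key z' hz' z hz, G.adj_comm a z]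
        exact ⟨fun h => ⟨hΦ z hz, h.1, h.2⟩, fun h => ⟨h.2.1, h.2.2⟩⟩
      · simp only [hz, hz', if_false]
        exact ⟨fun h => ⟨hΦ z hz, hΦ z' hz', h⟩, fun h => h.2.2⟩
  · intro v hv
    simp only [hv, if_true]
  · intro v hv
    simp only [hv, if_false]

end Pool.Agent.MPd439b2.H3T
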