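import Pool.Agent.Lib.MP_d439b2_co.X3.H3T.Spec

/-!
# MP_d439b2_co, group (X), H3T: the theorem on thin spiders (helper77, after helper7's docstring)
-/

set_option autoImplicit false

namespace Pool.Agent.MPd439b2.H3T

open Pool.Agent.MPd439b2 Pool.Agent.MPd439b2.LK Pool.Agent.MPd439b2.H3 Pool.Agent.MPd439b2.Rep

theorem pfT : H3.S_Pr → S_F0 → S_R → S_Qf → S_T := by
  intro hPr hF0 hR hQf V _ G n x c hn hFr hSp hNU hs
  have hinj : Function.Injective x := by
    intro i j hij
    by_contra hne
    have h1 := hs.xx i j hne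
    rw [hij] at h1
    exact G.irrefl h1
  have hcard : n ≤ Nat.card V := by
    have h1 := Nat.card_le_card_of_injective x hinj
    rwa [Nat.card_fin] at h1
  have hPm : Prm G := (hPr V G).1 hSp (by omega) hNU
  have hFl : Fl G x c = ∅ := hF0 V G n x c (by omega) hFr hs hPm
  choose R hR1 using hR V G n x c (by omega) hs hSp
  exact hQf V G n x c hn hFr hs hFl R hR1

end Pool.Agent.MPd439b2.H3T
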