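import Pool.Agent.Lib.MP_d439b2_co.X3.H3T.Spec

/-!
# MP_d439b2_co, H3T: a vertex which sees three of the `c i` is complete to the spider
-/

set_option autoImplicit false

namespace Pool.Agent.MPd439b2.H3T

open Pool.Agent.MPd439b2 Pool.Agent.MPd439b2.LK Pool.Agent.MPd439b2.H3 Pool.Agent.MPd439b2.Rep

theorem pfVx : S_D0 → S_B → S_C → S_Vx := by
  intro hD0 hB hC V G n x c hn hF hS u hu
  obtain ⟨ix, ic, xc⟩ := hD0 V G n x c (by omega) hS
  obtain ⟨a, b, d, ha, hb, hd, hab, had, hbd⟩ := (Set.two_lt_ncard_iff (Set.toFinite _)).1 hu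
  simp only [Set.mem_ofPred_eq] at ha hb hd
  have ux : ∀ k, u ≠ x k := by
    rintro k rfl
    have h1 := (hS.xc k a).1 ha
    have h2 := (hS.xc k b).1 hb
    exact hab (h1.symm.trans h2)
  have uc : ∀ k, u ≠ c k := by
    rintro k rfl
    exact hS.cc _ _ ha
  have all : ∀ m, G.Adj u (c m) := by
    intro m
    by_cases h1 : m = a
    · rw [h1]; exact ha
    by_cases h2 : m = b
    · rw [h2]; exact hb
    by_cases h3 : m = d
    · rw [h3]; exact hd
    have hZ : Conn G (insert u {c d, x d}) := by
      have h4 : Conn G {c d, x d} := Conn.pair ((hS.xc d d).2 rfl).symm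
      exact h4.insert ⟨c d, Or.inl rfl, hd.symm⟩
    have h5 := hB V G n x c (by omega) hF hS a b m (insert u {c d, x d}) hab (Ne.symm h1)
      (Ne.symm h2) hZ ?_ ?_ ?_ ?_ ?_
    · obtain ⟨z, hz, w, hw, hzw⟩ := h5
      rw [Set.mem_singleton_iff] at hw
      subst hw
      rcases hz with rfl | rfl | hz
      · exact hzw
      · exact absurd hzw (hS.cc _ _)
      · rw [Set.mem_singleton_iff] at hz
        subst hz
        exact absurd ((hS.xc d m).1 hzw).symm h3
    · intro k hk
      have hkd : k ≠ d := by
        rcases hk with rfl | rfl | rfl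
        · exact had
        · exact hbd
        · exact h3
      refine ⟨?_, ?_⟩
      · rintro (h | h | h)
        · exact ux k h.symm
        · exact xc k d h
        · exact hkd (ix k d h)
      · rintro (h | h | h)
        · exact uc k h.symm
        · exact hkd (ic k d h)
        · exact xc d k h.symm
    · exact Tch.of_adj (hS.xx d a had.symm) (Or.inr (Or.inr rfl)) rfl
    · exact Tch.of_adj (hS.xx d b hbd.symm) (Or.inr (Or.inr rfl)) rfl
    · exact Tch.of_adj ha (Or.inl rfl) rfl
    · exact Tch.of_adj hb (Or.inl rfl) rfl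
  intro j
  refine ⟨?_, all j⟩
  set g : Fin 5 → Fin n := fun t => Equiv.swap (Fin.castLE hn 4) j (Fin.castLE hn t) with hg
  have gi : Function.Injective g := by
    intro s t hst
    exact (Fin.castLE_injective hn) ((Equiv.swap (Fin.castLE hn 4) j).injective hst)
  have g4 : g 4 = j := by
    simp [hg]
  have h6 := hC V G n x c (by omega) hF hS g u gi (fun t _ => all _)
  rwa [g4] at h6

end Pool.Agent.MPd439b2.H3T
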