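import Pool.Agent.Lib.MP_d439b2_co.X3.H3T.Spec

/-!
# MP_d439b2_co, H3T, Zc: connected sets see at most two leaves of a thin spider
-/

set_option autoImplicit false

namespace Pool.Agent.MPd439b2.H3T

open Pool.Agent.MPd439b2 Pool.Agent.MPd439b2.LK Pool.Agent.MPd439b2.H3 Pool.Agent.MPd439b2.Rep

namespace ZcAux

theorem shrink {V : Type} [Finite V] (G : SimpleGraph V) (C : Set V) (u : V) (hC : Conn G C) (hu : u ∈ C)
    (hne : C ≠ {u}) : ∃ v ∈ C, v ≠ u ∧ Conn G (C \ {v}) := by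
  have hfin : {D : Set V | D ⊆ C ∧ D ≠ C ∧ u ∈ D ∧ Conn G D}.Finite := Set.toFinite _
  have hn : {D : Set V | D ⊆ C ∧ D ≠ C ∧ u ∈ D ∧ Conn G D}.Nonempty :=
    ⟨{u}, Set.singleton_subset_iff.2 hu, hne.symm, rfl, Conn.singleton G u⟩
  obtain ⟨D, hD⟩ := hfin.exists_maximal hn
  obtain ⟨hDC, hDne, huD, hDconn⟩ := hD.1
  obtain ⟨b, hb, a, ha, hab⟩ := hC.2 D hDC ⟨u, huD⟩ hDne
  have hins : Conn G (insert a D) := hDconn.insert ⟨b, hb, hab⟩
  have heq : insert a D = C := by
    by_contra h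
    have hle := hD.2 (y := insert a D) ⟨Set.insert_subset ha.1 hDC, h, Set.mem_insert_of_mem a huD, hins⟩
      (Set.subset_insert a D)
    exact ha.2 (hle (Set.mem_insert a D))
  refine ⟨a, ha.1, ?_, ?_⟩
  · rintro rfl
    exact ha.2 huD
  · have : C \ {a} = D := by
      rw [← heq]
      ext x
      constructor
      · rintro ⟨hx, hxa⟩
        exact hx.resolve_left hxa
      · intro hx
        exact ⟨Or.inr hx, fun h => ha.2 (h ▸ hx)⟩
    rw [this]
    exact hDconn

end ZcAux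

open ZcAux in
theorem pfZc : S_D0 → S_B → S_Vx → S_Zc := by
  intro hD0 hB hVx V _ G n x c hn hfr hs Z hZ hZS hZF
  obtain ⟨ex, ec, exc⟩ := hD0 V G n x c (by omega) hs
  by_contra hcon
  rw [not_le] at hcon
  -- a minimal connected subset which touches at least three
  have hfin : {W : Set V | W ⊆ Z ∧ Conn G W ∧ 2 < {i | Tch G W {c i}}.ncard}.Finite := Set.toFinite _
  have hne : {W : Set V | W ⊆ Z ∧ Conn G W ∧ 2 < {i | Tch G W {c i}}.ncard}.Nonempty :=
    ⟨Z, subset_rfl, hZ, hcon⟩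
  obtain ⟨W, hW⟩ := hfin.exists_minimal hne
  obtain ⟨hWZ, hWc, hW3⟩ := hW.1
  -- single vertices see at most two
  have hsing : ∀ v ∈ Z, {i | Tch G {v} {c i}}.ncard ≤ 2 := by
    intro v hv
    by_contra h
    rw [not_le] at h
    have e : {i | Tch G {v} {c i}} = {i | G.Adj v (c i)} := by
      ext i
      constructor
      · rintro ⟨a, rfl, b, rfl, hab⟩
        exact hab
      · intro h
        exact ⟨v, rfl, c i, rfl, h⟩
    rw [e] at h
    exact Set.disjoint_left.1 hZF hv (hVx V G n x c hn hfr hs v h)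
  obtain ⟨u, hu⟩ := hWc.1
  have hWne : W ≠ {u} := by
    intro h
    have h1 := hsing u (hWZ hu)
    rw [← h] at h1
    omega
  obtain ⟨v, hv, hvu, hvc⟩ := shrink G W u hWc hu hWne
  have h2 : {i | Tch G (W \ {v}) {c i}}.ncard ≤ 2 := by
    by_contra h
    rw [not_le] at h
    have h3 := hW.2 (y := W \ {v}) ⟨Set.sdiff_subset.trans hWZ, hvc, h⟩ Set.sdiff_subset
    exact (h3 hv).2 rfl
  have h4 : {i | Tch G W {c i}}.ncard ≤ 4 := by
    have hsub : {i | Tch G W {c i}} ⊆ {i | Tch G (W \ {v}) {c i}} ∪ {i | Tch G {v} {c i}} := by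
      rintro i ⟨a, ha, b, hb, hab⟩
      by_cases hav : a = v
      · exact Or.inr ⟨a, hav, b, hb, hab⟩
      · exact Or.inl ⟨a, ⟨ha, hav⟩, b, hb, hab⟩
    have h5 := Set.ncard_le_ncard hsub (Set.toFinite _)
    have h6 := Set.ncard_union_le {i | Tch G (W \ {v}) {c i}} {i | Tch G {v} {c i}}
    have h7 := hsing v (hWZ hv)
    omega
  -- a missed leaf
  obtain ⟨m, hm⟩ : ∃ m, m ∉ {i | Tch G W {c i}} := by
    by_contra h
    push Not at h
    have h5 : {i | Tch G W {c i}} = Set.univ := Set.eq_univ_of_forall h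
    rw [h5, Set.ncard_univ, Nat.card_eq_fintype_card, Fintype.card_fin] at h4
    omega
  obtain ⟨a, b, d, ha, hb, hd, hab, had, hbd⟩ := (Set.two_lt_ncard_iff).1 hW3
  have ham : a ≠ m := fun h => hm (h ▸ ha)
  have hbm : b ≠ m := fun h => hm (h ▸ hb)
  have hdm : d ≠ m := fun h => hm (h ▸ hd)
  have hxd : G.Adj (x d) (c d) := (hs.xc d d).2 rfl
  have hWS : ∀ y ∈ W, y ∉ SpV x c := fun y hy => Set.disjoint_left.1 hZS (hWZ hy)
  have hconn : Conn G (W ∪ {c d, x d}) := by
    refine hWc.union (Conn.pair hxd.symm) (Or.inr ?_)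
    exact Tch.mono hd subset_rfl (Set.singleton_subset_iff.2 (Or.inl rfl))
  have key := hB V G n x c (by omega) hfr hs a b m (W ∪ {c d, x d}) hab ham hbm hconn ?_ ?_ ?_ ?_ ?_
  · obtain ⟨y, hy, z, hz, hyz⟩ := key
    rw [Set.mem_singleton_iff.1 hz] at hyz
    rcases hy with hy | hy | hy
    · exact hm ⟨y, hy, c m, rfl, hyz⟩
    · rw [hy] at hyz
      exact hs.cc d m hyz
    · rw [Set.mem_singleton_iff.1 hy] at hyz
      exact hdm ((hs.xc d m).1 hyz)
  · intro k hk
    have hkd : k ≠ d := by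
      rcases hk with rfl | rfl | rfl
      · exact had
      · exact hbd
      · exact hdm.symm
    refine ⟨?_, ?_⟩
    · rintro (h | h | h)
      · exact hWS _ h (Or.inl ⟨k, rfl⟩)
      · exact exc k d h
      · exact hkd (ex k d (Set.mem_singleton_iff.1 h))
    · rintro (h | h | h)
      · exact hWS _ h (Or.inr ⟨k, rfl⟩)
      · exact hkd (ec k d h)
      · exact exc d k (Set.mem_singleton_iff.1 h).symm
  · exact ⟨x d, Or.inr (Or.inr rfl), x a, rfl, hs.xx d a had.symm⟩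
  · exact ⟨x d, Or.inr (Or.inr rfl), x b, rfl, hs.xx d b hbd.symm⟩
  · exact Tch.mono ha Set.subset_union_left subset_rfl
  · exact Tch.mono hb Set.subset_union_left subset_rfl

end Pool.Agent.MPd439b2.H3T
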