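import Pool.Agent.Lib.MP_d439b2_co.X3.H3T.B
import Pool.Agent.Lib.MP_d439b2_co.X3.H3T.C
import Pool.Agent.Lib.MP_d439b2_co.X3.H3T.D0
import Pool.Agent.Lib.MP_d439b2_co.X3.H3T.E
import Pool.Agent.Lib.MP_d439b2_co.X3.H3T.F
import Pool.Agent.Lib.MP_d439b2_co.X3.H3T.F0
import Pool.Agent.Lib.MP_d439b2_co.X3.H3T.HF
import Pool.Agent.Lib.MP_d439b2_co.X3.H3T.HLS
import Pool.Agent.Lib.MP_d439b2_co.X3.H3T.HLU
import Pool.Agent.Lib.MP_d439b2_co.X3.H3T.LB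
import Pool.Agent.Lib.MP_d439b2_co.X3.H3T.LN
import Pool.Agent.Lib.MP_d439b2_co.X3.H3T.Lf
import Pool.Agent.Lib.MP_d439b2_co.X3.H3T.Mn
import Pool.Agent.Lib.MP_d439b2_co.X3.H3T.P1
import Pool.Agent.Lib.MP_d439b2_co.X3.H3T.P2
import Pool.Agent.Lib.MP_d439b2_co.X3.H3T.P3
import Pool.Agent.Lib.MP_d439b2_co.X3.H3T.P4
import Pool.Agent.Lib.MP_d439b2_co.X3.H3T.P5
import Pool.Agent.Lib.MP_d439b2_co.X3.H3T.P6
import Pool.Agent.Lib.MP_d439b2_co.X3.H3T.P7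
import Pool.Agent.Lib.MP_d439b2_co.X3.H3T.P8
import Pool.Agent.Lib.MP_d439b2_co.X3.H3T.Qf
import Pool.Agent.Lib.MP_d439b2_co.X3.H3T.R
import Pool.Agent.Lib.MP_d439b2_co.X3.H3T.Sp
import Pool.Agent.Lib.MP_d439b2_co.X3.H3T.T
import Pool.Agent.Lib.MP_d439b2_co.X3.H3T.U3
import Pool.Agent.Lib.MP_d439b2_co.X3.H3T.Vx
import Pool.Agent.Lib.MP_d439b2_co.X3.H3T.Zc
import Pool.Agent.Lib.MP_d439b2_co.Rep.FinalG
import Pool.Agent.Lib.MP_d439b2_co.H3.M0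
import Pool.Agent.Lib.MP_d439b2_co.H3.Pr
import Pool.Agent.Lib.MP_d439b2_co.H3.Rt
import Pool.Agent.Lib.MP_d439b2_co.H3.Pc
import Pool.Agent.Lib.MP_d439b2_co.H3.In

/-!
# MP_d439b2_co, X3/H3T: assembly (thin spiders for `K3:0,01,12`; the black boxes without splits)
-/

set_option autoImplicit false

namespace Pool.Agent.MPd439b2.H3T

open Pool.Agent.MPd439b2

theorem fB : S_B := pfB H3.pfM0 pfD0
theorem fC : S_C := pfC H3.pfM0 pfD0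
theorem fE : S_E := pfE H3.pfM0 pfD0
theorem fVx : S_Vx := pfVx pfD0 fB fC
theorem fZc : S_Zc := pfZc pfD0 fB fVx
theorem fF : S_F := pfF H3.pfM0 pfD0 fVx fZc
theorem fQf : S_Qf := pfQf pfD0 fB fZc fE
theorem fR : S_R := pfR pfD0

/-- **The theorem on thin spiders** for `K3:0,01,12` -/
theorem thinF : S_T := pfT H3.pfPr (pfF0 fF) fR fQf

theorem fLf : S_Lf := pfLf LK.a1 H3.pfRt H3.pfIn
theorem fMn : S_Mn := pfMn LK.a1 Rep.a2_holds pfSp fLf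

/-- **The black box without splits** -/
theorem hlsF : S_HLS := pfHLS Rep.repG_holds (Rep.tanE Rep.a2_holds Rep.a6_holds) (Rep.tanL LK.a1) fMn

theorem fP3 : S_P3 := pfP3 pfP2
theorem fP4 : S_P4 := pfP4 LK.a1 pfP1 pfP2 fP3
theorem fP5 : S_P5 := pfP5 pfP1 pfP2 fP3
theorem fP6 : S_P6 := pfP6 pfP1 pfP2 fP3
theorem fP7 : S_P7 := pfP7 pfP1 pfP2 fP3
theorem fP8 : S_P8 := pfP8 pfP2 fP4 fP5 fP6 fP7
theorem fU3 : S_U3 := pfU3 H3.pfM0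
theorem fLB : S_LB := pfLB LK.a1

/-- **The black box without splits and without universal vertices** for `K3:0,01,12` -/
theorem hluF : S_HLU := pfHLU LK.a1 H3.pfPr H3.pfRt (H3.pfPc LK.a1 H3.pfRt) H3.pfIn hlsF fP8 fU3 fLB pfLN

end Pool.Agent.MPd439b2.H3T
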