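import Pool.Agent.Lib.MP_d439b2_co.X3.H3T.Spec

/-!
# MP_d439b2_co, X3/H3T, LB: a linked graph with a layout of small width is small
-/

set_option autoImplicit false

namespace Pool.Agent.MPd439b2.H3T

open Pool.Agent.MPd439b2 Pool.Agent.MPd439b2.LK Pool.Agent.MPd439b2.H3 Pool.Agent.MPd439b2.Rep

private theorem LB_cr (h1 : LK.S_A1) {V : Type} [Finite V] (G : SimpleGraph V) {k : ℕ} {X : Set V}
    (hX : (Types G X).encard ≤ k) : LK.cr G X ≤ k := by
  have h6 := (h1 V G).2.2.2.2.2 X Xᶜ (Types G X) (by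
    intro a ha
    by_cases hne : ∃ b, b ∈ Xᶜ ∧ G.Adj a b
    · left
      refine ⟨hne, a, ha, ?_⟩
      ext b
      constructor
      · intro hb
        exact ⟨hb.2, hb.1⟩
      · intro hb
        exact ⟨hb.2, hb.1⟩
    · right
      intro b hb hab
      exact hne ⟨b, hb, hab⟩)
  refine le_trans h6 ?_
  rw [← (Set.toFinite (Types G X)).cast_ncard_eq] at hX
  exact_mod_cast hX

theorem pfLB : LK.S_A1 → S_LB := by
  intro h1 V _ G β c₀ k hk hL hlay
  by_contra hcon
  have hbig : 3 * β k + 4 ≤ Nat.card V := by omega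
  have key : ∀ X : Set V, Lay G k X → X.ncard ≤ β k + 1 := by
    intro X hX
    induction hX with
    | empty => simp
    | single v _ => simp
    | @union A B _ _ _ ht ihA ihB =>
      have h2 := Set.ncard_union_le A B
      have h3 := Set.ncard_add_ncard_compl (A ∪ B)
      rcases hL k hk (A ∪ B) (LB_cr h1 G ht) with h4 | h4
      · omega
      · omega
  have h5 := key _ hlay
  rw [Set.ncard_univ] at h5
  omega

end Pool.Agent.MPd439b2.H3T
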