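import Pool.Agent.Lib.MP_d439b2_co.X3.H3T.Spec

/-!
# MP_d439b2_co, H3T: the model B
-/

set_option autoImplicit false

namespace Pool.Agent.MPd439b2.H3T

open Pool.Agent.MPd439b2 Pool.Agent.MPd439b2.LK Pool.Agent.MPd439b2.H3 Pool.Agent.MPd439b2.Rep

theorem pfB : H3.S_M0 → S_D0 → S_B := by
  intro hM hD0 V G n x c hn hF hS i j m Z hij him hjm hZ ho txi txj tci tcj
  obtain ⟨ix, ic, xc⟩ := hD0 V G n x c hn hS
  by_contra hm
  have dj : ∀ {u v : V}, u ≠ v → Disjoint ({u} : Set V) {v} := fun h => by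
    rw [Set.disjoint_singleton]; exact h
  have dp : ∀ {w u v : V}, w ≠ u → w ≠ v → Disjoint ({w} : Set V) {u, v} := fun h1 h2 => by
    rw [Set.disjoint_singleton_left]
    rintro (h | h)
    · exact h1 h
    · exact h2 h
  have dz : ∀ {w : V}, w ∉ Z → Disjoint ({w} : Set V) Z := fun h => by
    rw [Set.disjoint_singleton_left]; exact h
  have nt : ∀ {u v : V}, ¬ G.Adj u v → ¬ Tch G {u} {v} := by
    rintro u v h ⟨a, ha, b, hb, hab⟩
    rw [Set.mem_singleton_iff] at ha hb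
    subst ha; subst hb
    exact h hab
  have oi := ho i (Or.inl rfl)
  have oj := ho j (Or.inr (Or.inl rfl))
  have om := ho m (Or.inr (Or.inr rfl))
  apply hF
  refine hM V G {x i, x m} Z {x j} {c m} {c i} {c j} (Conn.pair (hS.xx i m him)) hZ
    (Conn.singleton G _) (Conn.singleton G _) (Conn.singleton G _) (Conn.singleton G _)
    ?_ ?_ (dz oj.1).symm
    (dp (xc i m).symm (xc m m).symm) (dz om.2) (dj (xc j m).symm)
    (dp (xc i i).symm (xc m i).symm) (dz oi.2) (dj (xc j i).symm)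
    (dp (xc i j).symm (xc m j).symm) (dz oj.2) (dj (xc j j).symm)
    (dj fun h => him (ic m i h).symm) (dj fun h => hjm (ic m j h).symm) (dj fun h => hij (ic i j h))
    ?_ ?_ txj ?_ ?_ ?_ ?_ ?_ ?_ ?_ ?_ ?_ ?_ ?_ ?_
  · rw [Set.disjoint_left]
    rintro v (h | h) hv
    · rw [h] at hv; exact oi.1 hv
    · rw [Set.mem_singleton_iff.1 h] at hv; exact om.1 hv
  · exact (dp (fun h => hij (ix j i h).symm) (fun h => hjm (ix j m h))).symm
  · exact (txi.symm).mono (by intro v hv; exact Or.inl hv) le_rfl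
  · exact Tch.of_adj (hS.xx i j hij) (Or.inl rfl) rfl
  · exact Tch.of_adj ((hS.xc m m).2 rfl).symm rfl (Or.inr rfl)
  · exact fun h => hm h.symm
  · exact nt fun h => hjm ((hS.xc j m).1 h.symm)
  · exact Tch.of_adj ((hS.xc i i).2 rfl).symm rfl (Or.inl rfl)
  · exact tci.symm
  · exact nt fun h => hij ((hS.xc j i).1 h.symm).symm
  · exact tcj.symm
  · exact Tch.of_adj ((hS.xc j j).2 rfl).symm rfl rfl
  · rintro ⟨a, ha, b, hb, hab⟩
    rw [Set.mem_singleton_iff] at ha
    subst ha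
    rcases hb with rfl | hb
    · exact hij ((hS.xc i j).1 hab.symm)
    · rw [Set.mem_singleton_iff] at hb
      subst hb
      exact hjm ((hS.xc m j).1 hab.symm).symm
  · exact nt (hS.cc _ _)
  · exact nt (hS.cc _ _)
  · exact nt (hS.cc _ _)

end Pool.Agent.MPd439b2.H3T
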