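import Pool.Agent.Lib.MP_d439b2_co.X3.H3T.Spec

/-!
# MP_d439b2_co, X3/H3T/P7: twins
-/

set_option autoImplicit false

namespace Pool.Agent.MPd439b2.H3T

open Pool.Agent.MPd439b2 Pool.Agent.MPd439b2.LK Pool.Agent.MPd439b2.H3 Pool.Agent.MPd439b2.Rep

/-- the four types of the elements of `Q` -/
private theorem p7_cases {V : Type} {G : SimpleGraph V} {A Q : Set V} {v : V} (hv : v ∈ Q) :
    v ∈ Lv G A Q ∨ v ∈ NN G A Q ∨ v ∈ ZZ G A Q ∨ v ∈ WW G A Q := by
  by_cases hvL : v ∈ Lv G A Q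
  · exact Or.inl hvL
  right
  by_cases hall : ∀ a ∈ Lv G A Q, G.Adj v a
  · exact Or.inr (Or.inl ⟨hv, hvL, hall⟩)
  by_cases hnone : ∀ a ∈ Lv G A Q, ¬ G.Adj v a
  · exact Or.inr (Or.inr ⟨hv, hvL, hnone⟩)
  left
  push Not at hall hnone
  obtain ⟨a, ha, hva⟩ := hall
  obtain ⟨a', ha', hva'⟩ := hnone
  exact ⟨hv, hvL, ⟨a, ha, hva⟩, a', ha', hva'⟩

private theorem p7_pair {V : Type} {G : SimpleGraph V} {Q : Set V} {b b' : V}
    (h : ∀ v ∈ Q, v ≠ b → v ≠ b' → (G.Adj v b ↔ G.Adj v b')) : Hmg G Q {b, b'} := by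
  intro v hv hvM
  have hvb : v ≠ b := fun h => hvM (Or.inl h)
  have hvb' : v ≠ b' := fun h => hvM (Or.inr h)
  have h1 := h v hv hvb hvb'
  by_cases h2 : G.Adj v b
  · left
    rintro m (rfl | rfl)
    · exact h2
    · exact h1.1 h2
  · right
    rintro m (rfl | rfl)
    · exact h2
    · exact fun h3 => h2 (h1.2 h3)

theorem pfP7 : S_P1 → S_P2 → S_P3 → S_P7 := by
  rintro h1 h2 h3 V _ G A Q S hR hGd
  have hcl := h1 V G A Q hR
  obtain ⟨p1, p2, p3⟩ := h2 V G A Q hR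
  refine ⟨?_, ?_, ?_⟩
  · intro b hb b' hb'
    by_contra hne
    have hbL := hGd.1 hb.1
    have hbL' := hGd.1 hb'.1
    have hsub := hR.mf {b, b'} (by
        rintro m (rfl | rfl)
        · exact hbL.1
        · exact hbL'.1) (Or.inl (by
        rintro m (rfl | rfl)
        · exact hbL
        · exact hbL')) (p7_pair ?_)
    · exact hne (hsub (Or.inl rfl) (Or.inr rfl))
    intro v hv hvb hvb'
    rcases p7_cases (G := G) (A := A) hv with hv' | hv' | hv' | hv'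
    · exact ⟨fun _ => hcl v hv' b' hbL' hvb', fun _ => hcl v hv' b hbL hvb⟩
    · -- v in NN
      have hiff : b ∈ Ms G (Lv G A Q) v ↔ b' ∈ Ms G (Lv G A Q) v := by
        rcases hGd.2 v hv' with h | h | h
        · by_cases heq : Ms G (Lv G A Q) v = S
          · rw [heq]
            exact ⟨fun _ => hb'.1, fun _ => hb.1⟩
          · have hss : Ms G (Lv G A Q) v ⊂ S := Set.ssubset_iff_subset_ne.2 ⟨h, heq⟩
            exact ⟨fun h' => (hb.2 v hv' hss h').elim, fun h' => (hb'.2 v hv' hss h').elim⟩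
        · exact ⟨fun h' => (Set.disjoint_left.mp h h' hb.1).elim,
            fun h' => (Set.disjoint_left.mp h h' hb'.1).elim⟩
        · exact ⟨fun _ => h hb'.1, fun _ => h hb.1⟩
      constructor
      · intro h
        by_contra hcon
        exact (hiff.2 ⟨hbL', hcon⟩).2 h
      · intro h
        by_contra hcon
        exact (hiff.1 ⟨hbL, hcon⟩).2 h
    · exact ⟨fun _ => hv'.2.2 b' hbL', fun _ => hv'.2.2 b hbL⟩
    · exact ⟨fun h => (hv'.2.2 b hbL h).elim, fun h => (hv'.2.2 b' hbL' h).elim⟩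
  · intro z hz z' hz'
    by_contra hne
    obtain ⟨hzZ, hz1, hz2, u₀, hu₀, hu₀S⟩ := hz
    obtain ⟨hzZ', hz1', hz2', -⟩ := hz'
    have hLne : (Lv G A Q).Nonempty := by
      obtain ⟨s, hs⟩ := hu₀.2.2.1
      exact ⟨s, hs.1⟩
    have hSne : S.Nonempty := by
      rw [← hu₀S]
      exact hu₀.2.2.1
    obtain ⟨z1, z2, z3, z4⟩ := h3 V G A Q hR hLne
    have hzu : ¬ G.Adj z u₀ := hz2 u₀ hu₀ hu₀S
    have hzu' : ¬ G.Adj z' u₀ := hz2' u₀ hu₀ hu₀S
    have hsub := hR.mf {z, z'} (by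
        rintro m (rfl | rfl)
        · exact hzZ.1
        · exact hzZ'.1) (Or.inr (by
        rw [Set.disjoint_left]
        rintro m (rfl | rfl)
        · exact hzZ.2.1
        · exact hzZ'.2.1)) (p7_pair ?_)
    · exact hne (hsub (Or.inl rfl) (Or.inr rfl))
    intro v hv hvz hvz'
    rcases p7_cases (G := G) (A := A) hv with hv' | hv' | hv' | hv'
    · exact ⟨fun _ => (hzZ'.2.2 v hv').symm, fun _ => (hzZ.2.2 v hv').symm⟩
    · rcases hGd.2 v hv' with h | h | h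
      · by_cases heq : Ms G (Lv G A Q) v = S
        · exact ⟨fun h' => (hz2 v hv' heq h'.symm).elim, fun h' => (hz2' v hv' heq h'.symm).elim⟩
        · have hss : Ms G (Lv G A Q) v ⊂ S := Set.ssubset_iff_subset_ne.2 ⟨h, heq⟩
          exact ⟨fun _ => (hz1' v hv' hss).symm, fun _ => (hz1 v hv' hss).symm⟩
      · have hd : Disjoint (Ms G (Lv G A Q) u₀) (Ms G (Lv G A Q) v) := by
          rw [hu₀S]
          exact h.symm
        refine ⟨fun _ => ?_, fun _ => ?_⟩
        · rcases z2 z' hzZ' u₀ hu₀ v hv' hd with h' | h'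
          · exact (hzu' h').elim
          · exact h'.symm
        · rcases z2 z hzZ u₀ hu₀ v hv' hd with h' | h'
          · exact (hzu h').elim
          · exact h'.symm
      · by_cases heq : Ms G (Lv G A Q) v = S
        · exact ⟨fun h' => (hz2 v hv' heq h'.symm).elim, fun h' => (hz2' v hv' heq h'.symm).elim⟩
        · have hss : Ms G (Lv G A Q) u₀ ⊂ Ms G (Lv G A Q) v := by
            rw [hu₀S]
            exact Set.ssubset_iff_subset_ne.2 ⟨h, Ne.symm heq⟩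
          exact ⟨fun h' => (hzu (z3 z hzZ v hv' u₀ hu₀ hss h'.symm)).elim,
            fun h' => (hzu' (z3 z' hzZ' v hv' u₀ hu₀ hss h'.symm)).elim⟩
    · exact ⟨fun _ => z1 v hv' z' hzZ' hvz', fun _ => z1 v hv' z hzZ hvz⟩
    · exact ⟨fun h => (z4 z hzZ u₀ hu₀ hzu v hv' h.symm).elim,
        fun h => (z4 z' hzZ' u₀ hu₀ hzu' v hv' h.symm).elim⟩
  · intro v hv
    rcases hv with hv | hv | hv
    · by_cases hB : v ∈ B0 G A Q S
      · exact Or.inl hB
      · right; right; right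
        have : ∃ u ∈ NN G A Q, Ms G (Lv G A Q) u ⊂ S ∧ v ∈ Ms G (Lv G A Q) u := by
          by_contra hcon
          push Not at hcon
          exact hB ⟨hv, hcon⟩
        obtain ⟨u, hu, hss, hvu⟩ := this
        exact ⟨u, hu, hss, Or.inl hvu⟩
    · obtain ⟨hvN, hsub⟩ := hv
      by_cases heq : Ms G (Lv G A Q) v = S
      · exact Or.inr (Or.inr (Or.inl (Or.inl ⟨hvN, heq⟩)))
      · exact Or.inr (Or.inr (Or.inr ⟨v, hvN, Set.ssubset_iff_subset_ne.2 ⟨hsub, heq⟩,
          Or.inr (Or.inl ⟨hvN, subset_rfl⟩)⟩))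
    · obtain ⟨hvZ, u, hu, hsub, hvu⟩ := hv
      by_cases hex : ∃ w ∈ NN G A Q, Ms G (Lv G A Q) w ⊂ S ∧ ¬ G.Adj v w
      · obtain ⟨w, hw, hwS, hvw⟩ := hex
        exact Or.inr (Or.inr (Or.inr ⟨w, hw, hwS, Or.inr (Or.inr ⟨hvZ, w, hw, subset_rfl, hvw⟩)⟩))
      · push Not at hex
        have heq : Ms G (Lv G A Q) u = S := by
          by_contra hne
          exact hvu (hex u hu (Set.ssubset_iff_subset_ne.2 ⟨hsub, hne⟩))
        by_cases hsee : ∃ w ∈ NN G A Q, Ms G (Lv G A Q) w = S ∧ G.Adj v w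
        · exact Or.inr (Or.inr (Or.inl (Or.inr ⟨hvZ, hsee, u, hu, heq, hvu⟩)))
        · push Not at hsee
          exact Or.inr (Or.inl ⟨hvZ, hex, hsee, u, hu, heq⟩)

end Pool.Agent.MPd439b2.H3T
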